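import Mathlib

/-! Discretely ordered commutative semirings with a ring of differences. `zify at *` moves a
statement about such an `M` to the ordered ring `Ar.R M`, where `linarith`/`nlinarith` work
(add `nn a : 0 ≤ ι a` as hints). -/

namespace Pool.Agent.MP75f14d

class Ar (M : Type) extends CommSemiring M, LinearOrder M where
  sor : IsStrictOrderedRing M
  can : CanonicallyOrderedAdd M
  disc : ∀ a b : M, a < b → a + 1 ≤ b
  R : Type
  ring : CommRing R
  ord : LinearOrder R
  rsor : IsStrictOrderedRing R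
  io : M →+* R
  io_le : ∀ a b, io a ≤ io b ↔ a ≤ b

attribute [instance_reducible] Ar.ring Ar.ord
attribute [instance] Ar.sor Ar.can Ar.ring Ar.ord Ar.rsor

variable {M : Type} [Ar M]

/-- The embedding into the ring of differences. -/
def io (a : M) : Ar.R M := (Ar.io : M →+* Ar.R M) a

@[zify_simps] theorem z_le (a b : M) : a ≤ b ↔ io a ≤ io b := (Ar.io_le a b).symm
@[zify_simps] theorem z_eq (a b : M) : a = b ↔ io a = io b := by
  rw [le_antisymm_iff, le_antisymm_iff, z_le, z_le]
@[push_cast] theorem io_add (a b : M) : io (a + b) = io a + io b := map_add (Ar.io : M →+* Ar.R M) _ _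
@[push_cast] theorem io_mul (a b : M) : io (a * b) = io a * io b := map_mul (Ar.io : M →+* Ar.R M) _ _
@[push_cast] theorem io_zero : io (0 : M) = 0 := map_zero (Ar.io : M →+* Ar.R M)
@[push_cast] theorem io_one : io (1 : M) = 1 := map_one (Ar.io : M →+* Ar.R M)
@[push_cast] theorem io_two : io (2 : M) = 2 := map_ofNat (Ar.io : M →+* Ar.R M) 2
@[push_cast] theorem io_three : io (3 : M) = 3 := map_ofNat (Ar.io : M →+* Ar.R M) 3
@[push_cast] theorem io_four : io (4 : M) = 4 := map_ofNat (Ar.io : M →+* Ar.R M) 4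
theorem lt_iff_succ_le {a b : M} : a < b ↔ a + 1 ≤ b :=
  ⟨Ar.disc a b, fun h => lt_of_lt_of_le (lt_add_one a) h⟩
@[zify_simps] theorem z_lt (a b : M) : a < b ↔ io a + 1 ≤ io b := by
  rw [lt_iff_succ_le, z_le, io_add, io_one]
@[zify_simps] theorem z_gt (a b : M) : a > b ↔ io b + 1 ≤ io a := z_lt b a
@[zify_simps] theorem z_ge (a b : M) : a ≥ b ↔ io b ≤ io a := z_le b a
theorem nn (a : M) : 0 ≤ io a := by
  rw [← io_zero, ← z_le]; exact zero_le

theorem lt_succ_iff {a b : M} : a < b + 1 ↔ a ≤ b := by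
  rw [lt_iff_succ_le]; exact add_le_add_iff_right 1

theorem lt_succ_iff_lt_or_eq {a b : M} : a < b + 1 ↔ a < b ∨ a = b := by
  rw [lt_succ_iff, le_iff_lt_or_eq]

theorem eq_zero_or_succ (a : M) : a = 0 ∨ ∃ b, a = b + 1 := by
  rcases eq_or_lt_of_le (zero_le : 0 ≤ a) with h | h
  · exact Or.inl h.symm
  · obtain ⟨b, hb⟩ := exists_add_of_le (Ar.disc _ _ h)
    exact Or.inr ⟨b, by rw [hb]; ring⟩

theorem not_lt_zero (a : M) : ¬ a < 0 := not_lt.2 zero_le

/-- The pairing function. -/
def pair (a b : M) : M := (a + b) * (a + b) + a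

theorem pair_lt_of_add_lt {a b c d : M} (h : a + b < c + d) : pair a b < pair c d := by
  unfold pair
  zify at *
  nlinarith [nn a, nn b, nn c, nn d]

theorem pair_inj {a b c d : M} (h : pair a b = pair c d) : a = c ∧ b = d := by
  have hs : a + b = c + d := by
    rcases lt_trichotomy (a + b) (c + d) with h1 | h1 | h1
    · exact absurd h (pair_lt_of_add_lt h1).ne
    · exact h1
    · exact absurd h (pair_lt_of_add_lt h1).ne'
  have ha : a = c := by
    unfold pair at h
    rw [hs] at h
    exact add_left_cancel h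
  subst ha
  exact ⟨rfl, add_left_cancel hs⟩

@[simp] theorem pair_eq_iff {a b c d : M} : pair a b = pair c d ↔ a = c ∧ b = d :=
  ⟨pair_inj, fun ⟨h1, h2⟩ => by rw [h1, h2]⟩

theorem le_pair_left (a b : M) : a ≤ pair a b := by
  unfold pair; exact le_add_self

theorem le_pair_right (a b : M) : b ≤ pair a b := by
  unfold pair
  rcases eq_zero_or_succ b with rfl | ⟨c, rfl⟩
  · exact zero_le
  · zify; nlinarith [nn a, nn c]

theorem pair_mono {a b c d : M} (h1 : a ≤ c) (h2 : b ≤ d) : pair a b ≤ pair c d := by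
  unfold pair; gcongr

theorem pair_lt_pair {a b c d : M} (h1 : a < c) (h2 : b ≤ d) : pair a b < pair c d :=
  pair_lt_of_add_lt (add_lt_add_of_lt_of_le h1 h2)

theorem pair_lt_pair' {a b c d : M} (h1 : a ≤ c) (h2 : b < d) : pair a b < pair c d :=
  pair_lt_of_add_lt (add_lt_add_of_le_of_lt h1 h2)

end Pool.Agent.MP75f14d
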