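import Mathlib

/-! The ordered ring of differences of an ordered semiring. -/

namespace Pool.Agent.MP75f14d

namespace DiffX

open Algebra Algebra.GrothendieckAddGroup

variable {M : Type} [CommSemiring M]

theorem lift_of {G : Type} [AddCommGroup G] (f : M →+ G) (a : M) : lift f (of a) = f a :=
  DFunLike.congr_fun (lift.symm_apply_apply f) a

theorem ext_of {G : Type} [AddCommGroup G] {f g : GrothendieckAddGroup M →+ G}
    (h : ∀ a, f (of a) = g (of a)) : f = g :=
  lift.symm.injective (AddMonoidHom.ext h)

/-- The product of differences. -/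
noncomputable def mu : GrothendieckAddGroup M →+ GrothendieckAddGroup M →+ GrothendieckAddGroup M :=
  lift
    { toFun := fun a => lift (of.comp (AddMonoidHom.mulLeft a))
      map_zero' := ext_of fun b => by rw [lift_of]; simp
      map_add' := fun a a' => ext_of fun b => by
        rw [AddMonoidHom.add_apply, lift_of, lift_of, lift_of]
        simp only [AddMonoidHom.comp_apply, AddMonoidHom.coe_mulLeft, add_mul, map_add] }

theorem mu_of (a b : M) : mu (of a) (of b) = of (a * b) := by
  rw [mu, lift_of]
  exact lift_of _ _

theorem of_eq (a : M) : of a = AddLocalization.mk a (0 : (⊤ : AddSubmonoid M)) :=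
  (AddLocalization.mk_zero_eq_addMonoidOf_mk a).symm

theorem exists_sub (x : GrothendieckAddGroup M) : ∃ a b : M, x = of a - of b := by
  induction x using AddLocalization.ind with
  | _ p => exact ⟨p.1, p.2, by rw [of_eq, of_eq, mk_sub_mk]; simp⟩

/-- The ring of differences. -/
@[reducible] noncomputable def ring (M : Type) [CommSemiring M] :
    CommRing (GrothendieckAddGroup M) :=
  { (inferInstance : AddCommGroup (GrothendieckAddGroup M)) with
    mul := fun x y => mu x y
    one := of 1
    left_distrib := fun x y z => map_add (mu x) y z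
    right_distrib := fun x y z => by
      change mu (x + y) z = mu x z + mu y z
      rw [map_add, AddMonoidHom.add_apply]
    zero_mul := fun x => by
      change mu 0 x = 0
      rw [map_zero, AddMonoidHom.zero_apply]
    mul_zero := fun x => map_zero (mu x)
    mul_assoc := fun x y z => by
      change mu (mu x y) z = mu x (mu y z)
      obtain ⟨a, a', rfl⟩ := exists_sub x
      obtain ⟨b, b', rfl⟩ := exists_sub y
      obtain ⟨c, c', rfl⟩ := exists_sub z
      simp only [map_sub, AddMonoidHom.sub_apply, mu_of, mul_assoc]
    one_mul := fun x => by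
      change mu (of 1) x = x
      obtain ⟨a, a', rfl⟩ := exists_sub x
      simp only [map_sub, mu_of, one_mul]
    mul_one := fun x => by
      change mu x (of 1) = x
      obtain ⟨a, a', rfl⟩ := exists_sub x
      simp only [map_sub, AddMonoidHom.sub_apply, mu_of, mul_one]
    mul_comm := fun x y => by
      change mu x y = mu y x
      obtain ⟨a, a', rfl⟩ := exists_sub x
      obtain ⟨b, b', rfl⟩ := exists_sub y
      simp only [map_sub, AddMonoidHom.sub_apply, mu_of, mul_comm]
      abel }

variable [LinearOrder M] [IsStrictOrderedRing M]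

theorem of_le (a b : M) : of a ≤ of b ↔ a ≤ b := by
  rw [of_eq, of_eq, AddLocalization.mk_le_mk]; simp

theorem of_lt (a b : M) : of a < of b ↔ a < b := by
  rw [lt_iff_not_ge, lt_iff_not_ge, of_le]

theorem exists_pos [CanonicallyOrderedAdd M] {x : GrothendieckAddGroup M} (h : 0 < x) :
    ∃ a : M, 0 < a ∧ x = of a := by
  obtain ⟨a, b, rfl⟩ := exists_sub x
  rw [sub_pos, of_lt] at h
  obtain ⟨c, rfl⟩ := exists_add_of_le h.le
  exact ⟨c, by simpa using h, by rw [map_add, add_sub_cancel_left]⟩

end DiffX

open Algebra Algebra.GrothendieckAddGroup DiffX in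
theorem exists_ring (M : Type) [CommSemiring M] [LinearOrder M] [IsStrictOrderedRing M]
    [CanonicallyOrderedAdd M] :
    ∃ (R : Type) (_ : CommRing R) (_ : LinearOrder R) (_ : IsStrictOrderedRing R) (i : M →+* R),
      ∀ a b, i a ≤ i b ↔ a ≤ b := by
  let := DiffX.ring M
  have h01 : (0 : GrothendieckAddGroup M) < 1 := by
    have := (of_lt (0 : M) 1).2 zero_lt_one
    rwa [map_zero] at this
  have : ZeroLEOneClass (GrothendieckAddGroup M) := ⟨h01.le⟩
  have : Nontrivial (GrothendieckAddGroup M) := ⟨⟨0, 1, h01.ne⟩⟩
  refine ⟨GrothendieckAddGroup M, inferInstance, inferInstance,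
    IsStrictOrderedRing.of_mul_pos fun x y hx hy => ?_,
    { toFun := fun a => of a
      map_one' := rfl
      map_mul' := fun a b => (mu_of a b).symm
      map_zero' := map_zero of
      map_add' := map_add of }, of_le⟩
  obtain ⟨a, ha, rfl⟩ := exists_pos hx
  obtain ⟨b, hb, rfl⟩ := exists_pos hy
  have := (of_lt (0 : M) (a * b)).2 (mul_pos ha hb)
  rwa [map_zero, ← mu_of] at this

end Pool.Agent.MP75f14d
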