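import Pool.Agent.MP_75f14d_lc.MkStr
import Pool.Agent.MP_75f14d_lc.Diff

/-! The number part of a model of RCA0 is a discretely ordered semiring. -/

namespace Pool.Agent.MP75f14d

namespace ArOfX

variable {A : Str} (hA : A.Models RCA0) (w : ℕ → A.S)
include hA w

theorem ind (g : Fm) (hg : Bounded g) (v : ℕ → A.N) {P : A.N → Prop}
    (hP : ∀ a, P a ↔ ∃ z, A.Sat g (cons z (cons a v)) w) (h0 : P A.zero)
    (hs : ∀ a, P a → P (A.add a A.one)) (a : A.N) : P a := by
  have := (A.sat_indAx g.exN v w).1 (hA _ (Or.inl (Or.inr ⟨_, ⟨g, hg, rfl⟩, rfl⟩)) v w)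
  simp only [Str.sat_exN, ← hP] at this
  exact this ⟨h0, hs⟩ a

theorem ind_eq (t u : Tm) (b c : A.N)
    (h0 : A.val (cons A.zero (cons b fun _ => c)) t = A.val (cons A.zero (cons b fun _ => c)) u)
    (hs : ∀ a, A.val (cons a (cons b fun _ => c)) t = A.val (cons a (cons b fun _ => c)) u →
      A.val (cons (A.add a A.one) (cons b fun _ => c)) t =
        A.val (cons (A.add a A.one) (cons b fun _ => c)) u) (a : A.N) :
    A.val (cons a (cons b fun _ => c)) t = A.val (cons a (cons b fun _ => c)) u :=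
  ind hA w (.eq t.up u.up) (.eq _ _) (cons b fun _ => c)
    (P := fun a => A.val (cons a (cons b fun _ => c)) t = A.val (cons a (cons b fun _ => c)) u)
    (fun a => by simp only [Str.Sat, Str.val_up]; exact ⟨fun h => ⟨a, h⟩, fun ⟨_, h⟩ => h⟩)
    h0 hs a

theorem basic {f : Fm} (hf : f ∈ basicAx) (a b : A.N) : A.Sat f (cons a fun _ => b) w :=
  hA _ (Or.inl (Or.inl hf)) _ _

theorem s_ne (a : A.N) : A.add a A.one ≠ A.zero :=
  basic hA w (Or.inl rfl) a a

theorem s_inj {a b : A.N} : A.add a A.one = A.add b A.one → a = b :=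
  basic hA w (Or.inr (Or.inl rfl)) a b

theorem a0 (a : A.N) : A.add a A.zero = a :=
  basic hA w (Or.inr (Or.inr (Or.inl rfl))) a a

theorem aS (a b : A.N) : A.add a (A.add b A.one) = A.add (A.add a b) A.one :=
  basic hA w (Or.inr (Or.inr (Or.inr (Or.inl rfl)))) a b

theorem m0 (a : A.N) : A.mul a A.zero = A.zero :=
  basic hA w (Or.inr (Or.inr (Or.inr (Or.inr (Or.inl rfl))))) a a

theorem mS (a b : A.N) : A.mul a (A.add b A.one) = A.add (A.mul a b) a :=
  basic hA w (Or.inr (Or.inr (Or.inr (Or.inr (Or.inr (Or.inl rfl)))))) a b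

theorem l0 (a : A.N) : ¬ A.lt a A.zero :=
  basic hA w (Or.inr (Or.inr (Or.inr (Or.inr (Or.inr (Or.inr (Or.inl rfl))))))) a a

theorem lS (a b : A.N) : A.lt a (A.add b A.one) ↔ A.lt a b ∨ a = b := by
  have := basic hA w (Or.inr (Or.inr (Or.inr (Or.inr (Or.inr (Or.inr (Or.inr rfl))))))) a b
  rw [Str.sat_iff, Str.sat_or] at this
  exact this

theorem za (a : A.N) : A.add A.zero a = a :=
  ind_eq hA w (.add .zero (.var 0)) (.var 0) a a (a0 hA w _)
    (fun x (h : A.add A.zero x = x) =>
      show A.add A.zero (A.add x A.one) = A.add x A.one by rw [aS hA w, h]) a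

theorem sa (a b : A.N) : A.add (A.add a A.one) b = A.add (A.add a b) A.one :=
  ind_eq hA w (.add (.add (.var 1) .one) (.var 0)) (.add (.add (.var 1) (.var 0)) .one) a a
    (show A.add (A.add a A.one) A.zero = A.add (A.add a A.zero) A.one by
      rw [a0 hA w, a0 hA w])
    (fun x (h : A.add (A.add a A.one) x = A.add (A.add a x) A.one) =>
      show A.add (A.add a A.one) (A.add x A.one) = A.add (A.add a (A.add x A.one)) A.one by
        rw [aS hA w, h, aS hA w a x]) b

theorem ac (a b : A.N) : A.add a b = A.add b a :=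
  ind_eq hA w (.add (.var 1) (.var 0)) (.add (.var 0) (.var 1)) a a
    (show A.add a A.zero = A.add A.zero a by rw [a0 hA w, za hA w])
    (fun x (h : A.add a x = A.add x a) =>
      show A.add a (A.add x A.one) = A.add (A.add x A.one) a by
        rw [aS hA w, h, sa hA w x a]) b

theorem aa (a b c : A.N) : A.add (A.add a b) c = A.add a (A.add b c) :=
  ind_eq hA w (.add (.add (.var 1) (.var 2)) (.var 0)) (.add (.var 1) (.add (.var 2) (.var 0))) a b
    (show A.add (A.add a b) A.zero = A.add a (A.add b A.zero) by rw [a0 hA w, a0 hA w])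
    (fun x (h : A.add (A.add a b) x = A.add a (A.add b x)) =>
      show A.add (A.add a b) (A.add x A.one) = A.add a (A.add b (A.add x A.one)) by
        rw [aS hA w, h, aS hA w b x, aS hA w a]) c

theorem zm (a : A.N) : A.mul A.zero a = A.zero :=
  ind_eq hA w (.mul .zero (.var 0)) .zero a a (m0 hA w _)
    (fun x (h : A.mul A.zero x = A.zero) =>
      show A.mul A.zero (A.add x A.one) = A.zero by rw [mS hA w, h, a0 hA w]) a

theorem m1 (a : A.N) : A.mul a A.one = a := by
  have := mS hA w a A.zero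
  rwa [za hA w, m0 hA w, za hA w] at this

theorem ld (a b c : A.N) : A.mul a (A.add b c) = A.add (A.mul a b) (A.mul a c) :=
  ind_eq hA w (.mul (.var 1) (.add (.var 2) (.var 0)))
    (.add (.mul (.var 1) (.var 2)) (.mul (.var 1) (.var 0))) a b
    (show A.mul a (A.add b A.zero) = A.add (A.mul a b) (A.mul a A.zero) by
      rw [a0 hA w, m0 hA w, a0 hA w])
    (fun x (h : A.mul a (A.add b x) = A.add (A.mul a b) (A.mul a x)) =>
      show A.mul a (A.add b (A.add x A.one)) = A.add (A.mul a b) (A.mul a (A.add x A.one)) by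
        rw [aS hA w, mS hA w, h, mS hA w, aa hA w]) c

theorem sm (a b : A.N) : A.mul (A.add a A.one) b = A.add (A.mul a b) b :=
  ind_eq hA w (.mul (.add (.var 1) .one) (.var 0)) (.add (.mul (.var 1) (.var 0)) (.var 0)) a a
    (show A.mul (A.add a A.one) A.zero = A.add (A.mul a A.zero) A.zero by
      rw [m0 hA w, m0 hA w, a0 hA w])
    (fun x (h : A.mul (A.add a A.one) x = A.add (A.mul a x) x) =>
      show A.mul (A.add a A.one) (A.add x A.one) =
          A.add (A.mul a (A.add x A.one)) (A.add x A.one) by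
        rw [mS hA w, h, mS hA w, aS hA w, aS hA w, aa hA w _ x a, aa hA w _ a x, ac hA w x a]) b

theorem mc (a b : A.N) : A.mul a b = A.mul b a :=
  ind_eq hA w (.mul (.var 1) (.var 0)) (.mul (.var 0) (.var 1)) a a
    (show A.mul a A.zero = A.mul A.zero a by rw [m0 hA w, zm hA w])
    (fun x (h : A.mul a x = A.mul x a) =>
      show A.mul a (A.add x A.one) = A.mul (A.add x A.one) a by
        rw [mS hA w, h, sm hA w x a]) b

theorem ma (a b c : A.N) : A.mul (A.mul a b) c = A.mul a (A.mul b c) :=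
  ind_eq hA w (.mul (.mul (.var 1) (.var 2)) (.var 0)) (.mul (.var 1) (.mul (.var 2) (.var 0))) a b
    (show A.mul (A.mul a b) A.zero = A.mul a (A.mul b A.zero) by
      rw [m0 hA w, m0 hA w, m0 hA w])
    (fun x (h : A.mul (A.mul a b) x = A.mul a (A.mul b x)) =>
      show A.mul (A.mul a b) (A.add x A.one) = A.mul a (A.mul b (A.add x A.one)) by
        rw [mS hA w, h, mS hA w b x, ld hA w]) c

theorem cancel {a b c : A.N} : A.add a c = A.add b c → a = b :=
  ind hA w ((Fm.eq (.add (.var 2) (.var 1)) (.add (.var 3) (.var 1))).imp (.eq (.var 2) (.var 3)))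
    (.imp (.eq _ _) (.eq _ _)) (cons a fun _ => b) (P := fun c => A.add a c = A.add b c → a = b)
    (fun x => ⟨fun h => ⟨x, h⟩, fun ⟨_, h⟩ => h⟩)
    (fun h => by rwa [a0 hA w, a0 hA w] at h)
    (fun x ih h => ih (s_inj hA w (by rwa [aS hA w, aS hA w] at h))) c

theorem zs (a : A.N) : ∃ b, a ≠ A.zero → a = A.add b A.one :=
  ind hA w ((Fm.eq (.var 1) .zero).neg.imp (.eq (.var 1) (.add (.var 0) .one)))
    (.imp (.imp (.eq _ _) .bot) (.eq _ _)) (fun _ => a)
    (P := fun a => ∃ b, a ≠ A.zero → a = A.add b A.one) (fun _ => Iff.rfl)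
    ⟨a, fun h => absurd rfl h⟩ (fun x _ => ⟨x, fun _ => rfl⟩) a

theorem lt_iff (a b : A.N) : A.lt a b ↔ ∃ z, b = A.add (A.add a z) A.one := by
  constructor
  · intro h
    have := ind hA w ((Fm.lt (.var 2) (.var 1)).imp
        (.eq (.var 1) (.add (.add (.var 2) (.var 0)) .one))) (.imp (.lt _ _) (.eq _ _))
      (fun _ => a) (P := fun b => ∃ z, A.lt a b → b = A.add (A.add a z) A.one) (fun _ => Iff.rfl)
      ⟨a, fun h => absurd h (l0 hA w a)⟩ (fun x ⟨z, hz⟩ => by
        by_cases e : a = x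
        · exact ⟨A.zero, fun _ => by rw [a0 hA w, e]⟩
        · exact ⟨A.add z A.one, fun h => by
            rw [aS hA w, ← hz (((lS hA w _ _).1 h).resolve_right e)]⟩) b
    exact this.imp fun _ hz => hz h
  · rintro ⟨z, rfl⟩
    exact ind hA w (.lt (.var 2) (.add (.add (.var 2) (.var 1)) .one)) (.lt _ _) (fun _ => a)
      (P := fun z => A.lt a (A.add (A.add a z) A.one))
      (fun x => ⟨fun h => ⟨x, h⟩, fun ⟨_, h⟩ => h⟩)
      ((lS hA w _ _).2 (Or.inr (a0 hA w a).symm))
      (fun x h => (lS hA w _ _).2 (Or.inl (by rwa [aS hA w]))) z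

theorem tot (a b : A.N) : ∃ z, b ≠ A.add a z → a = A.add b z :=
  ind hA w ((Fm.eq (.var 2) (.add (.var 1) (.var 0))).neg.imp
      (.eq (.var 1) (.add (.var 2) (.var 0)))) (.imp (.imp (.eq _ _) .bot) (.eq _ _))
    (fun _ => b) (P := fun a => ∃ z, b ≠ A.add a z → a = A.add b z) (fun _ => Iff.rfl)
    ⟨b, fun h => absurd (za hA w b).symm h⟩ (fun x ⟨z, hz⟩ => by
      by_cases e : b = A.add x z
      · obtain ⟨y, hy⟩ := zs hA w z
        by_cases e0 : z = A.zero
        · exact ⟨A.one, fun _ => by rw [e, e0, a0 hA w]⟩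
        · exact ⟨y, fun h => absurd (by rw [e, sa hA w, ← aS hA w, ← hy e0]) h⟩
      · exact ⟨A.add z A.one, fun _ => by rw [aS hA w, ← hz e]⟩) a

/-- The semiring of numbers. -/
@[reducible] def csr : CommSemiring A.N where
  add := A.add
  zero := A.zero
  mul := A.mul
  one := A.one
  add_assoc := aa hA w
  zero_add := za hA w
  add_zero := a0 hA w
  nsmul := @nsmulRec _ ⟨A.zero⟩ ⟨A.add⟩
  add_comm := ac hA w
  left_distrib := ld hA w
  right_distrib a b c := (mc hA w _ _).trans ((ld hA w _ _ _).trans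
    (congrArg₂ A.add (mc hA w _ _) (mc hA w _ _)))
  zero_mul := zm hA w
  mul_zero := m0 hA w
  mul_assoc := ma hA w
  one_mul a := (mc hA w _ _).trans (m1 hA w a)
  mul_one := m1 hA w
  mul_comm := mc hA w

end ArOfX

open ArOfX in
theorem exists_ar (A : Str) (hA : A.Models RCA0) (w : ℕ → A.S) :
    ∃ _ : Ar A.N, A = mkStr A.N A.S A.mem := by
  classical
  let cs := csr hA w
  have sne : ∀ a : A.N, a + 1 ≠ 0 := s_ne hA w
  have can : ∀ {a b c : A.N}, c + a = c + b → a = b := fun {a b c} h =>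
    cancel hA w (c := c) ((add_comm a c).trans (h.trans (add_comm c b)))
  have zs' : ∀ a : A.N, a = 0 ∨ ∃ b, a = b + 1 := fun a =>
    or_iff_not_imp_left.2 fun h => (zs hA w a).imp fun _ hb => hb h
  have lti : ∀ a b : A.N, A.lt a b ↔ ∃ z, b = a + z + 1 := lt_iff hA w
  let lo : LinearOrder A.N :=
    { le := fun a b => ∃ c, b = a + c
      lt := A.lt
      le_refl := fun a => ⟨0, (add_zero a).symm⟩
      le_trans := fun a b c ⟨x, hx⟩ ⟨y, hy⟩ => ⟨x + y, by rw [hy, hx, add_assoc]⟩
      lt_iff_le_not_ge := fun a b => by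
        rw [lti]
        constructor
        · rintro ⟨z, rfl⟩
          refine ⟨⟨z + 1, add_assoc _ _ _⟩, fun ⟨c, hc⟩ => sne (z + c) (can (c := a) ?_)⟩
          rw [add_zero]; conv_rhs => rw [hc]
          ring
        · rintro ⟨⟨c, rfl⟩, h⟩
          rcases zs' c with rfl | ⟨y, rfl⟩
          · exact absurd ⟨0, by rw [add_zero, add_zero]⟩ h
          · exact ⟨y, (add_assoc _ _ _).symm⟩
      le_antisymm := fun a b ⟨x, hx⟩ ⟨y, hy⟩ => by
        rcases zs' x with rfl | ⟨z, rfl⟩
        · rw [hx, add_zero]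
        · refine absurd (can (c := a) ?_) (sne (z + y))
          rw [add_zero]; conv_rhs => rw [hy, hx]
          ring
      le_total := fun a b => by
        obtain ⟨z, hz⟩ := tot hA w a b
        by_cases e : b = A.add a z
        · exact Or.inl ⟨z, e⟩
        · exact Or.inr ⟨z, hz e⟩
      toDecidableLE := fun _ _ => Classical.propDecidable _ }
  have mlt : ∀ a b c : A.N, 0 < a → b < c → a * b < a * c := fun a b c ha h => by
    obtain ⟨y, rfl⟩ := (lti _ _).1 ha
    obtain ⟨z, rfl⟩ := (lti _ _).1 h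
    exact (lti _ _).2 ⟨(y + 1) * z + y, by ring⟩
  have sor : IsStrictOrderedRing A.N :=
    { add_le_add_left := fun a b ⟨x, hx⟩ c => ⟨x, by rw [hx]; ring⟩
      le_of_add_le_add_left := fun a b c ⟨x, hx⟩ => ⟨x, can (hx.trans (add_assoc _ _ _))⟩
      zero_le_one := ⟨1, (zero_add 1).symm⟩
      exists_pair_ne := ⟨0 + 1, 0, sne 0⟩
      mul_lt_mul_of_pos_left := fun a ha b c h => mlt a b c ha h
      mul_lt_mul_of_pos_right := fun a ha b c h => by
        rw [mul_comm b, mul_comm c]; exact mlt a b c ha h }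
  have coa : CanonicallyOrderedAdd A.N :=
    { exists_add_of_le := fun h => h
      le_add_self := fun a b => ⟨b, add_comm _ _⟩
      le_self_add := fun a b => ⟨b, rfl⟩ }
  obtain ⟨R, r, o, ro, i, hi⟩ := exists_ring A.N
  exact ⟨{ cs, lo with
    sor := sor
    can := coa
    disc := fun a b h => ((lti a b).1 h).imp fun z hz => by rw [hz]; ring
    R := R
    ring := r
    ord := o
    rsor := ro
    io := i
    io_le := hi }, rfl⟩

end Pool.Agent.MP75f14d
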