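import Pool.Agent.MP_75f14d_lc.MkStr

/-! The recursive sets of a class with Sigma1 induction and Sigma2 collection form a model. -/

namespace Pool.Agent.MP75f14d

variable {M : Type} [Ar M]

namespace BackX

theorem fn_cons {C : Cls M} {α : Type} [Cd M α] {f : α → M} {nu : α → ℕ → M} (hf : Fn C f)
    (h : ∀ i, Fn C fun a => nu a i) : ∀ i, Fn C fun a => cons (f a) (nu a) i := by
  intro i
  cases i with
  | zero => exact hf
  | succ i => exact h i

theorem fn_val {C : Cls M} {α : Type} [Cd M α] {nu : α → ℕ → M}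
    (h : ∀ i, Fn C fun a => nu a i) (t : Tm) :
    Fn C fun a => (show M from (strOf C).val (nu a) t) := by
  induction t with
  | var n => exact h n
  | zero => exact Fn.const (0 : M)
  | one => exact Fn.const (1 : M)
  | add t u iht ihu => exact iht.add ihu
  | mul t u iht ihu => exact iht.mul ihu

theorem fn_sat {C : Cls M} (w : ℕ → DSet C) {g : Fm} (hg : Bounded g) :
    ∀ {α : Type} [Cd M α] {nu : α → ℕ → M}, (∀ i, Fn C fun a => nu a i) →
      Fn C fun a => (strOf C).Sat g (nu a) w := by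
  induction hg with
  | eq t u => intro α _ nu h; exact (fn_val h t).eq (fn_val h u)
  | lt t u => intro α _ nu h; exact (fn_val h t).lt (fn_val h u)
  | mem t k => intro α _ nu h; exact (w k).2.comp (fn_val h t)
  | bot => intro α _ nu h; exact Fn.const False
  | imp _ _ ihf ihg => intro α _ nu h; exact (ihf h).imp (ihg h)
  | @ball t f _ ih =>
    intro α _ nu h
    have h' : ∀ i, Fn C fun p : α × M => cons p.2 (nu p.1) i :=
      fn_cons Fn.snd0 fun i => (h i).comp Fn.fst0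
    exact (Fn.ball (P := fun a y => (strOf C).Sat f (cons y (nu a)) w) (fn_val h t)
      (ih h')).congr_iff fun a => (strOf C).sat_ball f (nu a) w t

theorem sig_ex {C : Cls M} (w : ℕ → DSet C) {g : Fm} (hg : Bounded g)
    {α : Type} [Cd M α] {nu : α → ℕ → M} (h : ∀ i, Fn C fun a => nu a i) :
    Sig C fun a => ∃ y : M, (strOf C).Sat g (cons y (nu a)) w :=
  Sig.ex (P := fun a (y : M) => (strOf C).Sat g (cons y (nu a)) w)
    (fn_sat w hg (nu := fun p : α × M => cons p.2 (nu p.1))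
      (fn_cons Fn.snd0 fun i => (h i).comp Fn.fst0)).sig

theorem sig_ex_not {C : Cls M} (w : ℕ → DSet C) {g : Fm} (hg : Bounded g)
    {α : Type} [Cd M α] {nu : α → ℕ → M} (h : ∀ i, Fn C fun a => nu a i) :
    Sig C fun a => ∃ y : M, ¬ (strOf C).Sat g (cons y (nu a)) w :=
  Sig.ex (P := fun a (y : M) => ¬ (strOf C).Sat g (cons y (nu a)) w)
    (fn_sat w hg (nu := fun p : α × M => cons p.2 (nu p.1))
      (fn_cons Fn.snd0 fun i => (h i).comp Fn.fst0)).sig_not

theorem sig_sigma01 {C : Cls M} (w : ℕ → DSet C) {f : Fm} (hf : Sigma01 f) (v : ℕ → M) :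
    Sig C fun a : M => (strOf C).Sat f (cons a v) w := by
  obtain ⟨g, hg, rfl⟩ := hf
  exact (sig_ex w hg (nu := fun a : M => cons a v)
    (fn_cons Fn.id' fun i => Fn.const (v i))).congr fun a => (strOf C).sat_exN g _ w

theorem sig_not_pi01 {C : Cls M} (w : ℕ → DSet C) {f : Fm} (hf : Pi01 f) (v : ℕ → M) :
    Sig C fun a : M => ¬ (strOf C).Sat f (cons a v) w := by
  obtain ⟨g, hg, rfl⟩ := hf
  exact (sig_ex_not w hg (nu := fun a : M => cons a v)
    (fn_cons Fn.id' fun i => Fn.const (v i))).congr fun a => not_forall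

theorem basic (C : Cls M) {f : Fm} (hf : f ∈ basicAx) (v : ℕ → M) (w : ℕ → DSet C) :
    (strOf C).Sat f v w := by
  simp only [basicAx, Set.mem_insert_iff, Set.mem_singleton_iff] at hf
  rcases hf with rfl | rfl | rfl | rfl | rfl | rfl | rfl | rfl
  · show ¬ (v 0 + 1 = 0)
    exact (lt_of_lt_of_le zero_lt_one le_add_self).ne'
  · show v 0 + 1 = v 1 + 1 → v 0 = v 1
    exact add_right_cancel
  · show v 0 + 0 = v 0
    exact add_zero _
  · show v 0 + (v 1 + 1) = v 0 + v 1 + 1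
    exact (add_assoc _ _ _).symm
  · show v 0 * 0 = 0
    exact mul_zero _
  · show v 0 * (v 1 + 1) = v 0 * v 1 + v 0
    exact mul_add_one _ _
  · show ¬ (v 0 < 0)
    exact not_lt_zero _
  · rw [Str.sat_iff, Str.sat_or]
    exact lt_succ_iff_lt_or_eq

theorem fstM_le (p : M) : fstM p ≤ p + 1 := mu_le _ _

theorem bnd (C : Cls M) [Coll2 C] {f : Fm} (hf : Sigma02 f) (v : ℕ → M) (w : ℕ → DSet C) :
    (strOf C).Sat (bndAx f) v w := by
  obtain ⟨g, hg, rfl⟩ := hf
  rw [Str.sat_bndAx]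
  intro h
  have hS : Sig C fun p : M × M => ∃ u : M,
      ¬ (strOf C).Sat g (cons u (cons (sndM p.2) (cons (fstM p.2) (cons p.1 v)))) w :=
    sig_ex_not w hg (nu := fun p : M × M => cons (sndM p.2) (cons (fstM p.2) (cons p.1 v)))
      (fn_cons Fn.snd0.sndM (fn_cons Fn.snd0.fstM (fn_cons Fn.fst0 fun i => Fn.const (v i))))
  obtain ⟨b, hb⟩ := Sig.coll2 (C := C) (P := fun x p : M => ∃ u : M,
      ¬ (strOf C).Sat g (cons u (cons (sndM p) (cons (fstM p) (cons x v)))) w) hS (a := v 0)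
    (fun x hx => by
      obtain ⟨y, hy⟩ := h x hx
      obtain ⟨z, hz⟩ := ((strOf C).sat_exN _ _ _).1 hy
      refine ⟨pair y z, ?_⟩
      rw [fstM_pair, sndM_pair]
      rintro ⟨u, hu⟩
      exact hu (hz u))
  refine ⟨b + 1, fun x hx => ?_⟩
  obtain ⟨p, hp, hp'⟩ := hb x hx
  refine ⟨fstM p, lt_succ_iff.2 (le_trans (fstM_le p) (lt_iff_succ_le.1 hp)), ?_⟩
  refine ((strOf C).sat_exN _ _ _).2 ⟨sndM p, fun u => ?_⟩
  by_contra hu
  exact hp' ⟨u, hu⟩

end BackX

open BackX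

theorem strOf_models (C : Cls M) [SInd C] [Coll2 C] : (strOf C).Models (RCA0 ∪ BSigma02) := by
  rintro f (((hf | ⟨f, hf, rfl⟩) | ⟨f, g, hf, hg, rfl⟩) | ⟨f, hf, rfl⟩) v w
  · exact basic C hf v w
  · rw [Str.sat_indAx]
    rintro ⟨h0, hs⟩
    exact Sig.ind (C := C) (sig_sigma01 w hf v) h0 hs
  · rw [Str.sat_compAx]
    intro h
    refine ⟨⟨{a | (strOf C).Sat f (cons a v) w}, Fn.of_sig (sig_sigma01 w hf v) ?_⟩,
      fun a => Iff.rfl⟩
    exact (sig_not_pi01 w hg v).congr fun a => not_congr (h a)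
  · exact bnd C hf v w

theorem strOf_homFm (C : Cls M) (h : RTC C) (v : ℕ → M) (w : ℕ → DSet C) :
    (strOf C).Sat homFm v w := by
  obtain ⟨H, hH, hinf, j, hj⟩ := h (w 0).1 (w 0).2
  rw [homFm, Str.sat_exS]
  refine ⟨⟨H, hH⟩, ?_⟩
  rw [Str.sat_and, Str.sat_or]
  refine ⟨fun x => ?_, ?_⟩
  · obtain ⟨y, hy, hy'⟩ := hinf x
    rw [Str.sat_exN]
    refine ⟨y, ?_⟩
    rw [Str.sat_and]
    exact ⟨hy, hy'⟩
  · by_cases hjj : j
    · exact Or.inl fun x y hx hy hxy => (hj x hx y hy hxy).2 hjj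
    · exact Or.inr fun x y hx hy hxy hp => hjj ((hj x hx y hy hxy).1 hp)

end Pool.Agent.MP75f14d
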