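import Pool.Agent.MP_75f14d_lc.Ar

/-! Abstract classes of `r.e.` subsets of `M`, with a calculus of recursive functions (`Fn`,
automated by `fun_prop`) and of r.e. predicates (`Sig`). -/

namespace Pool.Agent.MP75f14d

open Classical

/-- A family of subsets of `M` with the closure properties of the Sigma1-definable sets. -/
structure Cls (M : Type) [Ar M] where
  sets : Set (Set M)
  inter : ∀ {W V}, W ∈ sets → V ∈ sets → W ∩ V ∈ sets
  union : ∀ {W V}, W ∈ sets → V ∈ sets → W ∪ V ∈ sets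
  ex : ∀ {W}, W ∈ sets → {x | ∃ y, pair x y ∈ W} ∈ sets
  ball : ∀ {W}, W ∈ sets → {p | ∃ x b, p = pair x b ∧ ∀ y < b, pair x y ∈ W} ∈ sets
  cyl : ∀ {W}, W ∈ sets → {p | ∃ x y, p = pair x y ∧ x ∈ W} ∈ sets
  swap : ∀ {W}, W ∈ sets → {p | ∃ x y, p = pair y x ∧ pair x y ∈ W} ∈ sets
  swap23 : ∀ {W}, W ∈ sets →
    {p | ∃ x y z, p = pair (pair x z) y ∧ pair (pair x y) z ∈ W} ∈ sets
  assoc : ∀ {W}, W ∈ sets →
    {p | ∃ x y z, p = pair (pair x y) z ∧ pair x (pair y z) ∈ W} ∈ sets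
  univ : Set.univ ∈ sets
  diag : {p | ∃ x, p = pair x x} ∈ sets
  sing : ∀ c, {c} ∈ sets
  add : {p | ∃ x y, p = pair (pair x y) (x + y)} ∈ sets
  mul : {p | ∃ x y, p = pair (pair x y) (x * y)} ∈ sets
  lt : {p | ∃ x y, p = pair x y ∧ x < y} ∈ sets

variable {M : Type} [Ar M]

/-- Types coded in `M`. -/
class Cd (M : Type) [Ar M] (α : Type) where
  enc : α → M
  inj : Function.Injective enc
  rng : ∀ C : Cls M, Set.range enc ∈ C.sets

/-- The code of `a` in `M`. -/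
def enc (M : Type) [Ar M] {α : Type} [Cd M α] (a : α) : M := Cd.enc a

theorem enc_inj {α : Type} [Cd M α] {a b : α} (h : enc M a = enc M b) : a = b := Cd.inj h

@[simp] theorem enc_eq_iff {α : Type} [Cd M α] {a b : α} : enc M a = enc M b ↔ a = b :=
  ⟨enc_inj, fun h => by rw [h]⟩

theorem Cls.congr (C : Cls M) {W V : Set M} (h : W ∈ C.sets) (e : ∀ x, x ∈ V ↔ x ∈ W) :
    V ∈ C.sets := by
  rwa [Set.ext e]

theorem rng_mem (C : Cls M) (α : Type) [Cd M α] : {x | ∃ a : α, x = enc M a} ∈ C.sets :=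
  C.congr (Cd.rng (α := α) C) fun _ => ⟨fun ⟨a, h⟩ => ⟨a, h.symm⟩, fun ⟨a, h⟩ => ⟨a, h.symm⟩⟩

instance cdM : Cd M M where
  enc := id
  inj := Function.injective_id
  rng C := by simpa using C.univ

@[simp] theorem enc_M (a : M) : enc M a = a := rfl

instance cdProd {α β : Type} [Cd M α] [Cd M β] : Cd M (α × β) where
  enc p := pair (enc M p.1) (enc M p.2)
  inj := by
    rintro ⟨a, b⟩ ⟨c, d⟩ h
    obtain ⟨h1, h2⟩ := pair_inj h
    exact Prod.ext (enc_inj h1) (enc_inj h2)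
  rng C := by
    refine C.congr (C.inter (C.cyl (rng_mem C α)) (C.swap (C.cyl (rng_mem C β)))) fun p => ?_
    constructor
    · rintro ⟨⟨a, b⟩, rfl⟩
      exact ⟨⟨_, _, rfl, a, rfl⟩, _, _, rfl, _, _, rfl, b, rfl⟩
    · rintro ⟨⟨x, y, rfl, a, rfl⟩, x', y', h, x'', y'', h', b, rfl⟩
      obtain ⟨rfl, rfl⟩ := pair_inj h
      obtain ⟨rfl, rfl⟩ := pair_inj h'
      exact ⟨(a, b), rfl⟩

@[simp] theorem enc_prod {α β : Type} [Cd M α] [Cd M β] (p : α × β) :
    enc M p = pair (enc M p.1) (enc M p.2) := rfl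

noncomputable instance cdProp : Cd M Prop where
  enc p := if p then 1 else 0
  inj := by
    intro p q h
    by_cases hp : p <;> by_cases hq : q <;> simp_all
  rng C := by
    refine C.congr (C.union (C.sing 1) (C.sing 0)) fun x => ?_
    constructor
    · rintro ⟨p, rfl⟩
      by_cases hp : p <;> simp [hp]
    · rintro (rfl | rfl)
      · exact ⟨True, by simp⟩
      · exact ⟨False, by simp⟩

/-- The predicate `P` is r.e. in the class `C`. -/
def Sig (C : Cls M) {α : Type} [Cd M α] (P : α → Prop) : Prop :=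
  {x | ∃ a, x = enc M a ∧ P a} ∈ C.sets

/-- The function `f` is recursive in the class `C` (for `β = Prop`: the predicate is decidable). -/
@[fun_prop] def Fn (C : Cls M) {α β : Type} [Cd M α] [Cd M β] (f : α → β) : Prop :=
  Sig C fun p : α × β => f p.1 = p.2

variable {C : Cls M} {α β γ : Type} [Cd M α] [Cd M β] [Cd M γ]

theorem sig_iff_mem {W : Set M} : Sig C (fun x : M => x ∈ W) ↔ W ∈ C.sets := by
  have : {x | ∃ a : M, x = enc M a ∧ a ∈ W} = W := by ext; simp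
  rw [Sig, this]

namespace Sig

theorem congr {P Q : α → Prop} (h : Sig C P) (e : ∀ a, Q a ↔ P a) : Sig C Q := by
  rwa [show Q = P from funext fun a => propext (e a)]

theorem mem_sets {P : M → Prop} (h : Sig C P) : {x | P x} ∈ C.sets := sig_iff_mem.1 h

theorem top : Sig C fun _ : α => True := C.congr (rng_mem C α) (by simp)

theorem and {P Q : α → Prop} (h1 : Sig C P) (h2 : Sig C Q) : Sig C fun a => P a ∧ Q a := by
  refine C.congr (C.inter h1 h2) fun x => ⟨?_, ?_⟩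
  · rintro ⟨a, rfl, h, h'⟩; exact ⟨⟨a, rfl, h⟩, a, rfl, h'⟩
  · rintro ⟨⟨a, rfl, h⟩, b, e, h'⟩
    obtain rfl := enc_inj e
    exact ⟨a, rfl, h, h'⟩

theorem or {P Q : α → Prop} (h1 : Sig C P) (h2 : Sig C Q) : Sig C fun a => P a ∨ Q a := by
  refine C.congr (C.union h1 h2) fun x => ⟨?_, ?_⟩
  · rintro ⟨a, rfl, h | h⟩
    · exact Or.inl ⟨a, rfl, h⟩
    · exact Or.inr ⟨a, rfl, h⟩
  · rintro (⟨a, rfl, h⟩ | ⟨a, rfl, h⟩)
    · exact ⟨a, rfl, Or.inl h⟩
    · exact ⟨a, rfl, Or.inr h⟩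

theorem ex {P : α → β → Prop} (h : Sig C fun p : α × β => P p.1 p.2) :
    Sig C fun a => ∃ b, P a b := by
  refine C.congr (C.ex h) fun x => ⟨?_, ?_⟩
  · rintro ⟨a, rfl, b, hb⟩; exact ⟨_, (a, b), rfl, hb⟩
  · rintro ⟨y, ⟨a, b⟩, e, hb⟩
    obtain ⟨rfl, rfl⟩ := pair_inj e
    exact ⟨a, rfl, b, hb⟩

theorem cyl {P : α → Prop} (h : Sig C P) : Sig C fun p : α × β => P p.1 := by
  refine C.congr (C.inter (C.cyl h) (rng_mem C (α × β))) fun x => ⟨?_, ?_⟩
  · rintro ⟨⟨a, b⟩, rfl, hb⟩; exact ⟨⟨_, _, rfl, a, rfl, hb⟩, (a, b), rfl⟩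
  · rintro ⟨⟨x, y, rfl, a, rfl, ha⟩, ⟨a', b⟩, e⟩
    obtain ⟨e1, rfl⟩ := pair_inj e
    obtain rfl := enc_inj e1
    exact ⟨(a, b), rfl, ha⟩

theorem swap {P : α × β → Prop} (h : Sig C P) : Sig C fun p : β × α => P (p.2, p.1) := by
  refine C.congr (C.swap h) fun x => ⟨?_, ?_⟩
  · rintro ⟨⟨b, a⟩, rfl, hb⟩; exact ⟨_, _, rfl, (a, b), rfl, hb⟩
  · rintro ⟨x, y, rfl, ⟨a, b⟩, e, hb⟩
    obtain ⟨rfl, rfl⟩ := pair_inj e
    exact ⟨(b, a), rfl, hb⟩

theorem swap23 {P : (α × β) × γ → Prop} (h : Sig C P) :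
    Sig C fun p : (α × γ) × β => P ((p.1.1, p.2), p.1.2) := by
  refine C.congr (C.swap23 h) fun x => ⟨?_, ?_⟩
  · rintro ⟨⟨⟨a, c⟩, b⟩, rfl, hb⟩; exact ⟨_, _, _, rfl, ((a, b), c), rfl, hb⟩
  · rintro ⟨x, y, z, rfl, ⟨⟨a, b⟩, c⟩, e, hb⟩
    obtain ⟨e1, rfl⟩ := pair_inj e
    obtain ⟨rfl, rfl⟩ := pair_inj e1
    exact ⟨((a, c), b), rfl, hb⟩

theorem assoc {P : α × β × γ → Prop} (h : Sig C P) :
    Sig C fun p : (α × β) × γ => P (p.1.1, p.1.2, p.2) := by
  refine C.congr (C.assoc h) fun x => ⟨?_, ?_⟩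
  · rintro ⟨⟨⟨a, b⟩, c⟩, rfl, hb⟩; exact ⟨_, _, _, rfl, (a, b, c), rfl, hb⟩
  · rintro ⟨x, y, z, rfl, ⟨a, b, c⟩, e, hb⟩
    obtain ⟨rfl, e1⟩ := pair_inj e
    obtain ⟨rfl, rfl⟩ := pair_inj e1
    exact ⟨((a, b), c), rfl, hb⟩

theorem assoc' {P : (α × β) × γ → Prop} (h : Sig C P) :
    Sig C fun p : α × β × γ => P ((p.1, p.2.1), p.2.2) :=
  h.swap.assoc.swap.assoc.swap

theorem eq : Sig C fun p : α × α => p.1 = p.2 := by
  refine C.congr (C.inter C.diag (C.cyl (rng_mem C α))) fun x => ⟨?_, ?_⟩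
  · rintro ⟨⟨a, b⟩, rfl, hb⟩
    obtain rfl : a = b := hb
    exact ⟨⟨_, rfl⟩, _, _, rfl, a, rfl⟩
  · rintro ⟨⟨x, rfl⟩, y, z, e, a, rfl⟩
    obtain ⟨rfl, rfl⟩ := pair_inj e
    exact ⟨(a, a), rfl, rfl⟩

theorem sing (c : α) : Sig C fun a => a = c :=
  C.congr (C.sing (enc M c)) fun x => by simp

theorem comp {P : β → Prop} {f : α → β} (hP : Sig C P) (hf : Fn C f) : Sig C fun a => P (f a) :=
  (Sig.ex (P := fun a b => f a = b ∧ P b) (Sig.and hf (hP.cyl (β := α)).swap)).congr (by simp)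

theorem ball0 {P : α → M → Prop} (h : Sig C fun p : α × M => P p.1 p.2) :
    Sig C fun p : α × M => ∀ y < p.2, P p.1 y := by
  refine C.congr (C.inter (C.ball h) (rng_mem C (α × M))) fun x => ⟨?_, ?_⟩
  · rintro ⟨⟨a, b⟩, rfl, hb⟩
    exact ⟨⟨_, _, rfl, fun y hy => ⟨(a, y), rfl, hb y hy⟩⟩, (a, b), rfl⟩
  · rintro ⟨⟨x, b, rfl, hb⟩, ⟨a, b'⟩, e⟩
    obtain ⟨rfl, rfl⟩ := pair_inj e
    refine ⟨(a, b), rfl, fun y hy => ?_⟩
    obtain ⟨⟨a', y'⟩, e', h'⟩ := hb y hy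
    obtain ⟨e1, rfl⟩ := pair_inj e'
    obtain rfl := enc_inj e1
    exact h'

theorem lt0 : Sig C fun p : M × M => p.1 < p.2 :=
  C.congr C.lt fun x => ⟨fun ⟨p, h1, h2⟩ => ⟨p.1, p.2, h1, h2⟩,
    fun ⟨a, b, h1, h2⟩ => ⟨(a, b), h1, h2⟩⟩

end Sig

namespace Fn

@[fun_prop] theorem id' : Fn C fun a : α => a := Sig.eq

@[fun_prop] theorem const (c : β) : Fn C fun _ : α => c :=
  (((Sig.sing c).cyl (β := α)).swap).congr fun _ => eq_comm

@[fun_prop] theorem comp {f : β → γ} {g : α → β} (hf : Fn C f) (hg : Fn C g) :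
    Fn C fun a => f (g a) :=
  (Sig.ex (P := fun (p : α × γ) b => g p.1 = b ∧ f b = p.2)
    (Sig.and (Sig.cyl (β := γ) hg).swap23 ((Sig.swap hf).cyl (β := α)).swap.assoc)).congr (by simp)

theorem fst0 : Fn C (Prod.fst : α × β → α) := (Sig.eq.cyl (β := β)).swap23

theorem snd0 : Fn C (Prod.snd : α × β → β) := (Sig.eq.cyl (β := α)).swap.assoc

@[fun_prop] theorem fst {f : α → β × γ} (hf : Fn C f) : Fn C fun a => (f a).1 := fst0.comp hf

@[fun_prop] theorem snd {f : α → β × γ} (hf : Fn C f) : Fn C fun a => (f a).2 := snd0.comp hf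

@[fun_prop] theorem prodMk {f : α → β} {g : α → γ} (hf : Fn C f) (hg : Fn C g) :
    Fn C fun a => (f a, g a) :=
  (Sig.and (Sig.cyl (β := γ) hf) (Sig.cyl (β := β) hg).swap23).assoc'.congr
    fun p => by simp [Prod.ext_iff]

theorem add0 : Fn C fun p : M × M => p.1 + p.2 :=
  C.congr C.add fun x => ⟨fun ⟨p, h1, h2⟩ => ⟨p.1.1, p.1.2, by
      rw [h1, show p.1.1 + p.1.2 = p.2 from h2]; rfl⟩,
    fun ⟨a, b, h1⟩ => ⟨((a, b), a + b), h1, rfl⟩⟩

theorem mul0 : Fn C fun p : M × M => p.1 * p.2 :=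
  C.congr C.mul fun x => ⟨fun ⟨p, h1, h2⟩ => ⟨p.1.1, p.1.2, by
      rw [h1, show p.1.1 * p.1.2 = p.2 from h2]; rfl⟩,
    fun ⟨a, b, h1⟩ => ⟨((a, b), a * b), h1, rfl⟩⟩

@[fun_prop] theorem add {f g : α → M} (hf : Fn C f) (hg : Fn C g) : Fn C fun a => f a + g a :=
  add0.comp (hf.prodMk hg)

@[fun_prop] theorem mul {f g : α → M} (hf : Fn C f) (hg : Fn C g) : Fn C fun a => f a * g a :=
  mul0.comp (hf.prodMk hg)

@[fun_prop] theorem pair {f g : α → M} (hf : Fn C f) (hg : Fn C g) :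
    Fn C fun a => pair (f a) (g a) := by
  unfold MP75f14d.pair; fun_prop

theorem enc0 : Fn C (enc M : α → M) :=
  C.congr (Sig.eq (α := α)) fun x =>
    ⟨fun ⟨p, h1, h2⟩ => ⟨(p.1, p.1), by rw [h1]; simp [← h2], rfl⟩,
     fun ⟨p, h1, h2⟩ => ⟨(p.1, enc M p.1), by rw [h1]; simp [← h2], rfl⟩⟩

@[fun_prop] theorem enc {f : α → β} (hf : Fn C f) : Fn C fun a => enc M (f a) := enc0.comp hf

/-- A decidable predicate is r.e. -/
theorem sig {P : α → Prop} (h : Fn C P) : Sig C P :=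
  ((Sig.sing True).comp h).congr (by simp)

/-- A decidable predicate is co-r.e. -/
theorem sig_not {P : α → Prop} (h : Fn C P) : Sig C fun a => ¬ P a :=
  ((Sig.sing False).comp h).congr (by simp)

theorem of_sig {P : α → Prop} (h1 : Sig C P) (h2 : Sig C fun a => ¬ P a) : Fn C P := by
  refine ((h1.cyl.and ((Sig.sing True).comp snd0)).or
    (h2.cyl.and ((Sig.sing False).comp snd0))).congr fun p => ?_
  by_cases h : P p.1 <;> simp [h]

theorem congr {f g : α → β} (h : Fn C f) (e : ∀ a, g a = f a) : Fn C g := by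
  rwa [show g = f from funext e]

theorem congr_iff {P Q : α → Prop} (h : Fn C P) (e : ∀ a, Q a ↔ P a) : Fn C Q :=
  h.congr fun a => propext (e a)

@[fun_prop] theorem not {P : α → Prop} (h : Fn C P) : Fn C fun a => ¬ P a :=
  of_sig h.sig_not (h.sig.congr (by simp))

@[fun_prop] theorem and {P Q : α → Prop} (h1 : Fn C P) (h2 : Fn C Q) : Fn C fun a => P a ∧ Q a :=
  of_sig (h1.sig.and h2.sig) ((h1.sig_not.or h2.sig_not).congr fun _ => not_and_or)

@[fun_prop] theorem or {P Q : α → Prop} (h1 : Fn C P) (h2 : Fn C Q) : Fn C fun a => P a ∨ Q a :=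
  of_sig (h1.sig.or h2.sig) ((h1.sig_not.and h2.sig_not).congr fun _ => not_or)

@[fun_prop] theorem iff {P Q : α → Prop} (h1 : Fn C P) (h2 : Fn C Q) : Fn C fun a => P a ↔ Q a :=
  ((h1.and h2).or (h1.not.and h2.not)).congr_iff fun a => by tauto

theorem lt0 : Fn C fun p : M × M => p.1 < p.2 :=
  of_sig Sig.lt0 ((Sig.lt0.swap.or Sig.eq).congr fun p => by
    simp only [not_lt]; rw [le_iff_lt_or_eq, eq_comm])

@[fun_prop] theorem lt {f g : α → M} (hf : Fn C f) (hg : Fn C g) : Fn C fun a => f a < g a :=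
  lt0.comp (hf.prodMk hg)

@[fun_prop] theorem le {f g : α → M} (hf : Fn C f) (hg : Fn C g) : Fn C fun a => f a ≤ g a :=
  (hg.lt hf).not.congr_iff fun _ => not_lt.symm

@[fun_prop] theorem eq {f g : α → β} (hf : Fn C f) (hg : Fn C g) : Fn C fun a => f a = g a :=
  ((hf.enc.le hg.enc).and (hg.enc.le hf.enc)).congr_iff fun a => by
    rw [← le_antisymm_iff, enc_eq_iff]

@[fun_prop] theorem ne {f g : α → β} (hf : Fn C f) (hg : Fn C g) : Fn C fun a => f a ≠ g a :=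
  (hf.eq hg).not

end Fn

/-- Implication, as a function (for `fun_prop`). -/
def Imp (p q : Prop) : Prop := p → q
/-- Bounded universal quantifier, as a function (for `fun_prop`). -/
def BAll {M : Type} [Ar M] (t : M) (P : M → Prop) : Prop := ∀ y < t, P y
/-- Bounded existential quantifier, as a function (for `fun_prop`). -/
def BEx {M : Type} [Ar M] (t : M) (P : M → Prop) : Prop := ∃ y < t, P y
/-- Definition by cases. -/
noncomputable def cnd {β : Type} (p : Prop) (a b : β) : β := if p then a else b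

theorem cnd_pos {β : Type} {p : Prop} (h : p) (a b : β) : cnd p a b = a := if_pos h
theorem cnd_neg {β : Type} {p : Prop} (h : ¬ p) (a b : β) : cnd p a b = b := if_neg h

namespace Sig

theorem ball {P : α → M → Prop} {t : α → M} (ht : Fn C t) (h : Sig C fun p : α × M => P p.1 p.2) :
    Sig C fun a => ∀ y < t a, P a y :=
  h.ball0.comp (Fn.id'.prodMk ht)

theorem bex {P : α → M → Prop} {t : α → M} (ht : Fn C t) (h : Sig C fun p : α × M => P p.1 p.2) :
    Sig C fun a => ∃ y < t a, P a y :=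
  Sig.ex (P := fun a y => y < t a ∧ P a y) ((Fn.sig (by fun_prop)).and h)

theorem imp {P Q : α → Prop} (h1 : Fn C P) (h2 : Sig C Q) : Sig C fun a => P a → Q a :=
  (h1.sig_not.or h2).congr fun _ => imp_iff_not_or

end Sig

namespace Fn

@[fun_prop] theorem imp {P Q : α → Prop} (h1 : Fn C P) (h2 : Fn C Q) :
    Fn C fun a => Imp (P a) (Q a) :=
  (h1.not.or h2).congr_iff fun _ => imp_iff_not_or

@[fun_prop] theorem ball {P : α → M → Prop} {t : α → M} (ht : Fn C t)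
    (h : Fn C fun p : α × M => P p.1 p.2) : Fn C fun a => BAll (t a) (P a) :=
  of_sig (Sig.ball ht h.sig) ((Sig.bex ht (P := fun a y => ¬ P a y) h.sig_not).congr
    fun a => by simp [BAll])

@[fun_prop] theorem bex {P : α → M → Prop} {t : α → M} (ht : Fn C t)
    (h : Fn C fun p : α × M => P p.1 p.2) : Fn C fun a => BEx (t a) (P a) :=
  of_sig (Sig.bex ht h.sig) ((Sig.ball ht (P := fun a y => ¬ P a y) h.sig_not).congr
    fun a => by simp [BEx])

@[fun_prop] theorem cnd {P : α → Prop} {f g : α → β} (hP : Fn C P) (hf : Fn C f) (hg : Fn C g) :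
    Fn C fun a => cnd (P a) (f a) (g a) := by
  have : Fn C fun p : α × β => (P p.1 ∧ f p.1 = p.2) ∨ (¬ P p.1 ∧ g p.1 = p.2) := by fun_prop
  refine this.sig.congr fun p => ?_
  by_cases h : P p.1 <;> simp [MP75f14d.cnd, h]

/-- A total function with r.e. graph-like description. -/
theorem of_graph {f : α → β} {G : α → β → Prop} (h : Sig C fun p : α × β => G p.1 p.2)
    (e : ∀ a b, f a = b ↔ G a b) : Fn C f :=
  h.congr fun p => e p.1 p.2

end Fn

end Pool.Agent.MP75f14d
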