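import Pool.Agent.MP_75f14d_lc.MkStr

/-! The class of projections of sets of a model of RCA0 + BSigma02. -/

namespace Pool.Agent.MP75f14d

namespace ClsOfX

theorem up_sub (r : ℕ → Tm) (t : Tm) : t.up.sub (liftN r) = (t.sub r).up := by
  induction t with
  | var n => rfl
  | zero => rfl
  | one => rfl
  | add t u iht ihu =>
    show Tm.add (t.up.sub (liftN r)) (u.up.sub (liftN r)) = Tm.add (t.sub r).up (u.sub r).up
    rw [iht, ihu]
  | mul t u iht ihu =>
    show Tm.mul (t.up.sub (liftN r)) (u.up.sub (liftN r)) = Tm.mul (t.sub r).up (u.sub r).up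
    rw [iht, ihu]

theorem bd_sub {f : Fm} (h : Bounded f) : ∀ r p, Bounded (f.sub r p) := by
  induction h with
  | eq t u => intro r p; exact .eq _ _
  | lt t u => intro r p; exact .lt _ _
  | mem t k => intro r p; exact .mem _ _
  | bot => intro r p; exact .bot
  | imp _ _ ih1 ih2 => intro r p; exact .imp (ih1 r p) (ih2 r p)
  | @ball t f _ ih =>
    intro r p
    have e : (Fm.ball t f).sub r p = Fm.ball (t.sub r) (f.sub (liftN r) p) := by
      show Fm.allN ((Fm.lt (.var 0) (t.up.sub (liftN r))).imp (f.sub (liftN r) p)) = _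
      rw [up_sub]; rfl
    rw [e]
    exact .ball _ (ih _ _)

theorem bd_neg {f : Fm} (h : Bounded f) : Bounded f.neg := .imp h .bot
theorem bd_and {f g : Fm} (h : Bounded f) (h' : Bounded g) : Bounded (f.and g) :=
  bd_neg (.imp h (bd_neg h'))
theorem bd_or {f g : Fm} (h : Bounded f) (h' : Bounded g) : Bounded (f.or g) :=
  .imp (bd_neg h) h'
theorem bd_bex (t : Tm) {f : Fm} (h : Bounded f) : Bounded (Fm.bex t f) :=
  bd_neg (.ball t (bd_neg h))

/-- A block of existential quantifiers before a bounded formula. -/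
inductive S1 : Fm → Prop
  | bd {f : Fm} : Bounded f → S1 f
  | ex {f : Fm} : S1 f → S1 f.exN

/-- Skip variable 2. -/
def skip : ℕ → Tm := cons (.var 0) (cons (.var 1) fun n => .var (n + 3))

theorem sat_skip (A : Str) (g : Fm) (y x b : A.N) (v : ℕ → A.N) (w : ℕ → A.S) :
    A.Sat (g.sub skip id) (cons y (cons x (cons b v))) w ↔ A.Sat g (cons y (cons x v)) w := by
  have : (fun n => A.val (cons y (cons x (cons b v))) (skip n)) = cons y (cons x v) := by
    funext n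
    rcases n with _ | _ | n <;> rfl
  rw [Str.sat_sub, this]; rfl

variable {M : Type} [Ar M] {S : Type} {mem : M → S → Prop}

theorem skip' (g : Fm) (y x b : M) (v : ℕ → M) (w : ℕ → S) :
    (mkStr M S mem).Sat (g.sub skip id) (cons y (cons x (cons b v))) w ↔
      (mkStr M S mem).Sat g (cons y (cons x v)) w := sat_skip (mkStr M S mem) g y x b v w

theorem upN' (g : Fm) (y : M) (v : ℕ → M) (w : ℕ → S) :
    (mkStr M S mem).Sat g.upN (cons y v) w ↔ (mkStr M S mem).Sat g v w :=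
  Str.sat_upN (mkStr M S mem) g y v w

theorem lt_a (a b : M) : a < a + b + 1 := lt_succ_iff.2 le_self_add
theorem lt_b (a b : M) : b < a + b + 1 := lt_succ_iff.2 le_add_self

theorem S1.nf {f : Fm} (h : S1 f) : ∃ g, Bounded g ∧ ∀ v w,
    (mkStr M S mem).Sat f v w ↔ ∃ y, (mkStr M S mem).Sat g (cons y v) w := by
  induction h with
  | @bd f hf => exact ⟨f.upN, bd_sub hf _ _, fun v w =>
      ⟨fun h => ⟨(0 : M), (upN' _ _ _ _).2 h⟩, fun ⟨_, h⟩ => (upN' _ _ _ _).1 h⟩⟩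
  | ex _ ih =>
    obtain ⟨g, hg, e⟩ := ih
    refine ⟨Fm.bex (.var 0) (Fm.bex (.var 1) (g.sub skip id)),
      bd_bex _ (bd_bex _ (bd_sub hg _ _)), fun v w => ?_⟩
    simp only [Str.sat_exN, Str.sat_bex, e, Str.val, cons_zero, cons_one]
    constructor
    · rintro ⟨a, y, h⟩
      exact ⟨a + y + 1, a, lt_a a y, y, lt_b a y, (skip' ..).2 h⟩
    · rintro ⟨b, a, -, y, -, h⟩
      exact ⟨a, y, (skip' ..).1 h⟩

theorem comp (h : (mkStr M S mem).Models (RCA0 ∪ BSigma02)) {g : Fm} (hg : Bounded g)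
    (v : ℕ → M) (w : ℕ → S) : ∃ X, ∀ a, mem a X ↔ (mkStr M S mem).Sat g (cons a v) w := by
  have h1 := h (compAx g.upN.exN g.upN.allN)
    (Or.inl (Or.inr ⟨_, _, ⟨_, bd_sub hg _ _, rfl⟩, ⟨_, bd_sub hg _ _, rfl⟩, rfl⟩)) v w
  rw [Str.sat_compAx] at h1
  have e : ∀ a, (mkStr M S mem).Sat g.upN.exN (cons a v) w ↔ (mkStr M S mem).Sat g (cons a v) w :=
    fun a => (Str.sat_exN ..).trans
      ⟨fun ⟨_, h⟩ => (upN' _ _ _ _).1 h, fun h => ⟨(0 : M), (upN' _ _ _ _).2 h⟩⟩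
  obtain ⟨X, hX⟩ := h1 fun a => (e a).trans
    ⟨fun h _ => (upN' _ _ _ _).2 h, fun h => (upN' _ _ _ _).1 (h (0 : M))⟩
  exact ⟨X, fun a => (hX a).trans (e a)⟩

/-- Projections of the sets of the model. -/
def Pr (mem : M → S → Prop) : Set (Set M) := {W | ∃ X, ∀ x, x ∈ W ↔ ∃ y, mem (pair x y) X}

theorem pr_of (h : (mkStr M S mem).Models (RCA0 ∪ BSigma02)) (f : Fm) (v : ℕ → M) (w : ℕ → S)
    (hf : S1 f) {W : Set M} (e : ∀ x, x ∈ W ↔ (mkStr M S mem).Sat f (cons x v) w) :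
    W ∈ Pr mem := by
  obtain ⟨g, hg, e'⟩ := hf.nf (mem := mem)
  obtain ⟨X, hX⟩ := comp h (g := Fm.bex (.add (.var 0) .one) (Fm.bex (.add (.var 1) .one)
    ((Fm.eq (.var 2) (pairTm (.var 1) (.var 0))).and (g.sub skip id))))
    (bd_bex _ (bd_bex _ (bd_and (.eq _ _) (bd_sub hg _ _)))) v w
  refine ⟨X, fun x => ?_⟩
  simp only [e, e', hX, Str.sat_bex, Str.sat_and, Str.Sat, val_pairTm, Str.val,
    cons_zero, cons_one, cons_two, pair_eq_iff]
  refine exists_congr fun y => ⟨fun hy => ?_, ?_⟩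
  · exact ⟨x, lt_succ_iff.2 (le_pair_left x y), y, lt_succ_iff.2 (le_pair_right x y),
      ⟨rfl, rfl⟩, (skip' ..).2 hy⟩
  · rintro ⟨x', -, y', -, ⟨rfl, rfl⟩, hy⟩
    exact (skip' ..).1 hy

theorem coll1 (h : (mkStr M S mem).Models (RCA0 ∪ BSigma02)) (X : S) (x c : M)
    (H : ∀ y < c, ∃ z, mem (pair (pair x y) z) X) :
    ∃ b, ∀ y < c, ∃ z < b, mem (pair (pair x y) z) X := by
  have h1 := h (bndAx (Fm.mem (pairTm (pairTm (.var 5) (.var 3)) (.var 2)) 0).allN.exN)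
    (Or.inr ⟨_, ⟨_, .mem _ _, rfl⟩, rfl⟩) (cons c fun _ => x) fun _ => X
  rw [Str.sat_bndAx] at h1
  simpa [Str.Sat, val_pairTm, Str.val] using h1 (by simpa [Str.Sat, val_pairTm, Str.val] using H)

theorem coll2 (h : (mkStr M S mem).Models (RCA0 ∪ BSigma02)) (X : S) (a : M)
    (H : ∀ x < a, ∃ y, ∀ z, ¬ mem (pair (pair x y) z) X) :
    ∃ b, ∀ x < a, ∃ y < b, ∀ z, ¬ mem (pair (pair x y) z) X := by
  have h1 := h (bndAx (Fm.mem (pairTm (pairTm (.var 3) (.var 2)) (.var 0)) 0).neg.allN.exN)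
    (Or.inr ⟨_, ⟨_, bd_neg (.mem _ _), rfl⟩, rfl⟩) (fun _ => a) fun _ => X
  rw [Str.sat_bndAx] at h1
  simpa [Str.Sat, val_pairTm, Str.val] using h1 (by simpa [Str.Sat, val_pairTm, Str.val] using H)

theorem ind1 (h : (mkStr M S mem).Models (RCA0 ∪ BSigma02)) (X : S)
    (H0 : ∃ y, mem (pair 0 y) X) (Hs : ∀ x, (∃ y, mem (pair x y) X) → ∃ y, mem (pair (x + 1) y) X) :
    ∀ x, ∃ y, mem (pair x y) X := by
  have h1 := h (indAx (Fm.mem (pairTm (.var 1) (.var 0)) 0).exN)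
    (Or.inl (Or.inl (Or.inr ⟨_, ⟨_, .mem _ _, rfl⟩, rfl⟩))) (fun _ => 0) fun _ => X
  rw [Str.sat_indAx] at h1
  simp only [Str.sat_exN, Str.Sat, val_pairTm, Str.val, cons_zero, cons_one] at h1
  exact h1 ⟨H0, Hs⟩

/-- The class of projections. -/
def cls (h : (mkStr M S mem).Models (RCA0 ∪ BSigma02)) (w : ℕ → S) : Cls M where
  sets := Pr mem
  inter := by
    rintro W V ⟨X, hX⟩ ⟨Y, hY⟩
    refine pr_of h (((Fm.mem (pairTm (.var 2) (.var 1)) 0).and
      (Fm.mem (pairTm (.var 2) (.var 0)) 1)).exN.exN) (fun _ => 0) (cons X fun _ => Y)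
      (.ex (.ex (.bd (bd_and (.mem _ _) (.mem _ _))))) fun x => ?_
    simp [hX, hY, Str.Sat, val_pairTm, Str.val]
  union := by
    rintro W V ⟨X, hX⟩ ⟨Y, hY⟩
    refine pr_of h (((Fm.mem (pairTm (.var 1) (.var 0)) 0).or
      (Fm.mem (pairTm (.var 1) (.var 0)) 1)).exN) (fun _ => 0) (cons X fun _ => Y)
      (.ex (.bd (bd_or (.mem _ _) (.mem _ _)))) fun x => ?_
    simp [hX, hY, Str.Sat, val_pairTm, Str.val, exists_or]
  ex := by
    rintro W ⟨X, hX⟩
    refine pr_of h ((Fm.mem (pairTm (pairTm (.var 2) (.var 1)) (.var 0)) 0).exN.exN)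
      (fun _ => 0) (fun _ => X) (.ex (.ex (.bd (.mem _ _)))) fun x => ?_
    simp [hX, Str.Sat, val_pairTm, Str.val]
  ball := by
    rintro W ⟨X, hX⟩
    refine pr_of h (((Fm.eq (.var 3) (pairTm (.var 2) (.var 1))).and
      (Fm.ball (.var 1) (Fm.bex (.var 1)
        (Fm.mem (pairTm (pairTm (.var 4) (.var 1)) (.var 0)) 0)))).exN.exN.exN)
      (fun _ => 0) (fun _ => X)
      (.ex (.ex (.ex (.bd (bd_and (.eq _ _) (.ball _ (bd_bex _ (.mem _ _)))))))) fun p => ?_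
    simp only [hX, Set.mem_ofPred_eq, Str.sat_exN, Str.sat_and, Str.sat_ball, Str.sat_bex, Str.Sat,
      val_pairTm, Str.val, cons_zero, cons_one, cons_two, cons_three, cons_four]
    refine exists_congr fun x => exists_congr fun c => ⟨?_, ?_⟩
    · rintro ⟨e, H⟩
      obtain ⟨b, hb⟩ := coll1 h X x c H
      exact ⟨b, e, hb⟩
    · rintro ⟨b, e, hb⟩
      exact ⟨e, fun y hy => let ⟨z, _, hz⟩ := hb y hy; ⟨z, hz⟩⟩
  cyl := by
    rintro W ⟨X, hX⟩
    refine pr_of h (((Fm.eq (.var 3) (pairTm (.var 2) (.var 1))).and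
      (Fm.mem (pairTm (.var 2) (.var 0)) 0)).exN.exN.exN)
      (fun _ => 0) (fun _ => X)
      (.ex (.ex (.ex (.bd (bd_and (.eq _ _) (.mem _ _)))))) fun p => ?_
    simp only [hX, Set.mem_ofPred_eq, Str.sat_exN, Str.sat_and, Str.Sat,
      val_pairTm, Str.val, cons_zero, cons_one, cons_two, cons_three, exists_and_left]
  swap := by
    rintro W ⟨X, hX⟩
    refine pr_of h (((Fm.eq (.var 3) (pairTm (.var 1) (.var 2))).and
      (Fm.mem (pairTm (pairTm (.var 2) (.var 1)) (.var 0)) 0)).exN.exN.exN)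
      (fun _ => 0) (fun _ => X)
      (.ex (.ex (.ex (.bd (bd_and (.eq _ _) (.mem _ _)))))) fun p => ?_
    simp only [hX, Set.mem_ofPred_eq, Str.sat_exN, Str.sat_and, Str.Sat,
      val_pairTm, Str.val, cons_zero, cons_one, cons_two, cons_three, exists_and_left]
  swap23 := by
    rintro W ⟨X, hX⟩
    refine pr_of h (((Fm.eq (.var 4) (pairTm (pairTm (.var 3) (.var 1)) (.var 2))).and
      (Fm.mem (pairTm (pairTm (pairTm (.var 3) (.var 2)) (.var 1)) (.var 0)) 0)).exN.exN.exN.exN)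
      (fun _ => 0) (fun _ => X)
      (.ex (.ex (.ex (.ex (.bd (bd_and (.eq _ _) (.mem _ _))))))) fun p => ?_
    simp only [hX, Set.mem_ofPred_eq, Str.sat_exN, Str.sat_and, Str.Sat,
      val_pairTm, Str.val, cons_zero, cons_one, cons_two, cons_three, cons_four, exists_and_left]
  assoc := by
    rintro W ⟨X, hX⟩
    refine pr_of h (((Fm.eq (.var 4) (pairTm (pairTm (.var 3) (.var 2)) (.var 1))).and
      (Fm.mem (pairTm (pairTm (.var 3) (pairTm (.var 2) (.var 1))) (.var 0)) 0)).exN.exN.exN.exN)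
      (fun _ => 0) (fun _ => X)
      (.ex (.ex (.ex (.ex (.bd (bd_and (.eq _ _) (.mem _ _))))))) fun p => ?_
    simp only [hX, Set.mem_ofPred_eq, Str.sat_exN, Str.sat_and, Str.Sat,
      val_pairTm, Str.val, cons_zero, cons_one, cons_two, cons_three, cons_four, exists_and_left]
  univ := pr_of h (.eq .zero .zero) (fun _ => 0) w (.bd (.eq _ _)) fun x => by simp [Str.Sat]
  diag := pr_of h (Fm.eq (.var 1) (pairTm (.var 0) (.var 0))).exN (fun _ => 0) w
    (.ex (.bd (.eq _ _))) fun x => by simp [Str.Sat, val_pairTm, Str.val]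
  sing c := pr_of h (Fm.eq (.var 0) (.var 1)) (fun _ => c) w
    (.bd (.eq _ _)) fun x => by simp [Str.Sat, Str.val]
  add := pr_of h (Fm.eq (.var 2)
      (pairTm (pairTm (.var 1) (.var 0)) (.add (.var 1) (.var 0)))).exN.exN (fun _ => 0) w
    (.ex (.ex (.bd (.eq _ _)))) fun x => by simp [Str.Sat, val_pairTm, Str.val]
  mul := pr_of h (Fm.eq (.var 2)
      (pairTm (pairTm (.var 1) (.var 0)) (.mul (.var 1) (.var 0)))).exN.exN (fun _ => 0) w
    (.ex (.ex (.bd (.eq _ _)))) fun x => by simp [Str.Sat, val_pairTm, Str.val]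
  lt := pr_of h ((Fm.eq (.var 2) (pairTm (.var 1) (.var 0))).and
      (.lt (.var 1) (.var 0))).exN.exN (fun _ => 0) w
    (.ex (.ex (.bd (bd_and (.eq _ _) (.lt _ _))))) fun x => by
      simp [Str.Sat, val_pairTm, Str.val]

end ClsOfX

theorem exists_cls {M : Type} [Ar M] {S : Type} {mem : M → S → Prop}
    (h : (mkStr M S mem).Models (RCA0 ∪ BSigma02)) (w : ℕ → S) :
    ∃ C : Cls M, SInd C ∧ Coll2 C ∧ ∀ X : S, Fn C fun x : M => mem x X := by
  refine ⟨ClsOfX.cls h w, ⟨?_⟩, ⟨?_⟩, fun X => ?_⟩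
  · rintro W ⟨X, hX⟩ h0 hs x
    simp only [hX] at h0 hs ⊢
    exact ClsOfX.ind1 h X h0 hs x
  · rintro W ⟨X, hX⟩ a H
    simp only [hX, not_exists] at H ⊢
    exact ClsOfX.coll2 h X a H
  · refine (fn_mem_iff (W := {x | mem x X})).2 ⟨?_, ?_⟩
    · exact ClsOfX.pr_of h (.mem (.var 0) 0) (fun _ => 0) (fun _ => X) (.bd (.mem _ _))
        fun x => Iff.rfl
    · exact ClsOfX.pr_of h (Fm.mem (.var 0) 0).neg (fun _ => 0) (fun _ => X)
        (.bd (ClsOfX.bd_neg (.mem _ _))) fun x => Iff.rfl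

end Pool.Agent.MP75f14d
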