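import Pool.Agent.MP_75f14d_lc.Ind

/-! Primitive recursion and the exponential function from Sigma1 induction. -/

namespace Pool.Agent.MP75f14d

variable {M : Type} [Ar M] {α : Type} [Cd M α]

namespace PrecX

/-- Membership of `i` in the set coded by `m, N`. -/
def In (i m N : M) : Prop := BEx (N + 1) fun q => N = (m * (i + 1) + 1) * q

@[fun_prop] theorem fn_In {C : Cls M} {f g k : α → M} (hf : Fn C f) (hg : Fn C g) (hk : Fn C k) :
    Fn C fun a => In (f a) (g a) (k a) := by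
  unfold In; fun_prop

theorem in_iff {i m N : M} : In i m N ↔ ∃ q, N = (m * (i + 1) + 1) * q := by
  refine ⟨fun ⟨q, _, h⟩ => ⟨q, h⟩, fun ⟨q, h⟩ => ⟨q, lt_succ_iff.2 ?_, h⟩⟩
  rw [h, add_mul, one_mul]
  exact le_add_self

theorem lemA (C : Cls M) [SInd C] (k : M) : ∃ m, 0 < m ∧ ∀ d < k, ∃ q, m = (d + 1) * q := by
  refine Sig.ind (C := C) (P := fun k => ∃ m, 0 < m ∧ ∀ d < k, ∃ q, m = (d + 1) * q) ?_
    ⟨1, one_pos, fun d hd => absurd hd (not_lt_zero d)⟩ ?_ k
  · exact Sig.ex (Sig.and (Fn.sig (by fun_prop))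
      (Sig.ball (by fun_prop) (Sig.ex (Fn.sig (by fun_prop)))))
  · rintro x ⟨m, hm, h⟩
    refine ⟨m * (x + 1), by positivity, fun d hd => ?_⟩
    rcases lt_succ_iff_lt_or_eq.1 hd with h' | rfl
    · obtain ⟨q, hq⟩ := h d h'
      exact ⟨q * (x + 1), by rw [hq]; ring⟩
    · exact ⟨m, by ring⟩

theorem inv_of {x y U V w : M} (hy : 1 < y) (h : x * U + y * w = y * V + 1) :
    ∃ u v, x * u = y * v + 1 := by
  rcases le_or_gt w V with h1 | h1
  · obtain ⟨c, rfl⟩ := exists_add_of_le h1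
    refine ⟨U, c, add_right_cancel (b := y * w) ?_⟩
    rw [h]; ring
  · exfalso
    have := nn (x * U)
    zify at *
    nlinarith [nn y, nn V, nn w]

theorem inv_ne {m k i j : M} (hm : 0 < m) (hd : ∀ d < k, ∃ q, m = (d + 1) * q) (hi : i < k)
    (hj : j < k) (hij : i ≠ j) : ∃ u v, (m * (j + 1) + 1) * u = (m * (i + 1) + 1) * v + 1 := by
  have ht : 0 < m * (i + 1) := by positivity
  obtain ⟨s, hs⟩ : ∃ s, m * (i + 1) = s + 1 := (eq_zero_or_succ _).resolve_left ht.ne'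
  rcases lt_or_gt_of_ne hij with h | h
  · obtain ⟨d, rfl⟩ := exists_add_of_le (lt_iff_succ_le.1 h)
    obtain ⟨q, hq⟩ := hd d (lt_of_le_of_lt le_add_self hj)
    refine ⟨q * (i + 1) * (i + 1), q * (i + 1) * (i + 1) + s, ?_⟩
    have e1 : m * (d + 1) * (q * (i + 1) * (i + 1)) = (s + 1) * (s + 1) := by
      rw [← hs]; nth_rewrite 3 [hq]; ring
    have e2 : m * (i + 1 + d + 1) + 1 = (m * (i + 1) + 1) + m * (d + 1) := by ring
    rw [e2, add_mul, e1, hs]; ring
  · obtain ⟨d, rfl⟩ := exists_add_of_le (lt_iff_succ_le.1 h)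
    obtain ⟨q, hq⟩ := hd d (lt_of_le_of_lt le_add_self hi)
    set i := j + 1 + d with hi'
    have e1 : m * (d + 1) * (q * (i + 1) * (i + 1)) = (s + 1) * (s + 1) := by
      rw [← hs]; nth_rewrite 3 [hq]; ring
    have e2 : s + 1 + 1 = (m * (j + 1) + 1) + m * (d + 1) := by rw [← hs, hi']; ring
    rw [hs]
    refine inv_of (U := q * (i + 1) * (i + 1) * (s + 1)) (w := s * s + s + 1)
      (V := q * (i + 1) * (i + 1) * (s + 1)) (by zify; linarith [nn s]) ?_
    generalize q * (i + 1) * (i + 1) = u at *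
    have e3 : (s + 1 + 1) * (u * (s + 1)) =
        (m * (j + 1) + 1) * (u * (s + 1)) + m * (d + 1) * u * (s + 1) := by rw [e2]; ring
    rw [e3, e1]; ring

theorem lemB (C : Cls M) [SInd C] {P : M → Prop} (hP : Fn C P) (k : M) :
    ∃ m N, ∀ i < k, In i m N ↔ P i := by
  obtain ⟨m, hm, hd⟩ := lemA C k
  have := Sig.ind_le (C := C) (P := fun j => ∃ N, (∀ i < j, P i → ∃ q, N = (m * (i + 1) + 1) * q) ∧
      ∀ i < k, (¬ P i ∨ j ≤ i) → ∃ u v, N * u = (m * (i + 1) + 1) * v + 1) ?_ k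
      ⟨1, fun i hi => absurd hi (not_lt_zero i), fun i _ _ => ⟨1, 0, by ring⟩⟩ ?_ k le_rfl
  · obtain ⟨N, h1, h2⟩ := this
    refine ⟨m, N, fun i hi => ⟨fun h => ?_, fun h => in_iff.2 (h1 i hi h)⟩⟩
    by_contra hn
    obtain ⟨q, rfl⟩ := in_iff.1 h
    obtain ⟨u, v, e⟩ := h2 i hi (Or.inl hn)
    have ht : 0 < m * (i + 1) := by positivity
    generalize m * (i + 1) = t at *
    have := (div_mod_unique (q := q * u) (r := 0) (q' := v) (r' := 1) (b := t + 1)
      (by positivity) (by zify at *; linarith) (by rw [add_zero, mul_comm v, ← e]; ring)).2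
    exact zero_ne_one this
  · exact Sig.ex (Sig.and
      (Sig.ball (by fun_prop) (Sig.imp (by fun_prop) (Sig.ex (Fn.sig (by fun_prop)))))
      (Sig.ball (by fun_prop) (Sig.imp (by fun_prop) (Sig.ex (Sig.ex (Fn.sig (by fun_prop)))))))
  · rintro j hj ⟨N, h1, h2⟩
    by_cases hPj : P j
    · refine ⟨N * (m * (j + 1) + 1), fun i hi hPi => ?_, fun i hi h => ?_⟩
      · rcases lt_succ_iff_lt_or_eq.1 hi with h' | rfl
        · obtain ⟨q, hq⟩ := h1 i h' hPi
          exact ⟨q * (m * (j + 1) + 1), by rw [hq]; ring⟩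
        · exact ⟨N, by ring⟩
      · have hij : i ≠ j := by
          rintro rfl
          rcases h with h | h
          · exact h hPj
          · exact absurd (lt_iff_succ_le.2 h) (lt_irrefl _)
        obtain ⟨u, v, e⟩ := h2 i hi (h.imp_right fun h => le_trans le_self_add h)
        obtain ⟨u', v', e'⟩ := inv_ne hm hd hi hj hij
        refine ⟨u * u', (m * (i + 1) + 1) * v * v' + v + v', ?_⟩
        rw [mul_mul_mul_comm, e, e']; ring
    · refine ⟨N, fun i hi hPi => ?_, fun i hi h => h2 i hi (h.imp_right (le_trans le_self_add))⟩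
      rcases lt_succ_iff_lt_or_eq.1 hi with h' | rfl
      · exact h1 i h' hPi
      · exact absurd hPi hPj

/-- `m, N` code, below `k`, a part of the graph of the recursion. -/
def Code (g : α → M) (h : α → M → M → M) (a : α) (k m N : M) : Prop :=
  BAll k fun p => Imp (In p m N) (p = pair 0 (g a) ∨ BEx k fun i => BEx k fun z =>
    pair i z < k ∧ In (pair i z) m N ∧ p = pair (i + 1) (h a i z))

/-- The graph of the recursion. -/
def Gr (g : α → M) (h : α → M → M → M) (a : α) (x y : M) : Prop :=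
  ∃ k m N, pair x y < k ∧ In (pair x y) m N ∧ Code g h a k m N

variable {g : α → M} {h : α → M → M → M}

theorem gr_unique (C : Cls M) [SInd C] {a : α} {x y y' : M} (h1 : Gr g h a x y)
    (h2 : Gr g h a x y') : y = y' := by
  obtain ⟨k, m, N, a1, a2, a3⟩ := h1
  obtain ⟨k', m', N', b1, b2, b3⟩ := h2
  refine Fn.ind (C := C) (P := fun x => BAll k fun y => BAll k' fun y' =>
    Imp (pair x y < k ∧ In (pair x y) m N ∧ pair x y' < k' ∧ In (pair x y') m' N') (y = y'))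
    (by fun_prop) ?_ ?_ x y (lt_of_le_of_lt (le_pair_right _ _) a1) y'
    (lt_of_le_of_lt (le_pair_right _ _) b1) ⟨a1, a2, b1, b2⟩
  · rintro y - y' - ⟨c1, c2, c3, c4⟩
    rcases a3 _ c1 c2 with e | ⟨i, -, z, -, -, -, e⟩
    · rcases b3 _ c3 c4 with e' | ⟨i, -, z, -, -, -, e'⟩
      · rw [(pair_inj e).2, (pair_inj e').2]
      · exact absurd (pair_inj e').1 (by positivity : (0 : M) < i + 1).ne
    · exact absurd (pair_inj e).1 (by positivity : (0 : M) < i + 1).ne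
  · rintro x ih y - y' - ⟨c1, c2, c3, c4⟩
    rcases a3 _ c1 c2 with e | ⟨i, -, z, hz, d1, d2, e⟩
    · exact absurd (pair_inj e).1 (by positivity : (0 : M) < x + 1).ne'
    rcases b3 _ c3 c4 with e' | ⟨i', -, z', hz', d3, d4, e'⟩
    · exact absurd (pair_inj e').1 (by positivity : (0 : M) < x + 1).ne'
    obtain rfl : x = i := add_right_cancel (pair_inj e).1
    obtain rfl : x = i' := add_right_cancel (pair_inj e').1
    rw [(pair_inj e).2, (pair_inj e').2, ih z hz z' hz' ⟨d1, d2, d3, d4⟩]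

theorem gr_zero (C : Cls M) [SInd C] (a : α) : Gr g h a 0 (g a) := by
  obtain ⟨m, N, e⟩ := lemB C (P := fun p => p = pair 0 (g a)) (by fun_prop) (pair 0 (g a) + 1)
  exact ⟨_, m, N, lt_add_one _, (e _ (lt_add_one _)).2 rfl, fun p hp hi => Or.inl ((e p hp).1 hi)⟩

theorem gr_succ (C : Cls M) [SInd C] {a : α} {x y : M} (h1 : Gr g h a x y) :
    Gr g h a (x + 1) (h a x y) := by
  obtain ⟨k, m, N, a1, a2, a3⟩ := h1
  obtain ⟨m', N', e⟩ := lemB C (P := fun p => (p < k ∧ In p m N) ∨ p = pair (x + 1) (h a x y))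
    (by fun_prop) (k + pair (x + 1) (h a x y) + 1)
  have hk : ∀ {p}, p < k → p < k + pair (x + 1) (h a x y) + 1 := fun hp =>
    lt_of_lt_of_le hp (le_trans le_self_add le_self_add)
  have hk' : pair (x + 1) (h a x y) < k + pair (x + 1) (h a x y) + 1 := lt_succ_iff.2 le_add_self
  refine ⟨_, m', N', hk', (e _ hk').2 (Or.inr rfl), fun p hp hi => ?_⟩
  rcases (e p hp).1 hi with ⟨c1, c2⟩ | rfl
  · rcases a3 p c1 c2 with e' | ⟨i, hi, z, hz, d1, d2, e'⟩
    · exact Or.inl e'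
    · exact Or.inr ⟨i, hk hi, z, hk hz, hk d1, (e _ (hk d1)).2 (Or.inl ⟨d1, d2⟩), e'⟩
  · exact Or.inr ⟨x, hk (lt_of_le_of_lt (le_pair_left _ _) a1), y,
      hk (lt_of_le_of_lt (le_pair_right _ _) a1), hk a1, (e _ (hk a1)).2 (Or.inl ⟨a1, a2⟩), rfl⟩

theorem gr_sig {C : Cls M} (hg : Fn C g) (hh : Fn C fun p : α × M × M => h p.1 p.2.1 p.2.2) :
    Sig C fun p : (α × M) × M => Gr g h p.1.1 p.1.2 p.2 := by
  refine Sig.ex (Sig.ex (Sig.ex (Fn.sig ?_)))
  unfold Code
  fun_prop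

end PrecX

theorem exists_prec (C : Cls M) [SInd C] {g : α → M} {h : α → M → M → M} (hg : Fn C g)
    (hh : Fn C fun p : α × M × M => h p.1 p.2.1 p.2.2) :
    ∃ F : α → M → M, Fn C (fun p : α × M => F p.1 p.2) ∧ (∀ a, F a 0 = g a) ∧
      ∀ a x, F a (x + 1) = h a x (F a x) := by
  have hs := PrecX.gr_sig hg hh
  have hex : ∀ a x, ∃ y, PrecX.Gr g h a x y := fun a =>
    Sig.ind (C := C) (Sig.ex (hs.comp (f := fun p : M × M => ((a, p.1), p.2)) (by fun_prop)))
      ⟨_, PrecX.gr_zero C a⟩ fun x ⟨y, hy⟩ => ⟨_, PrecX.gr_succ C hy⟩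
  choose F hF using hex
  exact ⟨F, Fn.of_graph (G := fun p y => PrecX.Gr g h p.1 p.2 y) hs
      fun p y => ⟨fun e => e ▸ hF _ _, fun e => PrecX.gr_unique C (hF _ _) e⟩,
    fun a => PrecX.gr_unique C (hF _ _) (PrecX.gr_zero C a),
    fun a x => PrecX.gr_unique C (hF _ _) (PrecX.gr_succ C (hF _ _))⟩

theorem exists_good (C : Cls M) [SInd C] : ∃ _ : Good M, XpIn C := by
  obtain ⟨F, hF, h0, hs⟩ := exists_prec C (α := M) (g := fun _ => 1) (h := fun _ _ y => 2 * y)
    (by fun_prop) (by fun_prop)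
  have hF0 : Fn C (F 0) := by fun_prop
  letI : Good M := ⟨F 0, h0 0, hs 0, C, inferInstance, hF0⟩
  exact ⟨this, ⟨hF0⟩⟩

end Pool.Agent.MP75f14d
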