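import Pool.Agent.MP_75f14d_lc.Code
import Pool.Agent.MP_75f14d_lc.Prec

/-! Counting the elements of coded sets; recursion on initial segments. -/

set_option linter.unusedSectionVars false

namespace Pool.Agent.MP75f14d

variable {M : Type} [Ar M] [Good M]

/-- `cnt d m` is the number of elements of the coded set `d` below `m`. -/
structure IsCnt (C : Cls M) (cnt : M → M → M) : Prop where
  fn : Fn C fun p : M × M => cnt p.1 p.2
  zero : ∀ d, cnt d 0 = 0
  succ : ∀ d m, cnt d (m + 1) = cnt d m + cnd (Mem m d) 1 0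

theorem exists_cnt (C : Cls M) [SInd C] [XpIn C] : ∃ cnt, IsCnt C cnt := by
  obtain ⟨F, hF, h0, hs⟩ := exists_prec C (α := M) (g := fun _ => 0)
    (h := fun d m y => y + cnd (Mem m d) 1 0) (by fun_prop) (by fun_prop)
  exact ⟨F, hF, h0, hs⟩

namespace IsCnt
variable {C : Cls M} [SInd C] [XpIn C] {cnt : M → M → M} (h : IsCnt C cnt)
include h

omit [SInd C] [XpIn C] in
theorem succ_pos {d m : M} (hm : Mem m d) : cnt d (m + 1) = cnt d m + 1 := by
  rw [h.succ, cnd_pos hm]

omit [SInd C] [XpIn C] in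
theorem succ_neg {d m : M} (hm : ¬ Mem m d) : cnt d (m + 1) = cnt d m := by
  rw [h.succ, cnd_neg hm, add_zero]

omit [SInd C] [XpIn C] in
theorem le_succ (d m : M) : cnt d m ≤ cnt d (m + 1) := by
  rw [h.succ]; exact le_self_add

omit [SInd C] [XpIn C] in
theorem succ_le (d m : M) : cnt d (m + 1) ≤ cnt d m + 1 := by
  by_cases hm : Mem m d
  · exact (h.succ_pos hm).le
  · rw [h.succ_neg hm]; exact le_self_add

theorem le (d m : M) : cnt d m ≤ m := by
  have := h.fn
  refine Fn.ind (C := C) (P := fun m => cnt d m ≤ m) (by fun_prop) (h.zero d).le ?_ m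
  intro x ih
  exact (h.succ_le d x).trans (add_le_add_left ih 1)

theorem le_add {d a b m : M} (hd : ∀ i < m, Mem i d → Mem i a ∨ Mem i b) :
    cnt d m ≤ cnt a m + cnt b m := by
  have := h.fn
  refine Fn.ind_le (C := C) (P := fun x => cnt d x ≤ cnt a x + cnt b x) (by fun_prop) m
    (by rw [h.zero d]; exact zero_le) ?_ m le_rfl
  intro x hx ih
  have h1 := h.le_succ a x
  have h2 := h.le_succ b x
  by_cases hm : Mem x d
  · rw [h.succ_pos hm]
    rcases hd x hx hm with h3 | h3
    · rw [h.succ_pos h3]; zify at *; linarith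
    · rw [h.succ_pos h3]; zify at *; linarith
  · rw [h.succ_neg hm]
    exact ih.trans (add_le_add h1 h2)

theorem cnt_zero (m : M) : cnt 0 m = 0 := by
  have := h.fn
  refine Fn.ind (C := C) (P := fun m => cnt 0 m = 0) (by fun_prop) (h.zero 0) ?_ m
  intro x ih
  rw [h.succ_neg (not_mem_zero x), ih]

theorem cnt_full {d m : M} (hd : ∀ i < m, Mem i d) : cnt d m = m := by
  have := h.fn
  refine Fn.ind_le (C := C) (P := fun x => cnt d x = x) (by fun_prop) m (h.zero d) ?_ m le_rfl
  intro x hx ih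
  rw [h.succ_pos (hd x hx), ih]

theorem mono {a b m : M} (hab : ∀ i < m, Mem i a → Mem i b) : cnt a m ≤ cnt b m := by
  have := h.le_add (d := a) (a := b) (b := 0) (m := m) fun i hi h1 => Or.inl (hab i hi h1)
  rwa [h.cnt_zero, add_zero] at this

theorem lt {a b m i : M} (hab : ∀ i < m, Mem i a → Mem i b) (hi : i < m) (hb : Mem i b)
    (ha : ¬ Mem i a) : cnt a m < cnt b m := by
  have := h.fn
  refine Fn.ind_le (C := C) (P := fun x => Imp (i < x) (cnt a x < cnt b x)) (by fun_prop) m
    (fun h0 => absurd h0 (not_lt_zero i)) ?_ m le_rfl hi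
  intro x hx ih hix
  rcases lt_succ_iff_lt_or_eq.1 hix with h1 | rfl
  · have h2 : cnt a x < cnt b x := ih h1
    by_cases hm : Mem x a
    · rw [h.succ_pos hm, h.succ_pos (hab x hx hm)]
      exact add_lt_add_left h2 1
    · rw [h.succ_neg hm]
      exact h2.trans_le (h.le_succ b x)
  · rw [h.succ_neg ha, h.succ_pos hb, lt_succ_iff]
    exact h.mono fun j hj => hab j (hj.trans hx)

theorem exp_le (l m : M) : cnt (exp l) m ≤ 1 := by
  have := h.fn
  have key : ∀ m, cnt (exp l) m ≤ 1 ∧ Imp (m ≤ l) (cnt (exp l) m = 0) := by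
    refine Fn.ind (C := C) (by fun_prop) ⟨by rw [h.zero]; exact zero_le, fun _ => h.zero _⟩ ?_
    rintro x ⟨h1, h2⟩
    by_cases hx : x = l
    · subst hx
      refine ⟨?_, fun h3 => absurd (lt_iff_succ_le.2 h3) (lt_irrefl _)⟩
      rw [h.succ_pos (mem_exp.2 rfl), h2 le_rfl, zero_add]
    · rw [h.succ_neg (mt mem_exp.1 hx)]
      exact ⟨h1, fun h3 => h2 (le_trans le_self_add h3)⟩
  exact (key m).1

theorem exists_mem {d m : M} (hd : 0 < cnt d m) : ∃ i < m, Mem i d := by
  by_contra hn
  have := h.mono (a := d) (b := 0) (m := m) fun i hi h1 => absurd ⟨i, hi, h1⟩ hn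
  rw [h.cnt_zero] at this
  exact absurd hd (not_lt.2 this)

/-- Pigeonhole principle. -/
theorem pigeon {p : M → M} (hp : Fn C p) {K s : M} (hK : ∀ l < K * s, p l < K) (hK0 : 0 < K) :
    ∃ t < K, s ≤ cnt (sep (K * s) fun l => p l = t) (K * s) := by
  by_contra hn
  push Not at hn
  have := h.fn
  have key : ∀ t ≤ K, cnt (sep (K * s) fun l => p l < t) (K * s) + t ≤ t * s := by
    refine Fn.ind_le (C := C) (by fun_prop) K ?_ ?_
    · have h1 := h.mono (a := sep (K * s) fun l => p l < 0) (b := 0) (m := K * s) fun i _ h1 =>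
        absurd ((mem_sep C (by fun_prop)).1 h1).2 (not_lt_zero _)
      rw [h.cnt_zero] at h1
      rw [add_zero, zero_mul]
      exact h1
    · intro t ht ih
      have h1 := h.le_add (d := sep (K * s) fun l => p l < t + 1)
        (a := sep (K * s) fun l => p l < t) (b := sep (K * s) fun l => p l = t) (m := K * s)
        fun i hi h1 => by
          rw [mem_sep C (by fun_prop)] at h1
          rw [mem_sep C (by fun_prop), mem_sep C (by fun_prop)]
          rcases lt_succ_iff_lt_or_eq.1 h1.2 with h2 | h2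
          · exact Or.inl ⟨hi, h2⟩
          · exact Or.inr ⟨hi, h2⟩
      have h2 := hn t ht
      generalize cnt (sep (K * s) fun l => p l < t + 1) (K * s) = A at *
      generalize cnt (sep (K * s) fun l => p l < t) (K * s) = B at *
      generalize cnt (sep (K * s) fun l => p l = t) (K * s) = D at *
      clear hn hK
      zify at *
      linarith
  have h1 := key K le_rfl
  rw [h.cnt_full fun i hi => (mem_sep C (by fun_prop)).2 ⟨hi, hK i hi⟩] at h1
  clear key hn hK
  zify at *
  linarith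

end IsCnt

/-- Recursion on initial segments: membership of `v` is decided from the part below `v`. -/
theorem exists_setrec (C : Cls M) [Ind C] [XpIn C] {R : M → M → Prop}
    (hR : Fn C fun p : M × M => R p.1 p.2) :
    ∃ D : Set M, Fn C (fun x : M => x ∈ D) ∧ ∀ v, v ∈ D ↔ R v (cut D v) := by
  have hex : ∀ y : M, BEx (exp y) fun d => BAll y fun v => (Mem v d ↔ R v (res d v)) := by
    refine Fn.ind (C := C) (by fun_prop)
      ⟨0, exp_pos 0, fun v hv => absurd hv (not_lt_zero v)⟩ ?_
    rintro y ⟨d, -, hd⟩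
    replace hd : ∀ v < y, (Mem v d ↔ R v (res d v)) := hd
    have hP : Fn C fun v => (v < y ∧ Mem v d) ∨ (v = y ∧ R y (res d y)) := by fun_prop
    refine ⟨_, sep_lt C hP (y + 1), fun v hv => ?_⟩
    have e : res (sep (y + 1) fun v => (v < y ∧ Mem v d) ∨ (v = y ∧ R y (res d y))) v = res d v := by
      refine code_ext fun i => ?_
      rw [mem_res, mem_res, mem_sep C hP]
      refine and_congr_right fun hi => ?_
      have h1 : i < y := hi.trans_le (lt_succ_iff.1 hv)
      simp [h1, h1.ne, h1.trans (lt_add_one y)]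
    beta_reduce
    rw [e, mem_sep C hP]
    rcases lt_succ_iff_lt_or_eq.1 hv with h1 | rfl
    · rw [← hd v h1]
      simp [h1, h1.ne, hv]
    · simp
  have huniq : ∀ {d d' y y' : M}, (∀ v < y, (Mem v d ↔ R v (res d v))) →
      (∀ v < y', (Mem v d' ↔ R v (res d' v))) →
      ∀ v, Imp (v < y ∧ v < y') (Mem v d ↔ Mem v d') := by
    intro d d' y y' hd hd'
    refine Fn.strong_ind (C := C) (by fun_prop) ?_
    rintro v ih ⟨h1, h2⟩
    rw [hd v h1, hd' v h2, show res d v = res d' v from code_ext fun i => ?_]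
    rw [mem_res, mem_res]
    exact and_congr_right fun hi => ih i hi ⟨hi.trans h1, hi.trans h2⟩
  have hD : Fn C fun x : M => x ∈ {x : M | BEx (exp (x + 1)) fun d =>
      (BAll (x + 1) fun v => (Mem v d ↔ R v (res d v))) ∧ Mem x d} := by
    simp only [Set.mem_ofPred_eq]
    fun_prop
  refine ⟨_, hD, fun v => ?_⟩
  have hmem : ∀ {d y : M}, (∀ v < y, (Mem v d ↔ R v (res d v))) → ∀ x < y,
      (x ∈ {x : M | BEx (exp (x + 1)) fun d =>
        (BAll (x + 1) fun v => (Mem v d ↔ R v (res d v))) ∧ Mem x d} ↔ Mem x d) := by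
    intro d y hd x hx
    constructor
    · rintro ⟨d', -, h1, h2⟩
      exact (huniq h1 hd x ⟨lt_add_one x, hx⟩).1 h2
    · intro h2
      obtain ⟨d', h3, h1⟩ := hex (x + 1)
      exact ⟨d', h3, h1, (huniq h1 hd x ⟨lt_add_one x, hx⟩).2 h2⟩
  obtain ⟨d, -, hd⟩ := hex (v + 1)
  replace hd : ∀ x < v + 1, (Mem x d ↔ R x (res d x)) := hd
  rw [hmem hd v (lt_add_one v), hd v (lt_add_one v)]
  refine iff_of_eq (congrArg (R v) (code_ext fun i => ?_))
  rw [mem_res, (reg_of_fn C hD).mem_cut]
  exact and_congr_right fun hi => (hmem hd i (hi.trans (lt_add_one v))).symm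

end Pool.Agent.MP75f14d
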