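import Pool.Agent.MP_75f14d_lc.Ind

/-! Binary (Ackermann) coding of bounded sets. -/

namespace Pool.Agent.MP75f14d

open Classical

variable {M : Type} [Ar M] [Good M]

/-- Bit `i` of `n` is one. -/
def Mem (i n : M) : Prop :=
  BEx (n + 1) fun q => BEx (exp i) fun r => n = (2 * q + 1) * exp i + r

/-- The code of `{i < k | P i}`. -/
noncomputable def sep (k : M) (P : M → Prop) : M :=
  mu (exp k) fun n => BAll k fun i => (Mem i n ↔ P i)

/-- Restriction of a coded set to `[0, s)`. -/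
noncomputable def res (n s : M) : M := sep s fun i => Mem i n

/-- Union of two coded sets. -/
noncomputable def cup (a b : M) : M := sep (a + b) fun i => Mem i a ∨ Mem i b

/-- Bounded quantifier over the elements of a coded set. -/
def AllIn (a : M) (P : M → Prop) : Prop := BAll a fun i => Imp (Mem i a) (P i)

/-- Bounded quantifier over the elements of a coded set. -/
def ExIn (a : M) (P : M → Prop) : Prop := BEx a fun i => Mem i a ∧ P i

/-- A subset of `M` all of whose initial segments are coded. -/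
def Reg (H : Set M) : Prop := ∀ s, ∃ n, ∀ i, Mem i n ↔ i < s ∧ i ∈ H

/-- The code of `H ∩ [0, s)`, for regular `H`. -/
noncomputable def cut (H : Set M) (s : M) : M := sep s fun i => i ∈ H

section Fn
variable {C : Cls M} [XpIn C] {α : Type} [Cd M α]

@[fun_prop] theorem Fn.mem {f g : α → M} (hf : Fn C f) (hg : Fn C g) :
    Fn C fun a => Mem (f a) (g a) := by
  unfold Mem; fun_prop

@[fun_prop] theorem Fn.sep {P : α → M → Prop} {t : α → M} (ht : Fn C t)
    (h : Fn C fun p : α × M => P p.1 p.2) : Fn C fun a => sep (t a) (P a) := by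
  unfold MP75f14d.sep; fun_prop

@[fun_prop] theorem Fn.res {f g : α → M} (hf : Fn C f) (hg : Fn C g) :
    Fn C fun a => res (f a) (g a) := by
  unfold MP75f14d.res; fun_prop

@[fun_prop] theorem Fn.cup {f g : α → M} (hf : Fn C f) (hg : Fn C g) :
    Fn C fun a => cup (f a) (g a) := by
  unfold MP75f14d.cup; fun_prop

@[fun_prop] theorem Fn.allIn {P : α → M → Prop} {t : α → M} (ht : Fn C t)
    (h : Fn C fun p : α × M => P p.1 p.2) : Fn C fun a => AllIn (t a) (P a) := by
  unfold AllIn; fun_prop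

@[fun_prop] theorem Fn.exIn {P : α → M → Prop} {t : α → M} (ht : Fn C t)
    (h : Fn C fun p : α × M => P p.1 p.2) : Fn C fun a => ExIn (t a) (P a) := by
  unfold ExIn; fun_prop

end Fn

theorem exp_pos (a : M) : 0 < exp a := by
  obtain ⟨C, _, _⟩ := exists_base M
  refine Fn.ind (C := C) (P := fun a => 0 < exp a) (by fun_prop) ?_ (fun x ih => ?_) a
  · rw [exp_zero]; exact one_pos
  · rw [exp_succ]; positivity

theorem exp_add (a b : M) : exp (a + b) = exp a * exp b := by
  obtain ⟨C, _, _⟩ := exists_base M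
  refine Fn.ind (C := C) (P := fun b => exp (a + b) = exp a * exp b) (by fun_prop) ?_
    (fun x ih => ?_) b
  · rw [exp_zero, add_zero, mul_one]
  · rw [← add_assoc, exp_succ, exp_succ, ih]; ring

theorem lt_exp (a : M) : a < exp a := by
  obtain ⟨C, _, _⟩ := exists_base M
  refine Fn.ind (C := C) (P := fun a => a < exp a) (by fun_prop) ?_ (fun x ih => ?_) a
  · rw [exp_zero]; exact one_pos
  · rw [exp_succ]; zify at *; linarith [nn x]

theorem CodeX.exp_mono {a b : M} (h : a ≤ b) : exp a ≤ exp b := by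
  obtain ⟨c, rfl⟩ := exists_add_of_le h
  rw [exp_add]
  refine le_mul_of_one_le_right zero_le ?_
  simpa using lt_iff_succ_le.1 (exp_pos c)

theorem CodeX.exp_strict {a b : M} (h : a < b) : exp a < exp b := by
  have h1 := CodeX.exp_mono (lt_iff_succ_le.1 h)
  have h2 := exp_pos a
  rw [exp_succ] at h1
  zify at *; linarith

theorem exp_lt_exp {a b : M} : exp a < exp b ↔ a < b :=
  ⟨fun h => not_le.1 fun h' => not_le.2 h (CodeX.exp_mono h'), CodeX.exp_strict⟩

theorem exp_le_exp {a b : M} : exp a ≤ exp b ↔ a ≤ b := by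
  rw [← not_lt, exp_lt_exp, not_lt]

theorem CodeX.mem_iff {i n : M} : Mem i n ↔ ∃ q r, r < exp i ∧ n = (2 * q + 1) * exp i + r := by
  refine ⟨fun ⟨q, _, r, hr, e⟩ => ⟨q, r, hr, e⟩, fun ⟨q, r, hr, e⟩ => ⟨q, ?_, r, hr, e⟩⟩
  have h := exp_pos i
  rw [e]
  zify at *
  nlinarith [nn q, nn r]

theorem Mem.exp_le {i n : M} (h : Mem i n) : exp i ≤ n := by
  obtain ⟨q, r, -, rfl⟩ := CodeX.mem_iff.1 h
  zify
  nlinarith [nn q, nn r, nn (exp i)]

theorem Mem.lt {i n : M} (h : Mem i n) : i < n := lt_of_lt_of_le (lt_exp i) h.exp_le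

@[simp] theorem not_mem_zero (i : M) : ¬ Mem i 0 := fun h => not_lt_zero i h.lt

namespace CodeX

theorem lt_of_mem {i n k : M} (hn : n < exp k) (h : Mem i n) : i < k :=
  exp_lt_exp.1 (lt_of_le_of_lt h.exp_le hn)

theorem mem_div {i Q r : M} (hr : r < exp i) : Mem i (Q * exp i + r) ↔ ∃ q, Q = 2 * q + 1 := by
  rw [mem_iff]
  exact ⟨fun ⟨q, _, hr', e⟩ => ⟨q, (div_mod_unique hr hr' e).1⟩,
    fun ⟨q, e⟩ => ⟨q, r, hr, by rw [e]⟩⟩

omit [Good M] in
theorem parity (a b : M) : 2 * a ≠ 2 * b + 1 := by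
  intro h
  rcases le_or_gt a b with h' | h' <;> zify at * <;> linarith

theorem mem_add_exp {a j : M} (ha : a < exp j) (i : M) :
    Mem i (a + exp j) ↔ Mem i a ∨ i = j := by
  obtain ⟨C, _, _⟩ := exists_base M
  rcases lt_trichotomy i j with h | rfl | h
  · obtain ⟨d, rfl⟩ := exists_add_of_le (lt_iff_succ_le.1 h)
    obtain ⟨Q, r, hr, rfl⟩ := exists_div_mod C a (exp_pos i)
    have e : Q * exp i + r + exp (i + 1 + d) = (Q + 2 * exp d) * exp i + r := by
      rw [exp_add, exp_succ]; ring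
    rw [e, mem_div hr, mem_div hr, or_iff_left h.ne]
    constructor
    · rintro ⟨q, hq⟩
      obtain ⟨s, rfl | rfl⟩ := even_or_odd C Q
      · exact absurd (by rw [← hq]; ring) (parity (s + exp d) q)
      · exact ⟨s, rfl⟩
    · rintro ⟨q, rfl⟩
      exact ⟨q + exp d, by ring⟩
  · exact iff_of_true (mem_iff.2 ⟨0, a, ha, by ring⟩) (Or.inr rfl)
  · refine iff_of_false (fun hm => ?_) ?_
    · have h1 : a + exp j < exp (j + 1) := by
        rw [exp_succ]; zify at *; linarith
      exact not_le.2 h (lt_succ_iff.1 (lt_of_mem h1 hm))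
    · rintro (hm | rfl)
      · exact lt_asymm h (lt_of_mem ha hm)
      · exact lt_irrefl _ h

theorem split {n j : M} (h : n < exp (j + 1)) : n < exp j ∨ ∃ a, a < exp j ∧ n = a + exp j := by
  rcases lt_or_ge n (exp j) with h' | h'
  · exact Or.inl h'
  · obtain ⟨a, rfl⟩ := exists_add_of_le h'
    refine Or.inr ⟨a, ?_, add_comm _ _⟩
    rw [exp_succ] at h
    zify at *; linarith

theorem ext_lt (k : M) : BAll (exp k) fun a => BAll (exp k) fun b =>
    Imp (BAll k fun i => (Mem i a ↔ Mem i b)) (a = b) := by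
  obtain ⟨C, _, _⟩ := exists_base M
  refine Fn.ind (C := C) (P := fun k => BAll (exp k) fun a => BAll (exp k) fun b =>
    Imp (BAll k fun i => (Mem i a ↔ Mem i b)) (a = b)) (by fun_prop) ?_ (fun k ih => ?_) k
  · intro a ha b hb _
    rw [exp_zero] at ha hb
    apply le_antisymm <;> zify at * <;> linarith [nn a, nn b]
  · intro a ha b hb h
    have hk := h k (lt_add_one k)
    rcases split ha with ha' | ⟨a', ha', rfl⟩ <;> rcases split hb with hb' | ⟨b', hb', rfl⟩
    · exact ih a ha' b hb' fun i hi => h i (lt_trans hi (lt_add_one k))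
    · exact absurd (lt_of_mem ha' (hk.2 ((mem_add_exp hb' k).2 (Or.inr rfl)))) (lt_irrefl k)
    · exact absurd (lt_of_mem hb' (hk.1 ((mem_add_exp ha' k).2 (Or.inr rfl)))) (lt_irrefl k)
    · rw [ih a' ha' b' hb' fun i hi => ?_]
      have := h i (lt_trans hi (lt_add_one k))
      simpa only [mem_add_exp ha', mem_add_exp hb', or_iff_left hi.ne] using this

theorem exists_code_lt (C : Cls M) [Ind C] [XpIn C] {P : M → Prop} (hP : Fn C P) (k : M) :
    ∃ n, n < exp k ∧ ∀ i, Mem i n ↔ i < k ∧ P i := by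
  have : BEx (exp k) fun n => BAll k fun i => (Mem i n ↔ P i) := by
    refine Fn.ind (C := C) (P := fun k => BEx (exp k) fun n => BAll k fun i => (Mem i n ↔ P i))
      (by fun_prop) ⟨0, exp_pos 0, fun i hi => absurd hi (not_lt_zero i)⟩ ?_ k
    rintro k ⟨n, hn, h⟩
    by_cases hk : P k
    · refine ⟨n + exp k, ?_, fun i hi => ?_⟩
      · rw [exp_succ]; zify at *; linarith
      · beta_reduce
        rw [mem_add_exp hn]
        rcases lt_succ_iff_lt_or_eq.1 hi with hi' | rfl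
        · rw [or_iff_left hi'.ne]; exact h i hi'
        · exact iff_of_true (Or.inr rfl) hk
    · refine ⟨n, lt_trans hn (exp_lt_exp.2 (lt_add_one k)), fun i hi => ?_⟩
      rcases lt_succ_iff_lt_or_eq.1 hi with hi' | rfl
      · exact h i hi'
      · exact iff_of_false (fun hm => lt_irrefl _ (lt_of_mem hn hm)) hk
  obtain ⟨n, hn, h⟩ := this
  exact ⟨n, hn, fun i => ⟨fun hm => ⟨lt_of_mem hn hm, (h i (lt_of_mem hn hm)).1 hm⟩,
    fun hi => (h i hi.1).2 hi.2⟩⟩

end CodeX

theorem code_ext {a b : M} (h : ∀ i, Mem i a ↔ Mem i b) : a = b :=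
  CodeX.ext_lt (a + b) a (lt_of_lt_of_le (lt_exp a) (CodeX.exp_mono le_self_add)) b
    (lt_of_lt_of_le (lt_exp b) (CodeX.exp_mono le_add_self)) fun i _ => h i

theorem lt_exp_iff {n k : M} : n < exp k ↔ ∀ i, Mem i n → i < k := by
  refine ⟨fun hn i hi => CodeX.lt_of_mem hn hi, fun h => ?_⟩
  obtain ⟨C, _, _⟩ := exists_base M
  obtain ⟨m, hm, e⟩ := CodeX.exists_code_lt C (P := fun i => Mem i n) (by fun_prop) k
  rwa [← code_ext (a := m) (b := n) fun i => by
    rw [e]; exact ⟨fun h' => h'.2, fun h' => ⟨h i h', h'⟩⟩]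

@[simp] theorem mem_exp {i a : M} : Mem i (exp a) ↔ i = a := by
  simpa using CodeX.mem_add_exp (exp_pos a) i

/-- Bounded comprehension for recursive predicates. -/
theorem exists_code (C : Cls M) [Ind C] [XpIn C] {P : M → Prop} (hP : Fn C P) (k : M) :
    ∃ n, ∀ i, Mem i n ↔ i < k ∧ P i :=
  let ⟨n, _, h⟩ := CodeX.exists_code_lt C hP k; ⟨n, h⟩

/-- `sep` is correct as soon as a code exists. -/
theorem mem_sep_of_exists {P : M → Prop} {k : M} (h : ∃ n, ∀ i, Mem i n ↔ i < k ∧ P i) (i : M) :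
    Mem i (sep k P) ↔ i < k ∧ P i := by
  obtain ⟨n, hn⟩ := h
  have h1 : n < exp k := lt_exp_iff.2 fun i hi => ((hn i).1 hi).1
  have : sep k P = n := by
    refine mu_eq_of h1 (fun i hi => (hn i).trans (and_iff_right hi)) fun z hz hz' => hz.ne ?_
    refine code_ext fun i => ?_
    rw [hn]
    exact ⟨fun hm => have hi := lt_exp_iff.1 (lt_trans hz h1) i hm; ⟨hi, (hz' i hi).1 hm⟩,
      fun hi => (hz' i hi.1).2 hi.2⟩
  rw [this, hn]

theorem mem_sep (C : Cls M) [Ind C] [XpIn C] {P : M → Prop} (hP : Fn C P) {k i : M} :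
    Mem i (sep k P) ↔ i < k ∧ P i := mem_sep_of_exists (exists_code C hP k) i

theorem sep_lt (C : Cls M) [Ind C] [XpIn C] {P : M → Prop} (hP : Fn C P) (k : M) :
    sep k P < exp k := lt_exp_iff.2 fun _ h => ((mem_sep C hP).1 h).1

@[simp] theorem mem_res {i n s : M} : Mem i (res n s) ↔ i < s ∧ Mem i n := by
  obtain ⟨C, _, _⟩ := exists_base M
  exact mem_sep C (by fun_prop)

@[simp] theorem mem_cup {i a b : M} : Mem i (cup a b) ↔ Mem i a ∨ Mem i b := by
  obtain ⟨C, _, _⟩ := exists_base M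
  rw [cup, mem_sep C (by fun_prop)]
  refine ⟨fun h => h.2, fun h => ⟨?_, h⟩⟩
  rcases h with h | h
  · exact lt_of_lt_of_le h.lt le_self_add
  · exact lt_of_lt_of_le h.lt le_add_self

theorem res_lt (n s : M) : res n s < exp s := lt_exp_iff.2 fun _ h => (mem_res.1 h).1

theorem res_res {n s t : M} (h : s ≤ t) : res (res n t) s = res n s :=
  code_ext fun i => by
    simp only [mem_res]
    exact ⟨fun h' => ⟨h'.1, h'.2.2⟩, fun h' => ⟨h'.1, lt_of_lt_of_le h'.1 h, h'.2⟩⟩

theorem res_of_lt {n s : M} (h : n < exp s) : res n s = n :=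
  code_ext fun i => by
    rw [mem_res]; exact ⟨fun h' => h'.2, fun h' => ⟨lt_exp_iff.1 h i h', h'⟩⟩

@[simp] theorem allIn_iff {a : M} {P : M → Prop} : AllIn a P ↔ ∀ i, Mem i a → P i :=
  ⟨fun h i hi => h i hi.lt hi, fun h i _ hi => h i hi⟩

@[simp] theorem exIn_iff {a : M} {P : M → Prop} : ExIn a P ↔ ∃ i, Mem i a ∧ P i :=
  ⟨fun ⟨i, _, h⟩ => ⟨i, h⟩, fun ⟨i, h⟩ => ⟨i, h.1.lt, h⟩⟩

theorem Reg.mem_cut {H : Set M} (h : Reg H) {i s : M} : Mem i (cut H s) ↔ i < s ∧ i ∈ H :=
  mem_sep_of_exists (h s) i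

theorem Reg.cut_lt {H : Set M} (h : Reg H) (s : M) : cut H s < exp s :=
  lt_exp_iff.2 fun _ hi => (h.mem_cut.1 hi).1

theorem Reg.res_cut {H : Set M} (h : Reg H) {s t : M} (hst : s ≤ t) :
    res (cut H t) s = cut H s :=
  code_ext fun i => by
    simp only [mem_res, h.mem_cut]
    exact ⟨fun h' => ⟨h'.1, h'.2.2⟩, fun h' => ⟨h'.1, lt_of_lt_of_le h'.1 hst, h'.2⟩⟩

theorem reg_of_fn (C : Cls M) [Ind C] [XpIn C] {H : Set M} (h : Fn C fun x : M => x ∈ H) :
    Reg H := fun s => exists_code C h s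

end Pool.Agent.MP75f14d
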