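import Pool.Agent.MP_75f14d_lc.Sem

/-! The completeness theorem, with countable models. -/

namespace Pool.Agent.MP75f14d

namespace CompleteX

/-- A code of a term. -/
def encT : Tm → ℕ
  | .var n => Nat.pair 0 n
  | .zero => Nat.pair 1 0
  | .one => Nat.pair 2 0
  | .add t u => Nat.pair 3 (Nat.pair (encT t) (encT u))
  | .mul t u => Nat.pair 4 (Nat.pair (encT t) (encT u))

theorem encT_inj (t : Tm) : ∀ u, encT t = encT u → t = u := by
  induction t with
  | add t u h1 h2 =>
    intro v h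
    cases v <;> simp only [encT, Nat.pair_eq_pair] at h <;> try omega
    rw [h1 _ h.2.1, h2 _ h.2.2]
  | mul t u h1 h2 =>
    intro v h
    cases v <;> simp only [encT, Nat.pair_eq_pair] at h <;> try omega
    rw [h1 _ h.2.1, h2 _ h.2.2]
  | var n =>
    intro v h
    cases v <;> simp only [encT, Nat.pair_eq_pair] at h <;> try omega
    rw [h.2]
  | zero => intro v h; cases v <;> simp only [encT, Nat.pair_eq_pair] at h <;> first | rfl | omega
  | one => intro v h; cases v <;> simp only [encT, Nat.pair_eq_pair] at h <;> first | rfl | omega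

/-- A code of a formula. -/
def encF : Fm → ℕ
  | .eq t u => Nat.pair 0 (Nat.pair (encT t) (encT u))
  | .lt t u => Nat.pair 1 (Nat.pair (encT t) (encT u))
  | .mem t k => Nat.pair 2 (Nat.pair (encT t) k)
  | .bot => Nat.pair 3 0
  | .imp f g => Nat.pair 4 (Nat.pair (encF f) (encF g))
  | .allN f => Nat.pair 5 (encF f)
  | .allS f => Nat.pair 6 (encF f)

theorem encF_inj (f : Fm) : ∀ g, encF f = encF g → f = g := by
  induction f with
  | eq t u =>
    intro v h
    cases v <;> simp only [encF, Nat.pair_eq_pair] at h <;> try omega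
    rw [encT_inj _ _ h.2.1, encT_inj _ _ h.2.2]
  | lt t u =>
    intro v h
    cases v <;> simp only [encF, Nat.pair_eq_pair] at h <;> try omega
    rw [encT_inj _ _ h.2.1, encT_inj _ _ h.2.2]
  | mem t k =>
    intro v h
    cases v <;> simp only [encF, Nat.pair_eq_pair] at h <;> try omega
    rw [encT_inj _ _ h.2.1, h.2.2]
  | bot => intro v h; cases v <;> simp only [encF, Nat.pair_eq_pair] at h <;> first | rfl | omega
  | imp f g h1 h2 =>
    intro v h
    cases v <;> simp only [encF, Nat.pair_eq_pair] at h <;> try omega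
    rw [h1 _ h.2.1, h2 _ h.2.2]
  | allN f h1 =>
    intro v h
    cases v <;> simp only [encF, Nat.pair_eq_pair] at h <;> try omega
    rw [h1 _ h.2]
  | allS f h1 =>
    intro v h
    cases v <;> simp only [encF, Nat.pair_eq_pair] at h <;> try omega
    rw [h1 _ h.2]

theorem countT : Countable Tm := ⟨encT, fun a b => encT_inj a b⟩
theorem countF : Countable Fm := ⟨encF, fun a b => encF_inj a b⟩

theorem tsub_sub (t : Tm) (r r' : ℕ → Tm) : (t.sub r).sub r' = t.sub fun n => (r n).sub r' := by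
  induction t with
  | add t u h1 h2 => simp only [Tm.sub, h1, h2]
  | mul t u h1 h2 => simp only [Tm.sub, h1, h2]
  | _ => rfl

theorem tsub_var (t : Tm) : t.sub .var = t := by
  induction t with
  | add t u h1 h2 => simp only [Tm.sub, h1, h2]
  | mul t u h1 h2 => simp only [Tm.sub, h1, h2]
  | _ => rfl

theorem up_cons (t a : Tm) (r : ℕ → Tm) : t.up.sub (cons a r) = t.sub r := tsub_sub _ _ _

theorem up_inst (t a : Tm) : t.up.sub (cons a .var) = t := (up_cons _ _ _).trans (tsub_var t)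

theorem sub_sub (f : Fm) : ∀ (r r' : ℕ → Tm) (p p' : ℕ → ℕ),
    (f.sub r p).sub r' p' = f.sub (fun n => (r n).sub r') fun n => p' (p n) := by
  induction f with
  | imp f g h1 h2 => intro r r' p p'; simp only [Fm.sub, h1, h2]
  | allN f h =>
    intro r r' p p'
    simp only [Fm.sub, h]
    congr 2
    funext n
    cases n with
    | zero => rfl
    | succ n => exact (tsub_sub _ _ _).trans (tsub_sub (r n) r' fun n => .var (n + 1)).symm
  | allS f h =>
    intro r r' p p'
    simp only [Fm.sub, h]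
    congr 2
    funext n
    cases n <;> rfl
  | bot => intro r r' p p'; rfl
  | _ => intro r r' p p'; simp only [Fm.sub, tsub_sub]

theorem sub_var (f : Fm) : f.sub .var id = f := by
  have e1 : liftN .var = .var := by funext n; cases n <;> rfl
  have e2 : liftS id = id := by funext n; cases n <;> rfl
  induction f with
  | imp f g h1 h2 => simp only [Fm.sub, h1, h2]
  | allN f h => simp only [Fm.sub, e1, h]
  | allS f h => simp only [Fm.sub, e2, h]
  | bot => rfl
  | _ => simp only [Fm.sub, tsub_var, id]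

theorem tbound (t : Tm) : ∃ b, ∀ r r' : ℕ → Tm, (∀ n < b, r n = r' n) → t.sub r = t.sub r' := by
  induction t with
  | var n => exact ⟨n + 1, fun r r' h => h n n.lt_succ_self⟩
  | zero => exact ⟨0, fun _ _ _ => rfl⟩
  | one => exact ⟨0, fun _ _ _ => rfl⟩
  | add t u h1 h2 =>
    obtain ⟨a, ha⟩ := h1
    obtain ⟨b, hb⟩ := h2
    exact ⟨a + b, fun r r' h => by
      rw [Tm.sub, Tm.sub, ha r r' fun n hn => h n (by omega), hb r r' fun n hn => h n (by omega)]⟩
  | mul t u h1 h2 =>
    obtain ⟨a, ha⟩ := h1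
    obtain ⟨b, hb⟩ := h2
    exact ⟨a + b, fun r r' h => by
      rw [Tm.sub, Tm.sub, ha r r' fun n hn => h n (by omega), hb r r' fun n hn => h n (by omega)]⟩

theorem bound (f : Fm) : ∃ b, ∀ (r r' : ℕ → Tm) (p p' : ℕ → ℕ), (∀ n < b, r n = r' n) →
    (∀ n < b, p n = p' n) → f.sub r p = f.sub r' p' := by
  induction f with
  | eq t u =>
    obtain ⟨a, ha⟩ := tbound t
    obtain ⟨b, hb⟩ := tbound u
    exact ⟨a + b, fun r r' p p' h _ => by
      rw [Fm.sub, Fm.sub, ha r r' fun n hn => h n (by omega), hb r r' fun n hn => h n (by omega)]⟩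
  | lt t u =>
    obtain ⟨a, ha⟩ := tbound t
    obtain ⟨b, hb⟩ := tbound u
    exact ⟨a + b, fun r r' p p' h _ => by
      rw [Fm.sub, Fm.sub, ha r r' fun n hn => h n (by omega), hb r r' fun n hn => h n (by omega)]⟩
  | mem t k =>
    obtain ⟨a, ha⟩ := tbound t
    exact ⟨a + k + 1, fun r r' p p' h h' => by
      rw [Fm.sub, Fm.sub, ha r r' fun n hn => h n (by omega), h' k (by omega)]⟩
  | bot => exact ⟨0, fun _ _ _ _ _ _ => rfl⟩
  | imp f g h1 h2 =>
    obtain ⟨a, ha⟩ := h1
    obtain ⟨b, hb⟩ := h2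
    exact ⟨a + b, fun r r' p p' h h' => by
      rw [Fm.sub, Fm.sub, ha r r' p p' (fun n hn => h n (by omega)) fun n hn => h' n (by omega),
        hb r r' p p' (fun n hn => h n (by omega)) fun n hn => h' n (by omega)]⟩
  | allN f h1 =>
    obtain ⟨a, ha⟩ := h1
    refine ⟨a, fun r r' p p' h h' => congrArg Fm.allN (ha _ _ _ _ (fun n hn => ?_) h')⟩
    cases n with
    | zero => rfl
    | succ n => exact congrArg Tm.up (h n (by omega))
  | allS f h1 =>
    obtain ⟨a, ha⟩ := h1
    refine ⟨a, fun r r' p p' h h' => congrArg Fm.allS (ha _ _ _ _ h fun n hn => ?_)⟩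
    cases n with
    | zero => rfl
    | succ n => exact congrArg (· + 1) (h' n (by omega))

variable {T : Set Fm}

theorem freshN (d g : Fm) :
    ∃ x, Prov T (d.imp (g.instN (.var x))) → Prov T (d.imp g.allN) := by
  obtain ⟨a, ha⟩ := bound d
  obtain ⟨b, hb⟩ := bound g
  refine ⟨a + b, fun h => Prov.genN ?_⟩
  have h1 := Prov.subst (fun y => if y = a + b then .var 0 else .var (y + 1)) id h
  have e : (g.instN (.var (a + b))).sub
      (fun y => if y = a + b then .var 0 else .var (y + 1)) id = g := by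
    refine (sub_sub _ _ _ _ _).trans ((hb _ .var _ id (fun n hn => ?_) fun _ _ => rfl).trans
      (sub_var g))
    cases n with
    | zero => exact if_pos rfl
    | succ n => exact if_neg (by omega)
  rw [Fm.sub, ha _ (fun n => .var (n + 1)) id id (fun n hn => if_neg (by omega)) fun _ _ => rfl,
    e] at h1
  exact h1

theorem freshS (d g : Fm) : ∃ x, Prov T (d.imp (g.instS x)) → Prov T (d.imp g.allS) := by
  obtain ⟨a, ha⟩ := bound d
  obtain ⟨b, hb⟩ := bound g
  refine ⟨a + b, fun h => Prov.genS ?_⟩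
  have h1 := Prov.subst .var (fun y => if y = a + b then 0 else y + 1) h
  have e : (g.instS (a + b)).sub .var (fun y => if y = a + b then 0 else y + 1) = g := by
    refine (sub_sub _ _ _ _ _).trans ((hb _ .var _ id (fun _ _ => rfl) fun n hn => ?_).trans
      (sub_var g))
    cases n with
    | zero => exact if_pos rfl
    | succ n => exact if_neg (show ¬ n = a + b by omega)
  rw [Fm.sub, ha _ .var _ (fun n => n + 1) (fun _ _ => rfl) fun n hn => if_neg (by omega),
    e] at h1
  exact h1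

theorem imp_self (a : Fm) : Prov T (a.imp a) :=
  ((Prov.s a (a.imp a) a).mp (.k _ _)).mp (.k _ _)

/-- Propositional derivations from hypotheses. -/
inductive Der (T : Set Fm) (L : List Fm) : Fm → Prop
  | thm {f : Fm} : Prov T f → Der T L f
  | hyp {f : Fm} : f ∈ L → Der T L f
  | mp {f g : Fm} : Der T L (f.imp g) → Der T L f → Der T L g

theorem Der.ded {L : List Fm} {a b : Fm} (h : Der T (a :: L) b) : Der T L (a.imp b) := by
  induction h with
  | thm h => exact .thm ((Prov.k _ _).mp h)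
  | hyp h =>
    rcases List.mem_cons.1 h with rfl | h
    · exact .thm (imp_self _)
    · exact .mp (.thm (.k _ _)) (.hyp h)
  | mp _ _ h1 h2 => exact .mp (.mp (.thm (.s _ _ _)) h1) h2

theorem Der.prov {b : Fm} (h : Der T [] b) : Prov T b := by
  induction h with
  | thm h => exact h
  | hyp h => cases h
  | mp _ _ h1 h2 => exact h1.mp h2

theorem Der.h0 {L : List Fm} {a : Fm} : Der T (a :: L) a := .hyp (by simp)
theorem Der.h1 {L : List Fm} {a b : Fm} : Der T (b :: a :: L) a := .hyp (by simp)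
theorem Der.h2 {L : List Fm} {a b c : Fm} : Der T (c :: b :: a :: L) a := .hyp (by simp)

theorem Der.contra {L : List Fm} {a : Fm} (h : Der T (a.neg :: L) .bot) : Der T L a :=
  .mp (.thm (.dne a)) h.ded

theorem and_l (a b : Fm) : Prov T ((a.and b).imp a) :=
  (Der.contra (Der.mp .h1 (Der.mp .h2 .h1).ded.ded)).ded.prov

theorem and_r (a b : Fm) : Prov T ((a.and b).imp b) :=
  (Der.contra (Der.mp .h1 Der.h1.ded)).ded.prov

theorem curry {a b c : Fm} (h : Prov T ((a.and b).imp c)) : Prov T (a.imp (b.imp c)) :=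
  (Der.mp (.thm h) (Der.mp (.mp .h0 .h2) .h1).ded).ded.ded.prov

theorem ptrans {a b c : Fm} (h : Prov T (a.imp b)) (h' : Prov T (b.imp c)) : Prov T (a.imp c) :=
  (Der.mp (.thm h') (.mp (.thm h) .h0)).ded.prov

theorem pmp {a b c : Fm} (h : Prov T (a.imp (b.imp c))) (h' : Prov T (a.imp b)) :
    Prov T (a.imp c) := ((Prov.s _ _ _).mp h).mp h'

/-- `c` decides `f`, with witnesses. -/
def Dec (T : Set Fm) (c f : Fm) : Prop :=
  Prov T (c.imp f) ∨ Prov T (c.imp f.neg) ∧
    (∀ g, f = .allN g → ∃ t, Prov T (c.imp (g.instN t).neg)) ∧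
    ∀ g, f = .allS g → ∃ k, Prov T (c.imp (g.instS k).neg)

theorem ext_step {c : Fm} (hc : ¬ Prov T c.neg) (f : Fm) :
    ∃ c', ¬ Prov T c'.neg ∧ Prov T (c'.imp c) ∧ Dec T c' f := by
  by_cases h : Prov T (c.imp f)
  · exact ⟨c, hc, imp_self c, Or.inl h⟩
  have key : ∀ {a b : Fm}, ¬ Prov T (a.imp b) → ¬ Prov T (a.and b.neg).neg := fun h h' =>
    h (ptrans (curry h') (.dne _))
  by_cases h1 : ∃ g, f = .allN g
  · obtain ⟨g, rfl⟩ := h1
    obtain ⟨x, hx⟩ := freshN (T := T) c g
    refine ⟨_, key fun h' => h (hx h'), and_l _ _, Or.inr ⟨?_, ?_, fun _ e => by cases e⟩⟩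
    · exact ptrans (and_r _ _) (Der.mp .h1 (.mp (.thm (.elimN _ _)) .h0)).ded.ded.prov
    · rintro _ ⟨⟩
      exact ⟨_, and_r _ _⟩
  by_cases h2 : ∃ g, f = .allS g
  · obtain ⟨g, rfl⟩ := h2
    obtain ⟨x, hx⟩ := freshS (T := T) c g
    refine ⟨_, key fun h' => h (hx h'), and_l _ _, Or.inr ⟨?_, (fun _ e => by cases e), ?_⟩⟩
    · exact ptrans (and_r _ _) (Der.mp .h1 (.mp (.thm (.elimS _ _)) .h0)).ded.ded.prov
    · rintro _ ⟨⟩
      exact ⟨_, and_r _ _⟩
  exact ⟨_, key h, and_l _ _, Or.inr ⟨and_r _ _, fun g e => absurd ⟨g, e⟩ h1,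
    fun g e => absurd ⟨g, e⟩ h2⟩⟩

/-- A complete Henkin theory. -/
structure Hk (T : Set Fm) (G : Fm → Prop) : Prop where
  thm : ∀ {f}, Prov T f → G f
  mp : ∀ {f g}, G (f.imp g) → G f → G g
  con : ¬ G .bot
  dec : ∀ f, G f ∨ G f.neg
  witN : ∀ g : Fm, (∀ t, G (g.instN t)) → G g.allN
  witS : ∀ g : Fm, (∀ k, G (g.instS k)) → G g.allS

theorem exists_hk {c : Fm} (hc : ¬ Prov T c.neg) : ∃ G, Hk T G ∧ G c := by
  have := countF
  have : Nonempty Fm := ⟨.bot⟩
  obtain ⟨e, he⟩ := exists_surjective_nat Fm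
  choose nx h1 h2 h3 using fun (c : {c : Fm // ¬ Prov T c.neg}) f => ext_step c.2 f
  let s : ℕ → {c : Fm // ¬ Prov T c.neg} := fun n =>
    Nat.rec ⟨c, hc⟩ (fun n c => ⟨nx c (e n), h1 c _⟩) n
  have mono : ∀ {m n}, m ≤ n → ∀ {f}, Prov T ((s m).1.imp f) → Prov T ((s n).1.imp f) := by
    intro m n h f hf
    induction n, h using Nat.le_induction with
    | base => exact hf
    | succ n _ ih => exact ptrans (h2 (s n) _) ih
  have mp : ∀ {f g}, (∃ n, Prov T ((s n).1.imp (f.imp g))) → (∃ n, Prov T ((s n).1.imp f)) →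
      ∃ n, Prov T ((s n).1.imp g) := fun ⟨m, hm⟩ ⟨n, hn⟩ =>
    ⟨m + n, pmp (mono (Nat.le_add_right _ _) hm) (mono (Nat.le_add_left _ _) hn)⟩
  have con : ¬ ∃ n, Prov T ((s n).1.imp .bot) := fun ⟨n, hn⟩ => (s n).2 hn
  have dec : ∀ f, ∃ n, Dec T (s n).1 f := fun f => by
    obtain ⟨n, rfl⟩ := he f
    exact ⟨n + 1, h3 (s n) _⟩
  refine ⟨fun f => ∃ n, Prov T ((s n).1.imp f), ⟨fun h => ⟨0, (Prov.k _ _).mp h⟩, mp, con,
    fun f => ?_, fun g h => ?_, fun g h => ?_⟩, 0, imp_self c⟩
  · obtain ⟨n, hn⟩ := dec f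
    exact hn.imp (fun h => ⟨n, h⟩) fun h => ⟨n, h.1⟩
  · obtain ⟨n, hn | hn⟩ := dec g.allN
    · exact ⟨n, hn⟩
    · obtain ⟨t, ht⟩ := hn.2.1 g rfl
      exact absurd (mp ⟨n, ht⟩ (h t)) con
  · obtain ⟨n, hn | hn⟩ := dec g.allS
    · exact ⟨n, hn⟩
    · obtain ⟨t, ht⟩ := hn.2.2 g rfl
      exact absurd (mp ⟨n, ht⟩ (h t)) con

namespace Hk

variable {G : Fm → Prop} (H : Hk T G)
include H

theorem imp_iff {f g : Fm} : G (f.imp g) ↔ (G f → G g) := by
  refine ⟨H.mp, fun h => ?_⟩
  rcases H.dec f with h1 | h1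
  · exact H.mp (H.thm (.k _ _)) (h h1)
  · exact H.mp (H.thm (Der.contra (Der.mp .h2 .h1)).ded.ded.prov) h1

theorem repl (f : Fm) {t u : Tm} (h : G (.eq t u)) (h' : G (f.instN t)) : G (f.instN u) :=
  H.mp (H.mp (H.thm (.repl f t u)) h) h'

theorem repl2 (F : Tm → Tm → Fm) (hF : ∀ a b r, (F a b).sub r id = F (a.sub r) (b.sub r))
    {t t' u u' : Tm} (h1 : G (.eq t t')) (h2 : G (.eq u u')) (h : G (F t u)) : G (F t' u') := by
  have h3 := H.repl (F (.var 0) u.up) h1
  have h4 := H.repl (F t'.up (.var 0)) h2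
  simp only [Fm.instN, hF, up_inst] at h3 h4
  exact h4 (h3 h)

theorem eq2 {t t' u u' : Tm} (h1 : G (.eq t t')) (h2 : G (.eq u u')) (h : G (.eq t u)) :
    G (.eq t' u') := H.repl2 .eq (fun _ _ _ => rfl) h1 h2 h

theorem rfl' (t : Tm) : G (.eq t t) := H.thm (.refl t)

theorem symm {t u : Tm} (h : G (.eq t u)) : G (.eq u t) := H.eq2 h (H.rfl' t) (H.rfl' t)

theorem op (o : Tm → Tm → Tm) (ho : ∀ a b r, (o a b).sub r = o (a.sub r) (b.sub r))
    {t t' u u' : Tm} (h1 : G (.eq t t')) (h2 : G (.eq u u')) : G (.eq (o t u) (o t' u')) := by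
  have h3 := H.repl (.eq (o t u).up (o (.var 0) u.up)) h1
  have h4 := H.repl (.eq (o t u).up (o t'.up (.var 0))) h2
  simp only [Fm.instN, Fm.sub, up_inst, ho (.var 0), ho t'.up] at h3 h4
  exact h4 (h3 (H.rfl' _))

/-- Provable equality. -/
def st : Setoid Tm :=
  ⟨fun t u => G (.eq t u), H.rfl', H.symm, fun h h' => H.eq2 (H.rfl' _) h' h⟩

theorem out (t : Tm) : G (.eq (Quotient.mk H.st t).out t) := Quotient.mk_out (s := H.st) t

/-- The term model. -/
noncomputable def model : Str where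
  N := Quotient H.st
  S := ℕ
  zero := Quotient.mk _ .zero
  one := Quotient.mk _ .one
  add a b := Quotient.mk _ (.add a.out b.out)
  mul a b := Quotient.mk _ (.mul a.out b.out)
  lt a b := G (.lt a.out b.out)
  mem a k := G (.mem a.out k)

theorem val (r : ℕ → Tm) (t : Tm) :
    H.model.val (fun n => Quotient.mk H.st (r n)) t = Quotient.mk H.st (t.sub r) := by
  induction t with
  | add t u h1 h2 =>
    show H.model.add (H.model.val _ t) (H.model.val _ u) = _
    rw [h1, h2]
    exact Quotient.sound (H.op .add (fun _ _ _ => rfl) (H.out _) (H.out _))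
  | mul t u h1 h2 =>
    show H.model.mul (H.model.val _ t) (H.model.val _ u) = _
    rw [h1, h2]
    exact Quotient.sound (H.op .mul (fun _ _ _ => rfl) (H.out _) (H.out _))
  | _ => rfl

theorem truth (f : Fm) : ∀ (r : ℕ → Tm) (p : ℕ → ℕ),
    H.model.Sat f (fun n => Quotient.mk H.st (r n)) p ↔ G (f.sub r p) := by
  induction f with
  | eq t u =>
    intro r p
    show H.model.val _ t = H.model.val _ u ↔ _
    rw [H.val, H.val]
    exact Quotient.eq (r := H.st)
  | lt t u =>
    intro r p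
    show H.model.lt (H.model.val _ t) (H.model.val _ u) ↔ _
    rw [H.val, H.val]
    exact ⟨H.repl2 .lt (fun _ _ _ => rfl) (H.out _) (H.out _),
      H.repl2 .lt (fun _ _ _ => rfl) (H.symm (H.out _)) (H.symm (H.out _))⟩
  | mem t k =>
    intro r p
    show H.model.mem (H.model.val _ t) (p k) ↔ _
    rw [H.val]
    exact ⟨H.repl (.mem (.var 0) (p k)) (H.out _), H.repl (.mem (.var 0) (p k)) (H.symm (H.out _))⟩
  | bot => exact fun r p => ⟨False.elim, H.con⟩
  | imp f g h1 h2 =>
    intro r p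
    show (H.model.Sat f _ _ → H.model.Sat g _ _) ↔ _
    rw [h1, h2, Fm.sub, H.imp_iff]
  | allN f h =>
    intro r p
    have e : ∀ t, H.model.Sat f (cons (Quotient.mk H.st t) fun n => Quotient.mk H.st (r n)) p ↔
        G ((f.sub (liftN r) p).instN t) := fun t => by
      have e1 : (fun n => (liftN r n).sub (cons t .var)) = cons t r := by
        funext n
        cases n with
        | zero => rfl
        | succ n => exact up_inst _ _
      have e2 : (cons (Quotient.mk H.st t) fun n => Quotient.mk H.st (r n)) =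
          fun n => Quotient.mk H.st (cons t r n) := by
        funext n
        cases n <;> rfl
      rw [Fm.instN, sub_sub, e1]
      exact e2 ▸ h (cons t r) p
    refine ⟨fun h' => H.witN _ fun t => (e t).1 (h' _), fun h' a => ?_⟩
    induction a using Quotient.inductionOn with
    | h t => exact (e t).2 (H.mp (H.thm (.elimN _ t)) h')
  | allS f h =>
    intro r p
    have e : ∀ k : ℕ, H.model.Sat f (fun n => Quotient.mk H.st (r n)) (cons k p) ↔
        G ((f.sub r (liftS p)).instS k) := fun k => by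
      have e1 : (fun n => cons k id (liftS p n)) = cons k p := by
        funext n
        cases n <;> rfl
      rw [Fm.instS, sub_sub, e1, funext fun n => tsub_var (r n)]
      exact h r (cons k p)
    exact ⟨fun h' => H.witS _ fun k => (e k).1 (h' _),
      fun h' k => (e k).2 (H.mp (H.thm (.elimS _ k)) h')⟩

end Hk

end CompleteX

theorem complete {T : Set Fm} {f : Fm} (h : ¬ Prov T f) :
    ∃ A : Str, Countable A.N ∧ A.Models T ∧ ∃ v w, ¬ A.Sat f v w := by
  obtain ⟨G, H, hG⟩ := CompleteX.exists_hk (T := T) (c := f.neg) fun h' => h ((Prov.dne f).mp h')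
  have := CompleteX.countT
  refine ⟨H.model, inferInstanceAs (Countable (Quotient H.st)), fun g hg v w => ?_,
    fun n => Quotient.mk H.st (.var n), id, fun h' => ?_⟩
  · have := (H.truth g (fun n => Quotient.out (s := H.st) (v n)) w).2 (H.thm (.subst _ _ (.ax hg)))
    rwa [funext fun n => Quotient.out_eq (s := H.st) (v n)] at this
  · have := (H.truth f .var id).1 h'
    rw [CompleteX.sub_var] at this
    exact H.con (H.mp hG this)

end Pool.Agent.MP75f14d
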