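import Pool.Agent.MP_75f14d_lc.Code

/-! Tame finite homogeneous sets and covers of the tail. -/

namespace Pool.Agent.MP75f14d

variable {M : Type} [Ar M] [Good M]

/-- `hit e s F`: the index `e` has entered the jump of the coded set `F` by stage `s`. -/
structure HitOK (hit : M → M → M → Prop) : Prop where
  mono : ∀ {e s t F}, s ≤ t → hit e s F → hit e t F
  loc : ∀ {e s F G}, (∀ i < s, Mem i F ↔ Mem i G) → hit e s F → hit e s G

variable (col : M → M → Prop) (hit : M → M → M → Prop)

/-- The coded set `G` is homogeneous of colour `j`. -/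
def Hom (j : Prop) (G : M) : Prop :=
  AllIn G fun u => AllIn G fun v => Imp (u < v) (col u v ↔ j)

/-- `z < y` are consecutive elements of the coded set `d`. -/
def Consec (d z y : M) : Prop :=
  Mem z d ∧ Mem y d ∧ z < y ∧ BAll y fun w => Imp (z < w) (¬ Mem w d)

/-- `F` is homogeneous of colour `j`, and for consecutive scales `z < y` of `d` with label `j`,
`F` meets `[z, y)` and no index below `z` enters the jump of `F` between stages `y` and `n`. -/
def Tame (j : Prop) (F L d n : M) : Prop :=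
  Hom col j F ∧ AllIn d fun z => AllIn d fun y => Imp (Consec d z y) (Imp (Mem z L ↔ j)
    ((ExIn F fun v => z ≤ v ∧ v < y) ∧ BAll z fun e => Imp (hit e n F) (hit e y F)))

/-- All `j`-homogeneous extensions of `F` by elements of `Z` are tame. -/
def SideOK (j : Prop) (F L d n Z : M) : Prop :=
  BAll (exp n) fun G => Imp (AllIn G fun v => Mem v Z)
    (Imp (Hom col j G) (Tame col hit j (cup F G) L d n))

/-- The coded set `Z` is a reservoir, up to stage `n`, for some stems below `x`. -/
def Allowed (d x n Z : M) : Prop :=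
  BEx (exp x) fun F0 => BEx (exp x) fun F1 => BEx (exp x) fun L =>
    SideOK col hit False F0 L d n Z ∧ SideOK col hit True F1 L d n Z

/-- The class `t` of the cover `f` of `[x, n)`. -/
noncomputable def cls (f t x n : M) : M := sep n fun v => x ≤ v ∧ Mem (pair v t) f

/-- `[x, n)` is covered by `K` reservoirs. -/
def CovAt (d x K n : M) : Prop :=
  BEx (exp (pair n K)) fun f => BAll n fun y => Imp (x ≤ y)
    (BEx K fun t => Mem (pair y t) f ∧ Allowed col hit d x n (cls f t x n))

/-- Every interval `[x, n)` is covered by `4 ^ x` reservoirs. -/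
def Cov (d x : M) : Prop := ∀ n, CovAt col hit d x (exp (2 * x)) n

variable {col hit}

theorem hom_iff {j : Prop} {G : M} :
    Hom col j G ↔ ∀ u v, Mem u G → Mem v G → u < v → (col u v ↔ j) := by
  simp only [Hom, allIn_iff, Imp]
  exact ⟨fun h u v hu hv => h u hu v hv, fun h u hu v hv => h u v hu hv⟩

theorem consec_iff {d z y : M} :
    Consec d z y ↔ Mem z d ∧ Mem y d ∧ z < y ∧ ∀ w, z < w → w < y → ¬ Mem w d := by
  simp only [Consec, BAll, Imp]
  exact ⟨fun ⟨a, b, c, h⟩ => ⟨a, b, c, fun w h1 h2 => h w h2 h1⟩,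
    fun ⟨a, b, c, h⟩ => ⟨a, b, c, fun w h1 h2 => h w h2 h1⟩⟩

theorem tame_iff {j : Prop} {F L d n : M} :
    Tame col hit j F L d n ↔ Hom col j F ∧ ∀ z y, Consec d z y → (Mem z L ↔ j) →
      (∃ v, Mem v F ∧ z ≤ v ∧ v < y) ∧ ∀ e < z, hit e n F → hit e y F := by
  simp only [Tame, allIn_iff, exIn_iff, Imp, BAll]
  refine and_congr_right fun _ => ⟨fun h z y hc => h z hc.1 y hc.2.1 hc, fun h z _ y _ => h z y⟩

theorem mem_cls {f t x n v : M} : Mem v (cls f t x n) ↔ v < n ∧ x ≤ v ∧ Mem (pair v t) f := by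
  obtain ⟨C, _, _⟩ := exists_base M
  exact mem_sep C (by fun_prop)

theorem sideOK_iff {j : Prop} {F L d n Z : M} (hZ : ∀ v, Mem v Z → v < n) :
    SideOK col hit j F L d n Z ↔
      ∀ G, (∀ v, Mem v G → Mem v Z) → Hom col j G → Tame col hit j (cup F G) L d n := by
  simp only [SideOK, allIn_iff, Imp, BAll]
  exact ⟨fun h G hG => h G (lt_exp_iff.2 fun i hi => hZ i (hG i hi)) hG, fun h G _ => h G⟩

section Fn
variable {C : Cls M} [XpIn C] {α : Type} [Cd M α]
  (hcol : Fn C fun p : M × M => col p.1 p.2)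
  (hhit : Fn C fun p : M × M × M => hit p.1 p.2.1 p.2.2)

include hcol in
theorem Fn.hom (j : Prop) {G : α → M} (hG : Fn C G) : Fn C fun a => Hom col j (G a) := by
  unfold Hom; fun_prop

@[fun_prop] theorem Fn.consec {d z y : α → M} (hd : Fn C d) (hz : Fn C z) (hy : Fn C y) :
    Fn C fun a => Consec (d a) (z a) (y a) := by
  unfold Consec; fun_prop

@[fun_prop] theorem Fn.cls {f t x n : α → M} (hf : Fn C f) (ht : Fn C t) (hx : Fn C x)
    (hn : Fn C n) : Fn C fun a => cls (f a) (t a) (x a) (n a) := by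
  unfold MP75f14d.cls; fun_prop

include hcol hhit

theorem Fn.tame (j : Prop) {F L d n : α → M} (hF : Fn C F) (hL : Fn C L) (hd : Fn C d)
    (hn : Fn C n) : Fn C fun a => Tame col hit j (F a) (L a) (d a) (n a) := by
  unfold Tame Hom; fun_prop

theorem Fn.allowed {d x n Z : α → M} (hd : Fn C d) (hx : Fn C x) (hn : Fn C n) (hZ : Fn C Z) :
    Fn C fun a => Allowed col hit (d a) (x a) (n a) (Z a) := by
  unfold Allowed SideOK Tame Hom; fun_prop

theorem Fn.covAt {d x K n : α → M} (hd : Fn C d) (hx : Fn C x) (hK : Fn C K) (hn : Fn C n) :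
    Fn C fun a => CovAt col hit (d a) (x a) (K a) (n a) := by
  unfold CovAt Allowed SideOK Tame Hom; fun_prop

end Fn

end Pool.Agent.MP75f14d
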