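import Mathlib

/-!
Second-order arithmetic as a two-sorted first-order theory: terms, formulas (de Bruijn indices for
number variables and, separately, for set variables), a Hilbert-style proof calculus, the formula
classes, and the theories RCA0, BSigma02, RT22, SRT22.
-/

namespace Pool.Agent.MP75f14d

/-- Number terms of the language of second-order arithmetic. -/
inductive Tm : Type
  | var : ℕ → Tm
  | zero : Tm
  | one : Tm
  | add : Tm → Tm → Tm
  | mul : Tm → Tm → Tm

/-- Formulas: `t = u`, `t < u`, `t ∈ X_k`, falsity, implication, and the universal quantifiers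
over numbers and over sets (each binds the variable of index 0 of its sort). -/
inductive Fm : Type
  | eq : Tm → Tm → Fm
  | lt : Tm → Tm → Fm
  | mem : Tm → ℕ → Fm
  | bot : Fm
  | imp : Fm → Fm → Fm
  | allN : Fm → Fm
  | allS : Fm → Fm

/-- Simultaneous substitution of terms for the number variables of a term. -/
def Tm.sub (r : ℕ → Tm) : Tm → Tm
  | .var n => r n
  | .zero => .zero
  | .one => .one
  | .add t u => .add (t.sub r) (u.sub r)
  | .mul t u => .mul (t.sub r) (u.sub r)

/-- Shift all number variables of a term up by one. -/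
def Tm.up (t : Tm) : Tm := t.sub fun n => .var (n + 1)

/-- A substitution pushed under a number quantifier. -/
def liftN (r : ℕ → Tm) : ℕ → Tm
  | 0 => .var 0
  | n + 1 => (r n).up

/-- A renaming of set variables pushed under a set quantifier. -/
def liftS (p : ℕ → ℕ) : ℕ → ℕ
  | 0 => 0
  | n + 1 => p n + 1

/-- Capture-avoiding simultaneous substitution: terms `r` for the free number variables and set
variables `p` for the free set variables. -/
def Fm.sub : Fm → (ℕ → Tm) → (ℕ → ℕ) → Fm
  | .eq t u, r, _ => .eq (t.sub r) (u.sub r)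
  | .lt t u, r, _ => .lt (t.sub r) (u.sub r)
  | .mem t k, r, p => .mem (t.sub r) (p k)
  | .bot, _, _ => .bot
  | .imp f g, r, p => .imp (f.sub r p) (g.sub r p)
  | .allN f, r, p => .allN (f.sub (liftN r) p)
  | .allS f, r, p => .allS (f.sub r (liftS p))

/-- The sequence `a, s 0, s 1, ...`. -/
def cons {α : Type} (a : α) (s : ℕ → α) : ℕ → α
  | 0 => a
  | n + 1 => s n

/-- Shift the free number variables up by one (variable 0 becomes fresh). -/
def Fm.upN (f : Fm) : Fm := f.sub (fun n => .var (n + 1)) id
/-- Shift the free set variables up by one (set variable 0 becomes fresh). -/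
def Fm.upS (f : Fm) : Fm := f.sub .var fun n => n + 1
/-- Substitute the term `t` for number variable 0 (the other variables move down by one). -/
def Fm.instN (f : Fm) (t : Tm) : Fm := f.sub (cons t .var) id
/-- Substitute set variable `k` for set variable 0 (the other variables move down by one). -/
def Fm.instS (f : Fm) (k : ℕ) : Fm := f.sub .var (cons k id)

def Fm.neg (f : Fm) : Fm := .imp f .bot
def Fm.and (f g : Fm) : Fm := (f.imp g.neg).neg
def Fm.or (f g : Fm) : Fm := f.neg.imp g
def Fm.iff (f g : Fm) : Fm := (f.imp g).and (g.imp f)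
def Fm.exN (f : Fm) : Fm := f.neg.allN.neg
def Fm.exS (f : Fm) : Fm := f.neg.allS.neg
/-- The bounded quantifier: for all `x < t`, `f`. -/
def Fm.ball (t : Tm) (f : Fm) : Fm := .allN ((Fm.lt (.var 0) t.up).imp f)
/-- The bounded quantifier: there is `x < t` with `f`. -/
def Fm.bex (t : Tm) (f : Fm) : Fm := (Fm.ball t f.neg).neg

/-- Provability from the set `T` of axioms in classical two-sorted predicate logic with equality
of numbers. Free variables of axioms and theorems are read universally. -/
inductive Prov (T : Set Fm) : Fm → Prop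
  | ax {f : Fm} : f ∈ T → Prov T f
  | k (f g : Fm) : Prov T (f.imp (g.imp f))
  | s (f g h : Fm) : Prov T ((f.imp (g.imp h)).imp ((f.imp g).imp (f.imp h)))
  | dne (f : Fm) : Prov T (f.neg.neg.imp f)
  | mp {f g : Fm} : Prov T (f.imp g) → Prov T f → Prov T g
  | elimN (f : Fm) (t : Tm) : Prov T (f.allN.imp (f.instN t))
  | elimS (f : Fm) (k : ℕ) : Prov T (f.allS.imp (f.instS k))
  | genN {f g : Fm} : Prov T (f.upN.imp g) → Prov T (f.imp g.allN)
  | genS {f g : Fm} : Prov T (f.upS.imp g) → Prov T (f.imp g.allS)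
  | refl (t : Tm) : Prov T (.eq t t)
  | repl (f : Fm) (t u : Tm) : Prov T ((Fm.eq t u).imp ((f.instN t).imp (f.instN u)))
  | subst {f : Fm} (r : ℕ → Tm) (p : ℕ → ℕ) : Prov T f → Prov T (f.sub r p)

/-- Bounded-quantifier formulas (number and set parameters allowed). -/
inductive Bounded : Fm → Prop
  | eq (t u : Tm) : Bounded (.eq t u)
  | lt (t u : Tm) : Bounded (.lt t u)
  | mem (t : Tm) (k : ℕ) : Bounded (.mem t k)
  | bot : Bounded .bot
  | imp {f g : Fm} : Bounded f → Bounded g → Bounded (f.imp g)
  | ball (t : Tm) {f : Fm} : Bounded f → Bounded (Fm.ball t f)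

def Sigma01 (f : Fm) : Prop := ∃ g, Bounded g ∧ f = g.exN
def Pi01 (f : Fm) : Prop := ∃ g, Bounded g ∧ f = g.allN
def Sigma02 (f : Fm) : Prop := ∃ g, Bounded g ∧ f = g.allN.exN

/-- Arithmetical formulas: no set quantifier. -/
inductive Arith : Fm → Prop
  | eq (t u : Tm) : Arith (.eq t u)
  | lt (t u : Tm) : Arith (.lt t u)
  | mem (t : Tm) (k : ℕ) : Arith (.mem t k)
  | bot : Arith .bot
  | imp {f g : Fm} : Arith f → Arith g → Arith (f.imp g)
  | allN {f : Fm} : Arith f → Arith f.allN

/-- The basic arithmetic axioms (x is variable 0, y is variable 1). -/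
def basicAx : Set Fm :=
  { (Fm.eq (.add (.var 0) .one) .zero).neg,
    (Fm.eq (.add (.var 0) .one) (.add (.var 1) .one)).imp (.eq (.var 0) (.var 1)),
    .eq (.add (.var 0) .zero) (.var 0),
    .eq (.add (.var 0) (.add (.var 1) .one)) (.add (.add (.var 0) (.var 1)) .one),
    .eq (.mul (.var 0) .zero) .zero,
    .eq (.mul (.var 0) (.add (.var 1) .one)) (.add (.mul (.var 0) (.var 1)) (.var 0)),
    (Fm.lt (.var 0) .zero).neg,
    (Fm.lt (.var 0) (.add (.var 1) .one)).iff
      ((Fm.lt (.var 0) (.var 1)).or (.eq (.var 0) (.var 1))) }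

/-- Induction for `f` in variable 0: `f(0)` and `∀ x (f(x) → f(x+1))` imply `∀ x f(x)`. -/
def indAx (f : Fm) : Fm :=
  ((f.instN .zero).and
    (f.imp (f.sub (cons (.add (.var 0) .one) fun n => .var (n + 1)) id)).allN).imp f.allN

/-- Comprehension: `∀ x (f ↔ g)` implies `∃ X ∀ x (x ∈ X ↔ f)`, with `X` not free in `f`. -/
def compAx (f g : Fm) : Fm :=
  (f.iff g).allN.imp ((Fm.mem (.var 0) 0).iff f.upS).allN.exS

/-- RCA0: basic axioms, Sigma01 induction, Delta01 comprehension. -/
def RCA0 : Set Fm :=
  basicAx ∪ {h | ∃ f, Sigma01 f ∧ h = indAx f} ∪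
    {h | ∃ f g, Sigma01 f ∧ Pi01 g ∧ h = compAx f g}

/-- Bounding for `f(x, y)` (y is variable 0 and x is variable 1 of `f`; `a` is the free variable 0
of the axiom): `∀ x < a ∃ y f` implies `∃ b ∀ x < a ∃ y < b f`. -/
def bndAx (f : Fm) : Fm :=
  (Fm.ball (.var 0) f.exN).imp
    (Fm.ball (.var 1) (Fm.bex (.var 1)
      (f.sub (cons (.var 0) (cons (.var 1) fun n => .var (n + 3))) id))).exN

/-- The Sigma02 bounding scheme. -/
def BSigma02 : Set Fm := {h | ∃ f, Sigma02 f ∧ h = bndAx f}

/-- The code `(t + u)^2 + t` of the pair `(t, u)`. -/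
def pairTm (t u : Tm) : Tm := .add (.mul (.add t u) (.add t u)) t

/-- The set `X_k` is infinite: `∀ x ∃ y (x < y ∧ y ∈ X_k)`. -/
def infFm (k : ℕ) : Fm := ((Fm.lt (.var 1) (.var 0)).and (.mem (.var 0) k)).exN.allN

/-- For all `x < y` in `X_0`, the formula `f` (x is variable 1, y is variable 0). -/
def onPairs (f : Fm) : Fm :=
  ((Fm.mem (.var 1) 0).imp ((Fm.mem (.var 0) 0).imp ((Fm.lt (.var 1) (.var 0)).imp f))).allN.allN

/-- The colouring `X_0` (the pair `x < y` has colour 1 iff its code lies in `X_0`) has an infinite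
homogeneous set. -/
def homFm : Fm :=
  ((infFm 0).and
    ((onPairs (.mem (pairTm (.var 1) (.var 0)) 1)).or
      (onPairs (Fm.mem (pairTm (.var 1) (.var 0)) 1).neg))).exS

/-- The colouring `X_0` is stable: for all `x` there is `s` such that the colour of `(x, y)` is 1
for all `y > s`, or is 0 for all `y > s`. -/
def stableFm : Fm :=
  ((((Fm.lt (.var 1) (.var 0)).imp (.mem (pairTm (.var 2) (.var 0)) 0)).allN).or
    (((Fm.lt (.var 1) (.var 0)).imp (Fm.mem (pairTm (.var 2) (.var 0)) 0).neg).allN)).exN.allN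

/-- Ramsey's theorem for pairs and two colours. -/
def RT22 : Fm := homFm.allS

/-- Stable Ramsey's theorem for pairs and two colours. -/
def SRT22 : Fm := (stableFm.imp homFm).allS

/-- `T1` is Pi11-conservative over `T2`: every formula `∀ X f` with `f` arithmetical that is
provable in `T1` is provable in `T2`. -/
def Pi11Conservative (T1 T2 : Set Fm) : Prop :=
  ∀ f : Fm, Arith f → Prov T1 f.allS → Prov T2 f.allS

end Pool.Agent.MP75f14d
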