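import Pool.Agent.MP_75f14d_lc.Code

/-! A subclass with a universal r.e. set. -/

namespace Pool.Agent.MP75f14d

variable {M : Type} [Ar M] [Good M]

namespace EvalX

/-- One derivation step: `x` enters the set with code `e`, the premises being in `τ`. -/
def Just (B : M → M → Prop) (τ e x : M) : Prop :=
  (fstM e = 0 ∧ B (sndM e) x) ∨
  (fstM e = 1 ∧ Mem (pair (fstM (sndM e)) x) τ ∧ Mem (pair (sndM (sndM e)) x) τ) ∨
  (fstM e = 2 ∧ (Mem (pair (fstM (sndM e)) x) τ ∨ Mem (pair (sndM (sndM e)) x) τ)) ∨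
  (fstM e = 3 ∧ BEx τ fun y => B (fstM (sndM e)) (pair x y) ∧ Mem (pair (sndM (sndM e)) y) τ) ∨
  (fstM e = 4 ∧ x = pair (fstM x) (sndM x) ∧
    BAll (sndM x) fun y => Mem (pair (sndM e) (pair (fstM x) y)) τ)

/-- All elements of `τ` are justified inside `τ`. -/
def Jd (B : M → M → Prop) (τ : M) : Prop := AllIn τ fun w => Just B τ (fstM w) (sndM w)

def U (B : M → M → Prop) (e x τ : M) : Prop := Jd B τ ∧ Mem (pair e x) τ

def W (B : M → M → Prop) (e : M) : Set M := {x | ∃ τ, U B e x τ}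

variable {B : M → M → Prop}

theorem fn_just {E : Cls M} [XpIn E] (hB : Fn E fun p : M × M => B p.1 p.2) :
    Fn E fun p : M × M × M => Just B p.1 p.2.1 p.2.2 := by
  unfold Just; fun_prop

theorem fn_jd {E : Cls M} [XpIn E] (hB : Fn E fun p : M × M => B p.1 p.2) :
    Fn E fun τ : M => Jd B τ := by
  have h := fn_just hB
  unfold Jd
  exact Fn.allIn Fn.id' (h.comp (g := fun p : M × M => (p.1, fstM p.2, sndM p.2)) (by fun_prop))

theorem fn_U {E : Cls M} [XpIn E] (hB : Fn E fun p : M × M => B p.1 p.2) :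
    Fn E fun p : M × M × M => U B p.1 p.2.1 p.2.2 := by
  have h := fn_jd hB
  unfold U
  exact Fn.and (h.comp (by fun_prop)) (by fun_prop)

theorem Just.mono {τ τ' e x : M} (h : Just B τ e x) (hs : ∀ i, Mem i τ → Mem i τ') :
    Just B τ' e x := by
  rcases h with h | ⟨h, h1, h2⟩ | ⟨h, h1⟩ | ⟨h, y, -, h1, h2⟩ | ⟨h, h1, h2⟩
  · exact Or.inl h
  · exact Or.inr (Or.inl ⟨h, hs _ h1, hs _ h2⟩)
  · exact Or.inr (Or.inr (Or.inl ⟨h, h1.imp (hs _) (hs _)⟩))
  · exact Or.inr (Or.inr (Or.inr (Or.inl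
      ⟨h, y, lt_of_le_of_lt (le_pair_right _ _) (hs _ h2).lt, h1, hs _ h2⟩)))
  · exact Or.inr (Or.inr (Or.inr (Or.inr ⟨h, h1, fun y hy => hs _ (h2 y hy)⟩)))

theorem jd_iff {τ : M} : Jd B τ ↔ ∀ w, Mem w τ → Just B τ (fstM w) (sndM w) := allIn_iff

theorem jd_zero : Jd B 0 := jd_iff.2 fun w h => absurd h (not_mem_zero w)

theorem Jd.cup {σ τ : M} (h1 : Jd B σ) (h2 : Jd B τ) : Jd B (cup σ τ) := by
  refine jd_iff.2 fun w hw => ?_
  rcases mem_cup.1 hw with h | h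
  · exact (jd_iff.1 h1 w h).mono fun i hi => mem_cup.2 (Or.inl hi)
  · exact (jd_iff.1 h2 w h).mono fun i hi => mem_cup.2 (Or.inr hi)

theorem mem_W {e x : M} : x ∈ W B e ↔ ∃ τ, Jd B τ ∧ Just B τ e x := by
  constructor
  · rintro ⟨τ, h1, h2⟩
    exact ⟨τ, h1, by simpa using jd_iff.1 h1 _ h2⟩
  · rintro ⟨τ, h1, h2⟩
    refine ⟨cup τ (exp (pair e x)), jd_iff.2 fun w hw => ?_, by simp⟩
    rcases mem_cup.1 hw with h | h
    · exact (jd_iff.1 h1 w h).mono fun i hi => mem_cup.2 (Or.inl hi)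
    · rw [mem_exp.1 h, fstM_pair, sndM_pair]
      exact h2.mono fun i hi => mem_cup.2 (Or.inl hi)

theorem W_atom (c x : M) : x ∈ W B (pair 0 c) ↔ B c x := by
  rw [mem_W]
  have : ∀ τ, Just B τ (pair 0 c) x ↔ B c x := fun τ => by simp [Just]
  simp only [this]
  exact ⟨fun ⟨_, _, h⟩ => h, fun h => ⟨0, jd_zero, h⟩⟩

theorem W_inter (a b x : M) : x ∈ W B (pair 1 (pair a b)) ↔ x ∈ W B a ∧ x ∈ W B b := by
  rw [mem_W]
  have : ∀ τ, Just B τ (pair 1 (pair a b)) x ↔ Mem (pair a x) τ ∧ Mem (pair b x) τ :=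
    fun τ => by simp [Just]
  simp only [this]
  constructor
  · rintro ⟨τ, h, h1, h2⟩
    exact ⟨⟨τ, h, h1⟩, τ, h, h2⟩
  · rintro ⟨⟨σ, h, h1⟩, τ, h', h2⟩
    exact ⟨cup σ τ, h.cup h', mem_cup.2 (Or.inl h1), mem_cup.2 (Or.inr h2)⟩

theorem W_union (a b x : M) : x ∈ W B (pair 2 (pair a b)) ↔ x ∈ W B a ∨ x ∈ W B b := by
  rw [mem_W]
  have : ∀ τ, Just B τ (pair 2 (pair a b)) x ↔ Mem (pair a x) τ ∨ Mem (pair b x) τ :=
    fun τ => by simp [Just]
  simp only [this]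
  constructor
  · rintro ⟨τ, h, h1 | h1⟩
    · exact Or.inl ⟨τ, h, h1⟩
    · exact Or.inr ⟨τ, h, h1⟩
  · rintro (⟨τ, h, h1⟩ | ⟨τ, h, h1⟩)
    · exact ⟨τ, h, Or.inl h1⟩
    · exact ⟨τ, h, Or.inr h1⟩

theorem W_img (c a x : M) :
    x ∈ W B (pair 3 (pair c a)) ↔ ∃ y, B c (pair x y) ∧ y ∈ W B a := by
  rw [mem_W]
  have : ∀ τ, Just B τ (pair 3 (pair c a)) x ↔
      BEx τ fun y => B c (pair x y) ∧ Mem (pair a y) τ := fun τ => by simp [Just]
  simp only [this]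
  constructor
  · rintro ⟨τ, h, y, -, h1, h2⟩
    exact ⟨y, h1, τ, h, h2⟩
  · rintro ⟨y, h1, τ, h, h2⟩
    exact ⟨τ, h, y, lt_of_le_of_lt (le_pair_right _ _) h2.lt, h1, h2⟩

theorem W_ball (C : Cls M) [SInd C] [XpIn C] (hB : Fn C fun p : M × M => B p.1 p.2) (a p : M) :
    p ∈ W B (pair 4 a) ↔ ∃ x b, p = pair x b ∧ ∀ y < b, pair x y ∈ W B a := by
  rw [mem_W]
  have : ∀ τ, Just B τ (pair 4 a) p ↔ p = pair (fstM p) (sndM p) ∧
      BAll (sndM p) fun y => Mem (pair a (pair (fstM p) y)) τ := fun τ => by simp [Just]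
  simp only [this]
  constructor
  · rintro ⟨τ, h, h1, h2⟩
    exact ⟨_, _, h1, fun y hy => ⟨τ, h, h2 y hy⟩⟩
  · rintro ⟨x, b, rfl, h⟩
    have hJ := fn_jd hB
    obtain ⟨t, ht⟩ := Sig.coll (C := C) (P := fun y τ => U B a (pair x y) τ)
      (Fn.sig ((fn_U hB).comp (g := fun q : M × M => (a, pair x q.1, q.2)) (by fun_prop))) h
    have hP : Fn C fun w : M => BEx t fun σ => Jd B σ ∧ Mem w σ :=
      Fn.bex (Fn.const t) (Fn.and (hJ.comp Fn.snd0) (by fun_prop))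
    obtain ⟨τ, hτ⟩ := exists_code C hP t
    have hs : ∀ σ < t, Jd B σ → ∀ i, Mem i σ → Mem i τ := fun σ h1 h2 i hi =>
      (hτ i).2 ⟨hi.lt.trans h1, σ, h1, h2, hi⟩
    refine ⟨τ, jd_iff.2 fun w hw => ?_, by simp, fun y hy => ?_⟩
    · obtain ⟨-, σ, h1, h2, h3⟩ := (hτ w).1 hw
      exact (jd_iff.1 h2 w h3).mono (hs σ h1 h2)
    · rw [sndM_pair] at hy
      obtain ⟨σ, h1, h2, h3⟩ := ht y hy
      rw [fstM_pair]
      exact hs σ h1 h2 _ h3

/-- Join of finitely many relations. -/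
def Jn (R : ℕ → M → M → Prop) (k : ℕ) (c x : M) : Prop :=
  ∃ i < k, fstM c = (i : M) ∧ R i (sndM c) x

omit [Good M] in
theorem fn_jn {E : Cls M} {R : ℕ → M → M → Prop} {k : ℕ}
    (h : ∀ i < k, Fn E fun p : M × M => R i p.1 p.2) : Fn E fun p : M × M => Jn R k p.1 p.2 := by
  induction k with
  | zero => exact (Fn.const False).congr_iff fun p => by simp [Jn]
  | succ k ih =>
    have h1 := ih fun i hi => h i (by omega)
    have h2 := h k (by omega)
    have h3 : Fn E fun p : M × M => fstM p.1 = (k : M) ∧ R k (sndM p.1) p.2 :=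
      Fn.and (by fun_prop) (h2.comp (g := fun p : M × M => (sndM p.1, p.2)) (by fun_prop))
    refine (h1.or h3).congr_iff fun p => ?_
    constructor
    · rintro ⟨i, hi, h4⟩
      rcases Nat.lt_succ_iff_lt_or_eq.1 hi with hi | hi
      · exact Or.inl ⟨i, hi, h4⟩
      · exact Or.inr (hi ▸ h4)
    · rintro (⟨i, hi, h4⟩ | h4)
      · exact ⟨i, by omega, h4⟩
      · exact ⟨k, by omega, h4⟩

omit [Good M] in
theorem jn_pair {R : ℕ → M → M → Prop} {k i : ℕ} (hi : i < k) (c x : M) :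
    Jn R k (pair (i : M) c) x ↔ R i c x := by
  simp only [Jn, fstM_pair, sndM_pair, Nat.cast_inj]
  exact ⟨fun ⟨_, _, h1, h2⟩ => h1 ▸ h2, fun h => ⟨i, hi, rfl, h⟩⟩

/-- The atoms. -/
def At (X : ℕ → Set M) : ℕ → M → M → Prop
  | 0 => fun _ _ => True
  | 1 => fun _ p => p = pair (fstM p) (fstM p)
  | 2 => fun c p => p = c
  | 3 => fun _ p => p = pair (pair (fstM (fstM p)) (sndM (fstM p)))
      (fstM (fstM p) + sndM (fstM p))
  | 4 => fun _ p => p = pair (pair (fstM (fstM p)) (sndM (fstM p)))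
      (fstM (fstM p) * sndM (fstM p))
  | 5 => fun _ p => p = pair (fstM p) (sndM p) ∧ fstM p < sndM p
  | 6 => fun _ p => p = pair (fstM p) (exp (fstM p))
  | 7 => fun _ p => sndM p = pair (fstM p) (sndM (sndM p))
  | 8 => fun _ p => fstM p = pair (sndM p) (sndM (fstM p))
  | 9 => fun _ p => fstM p = pair (sndM (sndM p)) (fstM (sndM p)) ∧
      sndM p = pair (fstM (sndM p)) (sndM (sndM p))
  | 10 => fun _ p =>
      fstM p = pair (pair (fstM (fstM (fstM p))) (sndM (fstM (fstM p)))) (sndM (fstM p)) ∧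
      sndM p = pair (pair (fstM (fstM (fstM p))) (sndM (fstM p))) (sndM (fstM (fstM p)))
  | 11 => fun _ p =>
      fstM p = pair (pair (fstM (fstM (fstM p))) (sndM (fstM (fstM p)))) (sndM (fstM p)) ∧
      sndM p = pair (fstM (fstM (fstM p))) (pair (sndM (fstM (fstM p))) (sndM (fstM p)))
  | n + 12 => fun c p => (p ∈ X n ↔ c = 0)

theorem fn_at {E : Cls M} [XpIn E] {X : ℕ → Set M} {k : ℕ}
    (hX : ∀ i < k, Fn E fun x : M => x ∈ X i) :
    Fn E fun p : M × M => Jn (At X) (k + 12) p.1 p.2 := by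
  refine fn_jn fun i hi => ?_
  match i, hi with
  | 0, _ => exact Fn.const True
  | 1, _ => simp only [At]; fun_prop
  | 2, _ => simp only [At]; fun_prop
  | 3, _ => simp only [At]; fun_prop
  | 4, _ => simp only [At]; fun_prop
  | 5, _ => simp only [At]; fun_prop
  | 6, _ => simp only [At]; fun_prop
  | 7, _ => simp only [At]; fun_prop
  | 8, _ => simp only [At]; fun_prop
  | 9, _ => simp only [At]; fun_prop
  | 10, _ => simp only [At]; fun_prop
  | 11, _ => simp only [At]; fun_prop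
  | n + 12, hi =>
    simp only [At]
    exact Fn.iff ((hX n (by omega)).comp Fn.snd0) (by fun_prop)

theorem atom_mem (X : ℕ → Set M) (k : ℕ) {i : ℕ} (hi : i < k + 12) (c : M) {V : Set M}
    (h : ∀ x, x ∈ V ↔ At X i c x) : V ∈ Set.range (W (Jn (At X) (k + 12))) :=
  ⟨pair 0 (pair (i : M) c), Set.ext fun x => by rw [W_atom, jn_pair hi, h]⟩

theorem img_mem (X : ℕ → Set M) (k : ℕ) {i : ℕ} (hi : i < k + 12) {V V' : Set M}
    (hV : V ∈ Set.range (W (Jn (At X) (k + 12))))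
    (h : ∀ x, x ∈ V' ↔ ∃ y, At X i 0 (pair x y) ∧ y ∈ V) :
    V' ∈ Set.range (W (Jn (At X) (k + 12))) := by
  obtain ⟨a, rfl⟩ := hV
  exact ⟨pair 3 (pair (pair (i : M) 0) a), Set.ext fun x => by
    simp only [W_img, jn_pair hi, h]⟩

/-- The class generated by the atoms. -/
def gen (C : Cls M) [SInd C] [XpIn C] (X : ℕ → Set M) (k : ℕ)
    (hX : ∀ i < k, Fn C fun x : M => x ∈ X i) : Cls M where
  sets := Set.range (W (Jn (At X) (k + 12)))
  inter := by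
    rintro _ _ ⟨a, rfl⟩ ⟨b, rfl⟩
    exact ⟨pair 1 (pair a b), Set.ext fun x => W_inter a b x⟩
  union := by
    rintro _ _ ⟨a, rfl⟩ ⟨b, rfl⟩
    exact ⟨pair 2 (pair a b), Set.ext fun x => W_union a b x⟩
  ex h := img_mem X k (i := 7) (by omega) h fun x => by
    simp only [At, fstM_pair, sndM_pair]
    exact ⟨fun ⟨y, hy⟩ => ⟨_, by simp, hy⟩, fun ⟨y, h1, h2⟩ => ⟨sndM y, h1 ▸ h2⟩⟩
  ball := by
    rintro _ ⟨a, rfl⟩
    exact ⟨pair 4 a, Set.ext fun x => W_ball C (fn_at hX) a x⟩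
  cyl h := img_mem X k (i := 8) (by omega) h fun p => by
    simp only [At, fstM_pair, sndM_pair]
    constructor
    · rintro ⟨x, y, rfl, hx⟩; exact ⟨x, by simp, hx⟩
    · rintro ⟨y, h1, h2⟩; exact ⟨_, _, h1, h2⟩
  swap h := img_mem X k (i := 9) (by omega) h fun p => by
    simp only [At, fstM_pair, sndM_pair]
    constructor
    · rintro ⟨x, y, rfl, hx⟩; exact ⟨_, by simp, hx⟩
    · rintro ⟨y, ⟨h1, h2⟩, h3⟩; exact ⟨_, _, h1, h2 ▸ h3⟩
  swap23 h := img_mem X k (i := 10) (by omega) h fun p => by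
    simp only [At, fstM_pair, sndM_pair]
    constructor
    · rintro ⟨x, y, z, rfl, hx⟩; exact ⟨_, by simp, hx⟩
    · rintro ⟨y, ⟨h1, h2⟩, h3⟩; exact ⟨_, _, _, h1, h2 ▸ h3⟩
  assoc h := img_mem X k (i := 11) (by omega) h fun p => by
    simp only [At, fstM_pair, sndM_pair]
    constructor
    · rintro ⟨x, y, z, rfl, hx⟩; exact ⟨_, by simp, hx⟩
    · rintro ⟨y, ⟨h1, h2⟩, h3⟩; exact ⟨_, _, _, h1, h2 ▸ h3⟩
  univ := atom_mem X k (i := 0) (by omega) 0 fun x => by simp [At]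
  diag := atom_mem X k (i := 1) (by omega) 0 fun p => by
    simp only [At]
    exact ⟨by rintro ⟨x, rfl⟩; simp, fun h => ⟨_, h⟩⟩
  sing c := atom_mem X k (i := 2) (by omega) c fun p => by simp [At]
  add := atom_mem X k (i := 3) (by omega) 0 fun p => by
    simp only [At]
    exact ⟨by rintro ⟨x, y, rfl⟩; simp, fun h => ⟨_, _, h⟩⟩
  mul := atom_mem X k (i := 4) (by omega) 0 fun p => by
    simp only [At]
    exact ⟨by rintro ⟨x, y, rfl⟩; simp, fun h => ⟨_, _, h⟩⟩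
  lt := atom_mem X k (i := 5) (by omega) 0 fun p => by
    simp only [At]
    exact ⟨by rintro ⟨x, y, rfl, h⟩; simpa using h, fun h => ⟨_, _, h⟩⟩

end EvalX

open EvalX in
theorem exists_univ (C : Cls M) [SInd C] [XpIn C] (X : ℕ → Set M) (k : ℕ)
    (hX : ∀ i < k, Fn C fun x : M => x ∈ X i) :
    ∃ C0 : Cls M, C0.sets ⊆ C.sets ∧ Univ C0 ∧ XpIn C0 ∧
      ∀ i < k, Fn C0 fun x : M => x ∈ X i := by
  have hx : XpIn (gen C X k hX) := ⟨atom_mem X k (i := 6) (by omega) 0 fun p => by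
    simp only [At]
    constructor
    · rintro ⟨⟨a, b⟩, rfl, h⟩
      obtain rfl : exp a = b := h
      simp
    · exact fun h => ⟨(fstM p, exp (fstM p)), h, rfl⟩⟩
  have hX0 : ∀ i < k, Fn (gen C X k hX) fun x : M => x ∈ X i := fun i hi =>
    fn_mem_iff.2 ⟨atom_mem X k (i := i + 12) (by omega) 0 fun p => by simp [At],
      atom_mem X k (i := i + 12) (by omega) 1 fun p => by simp [At]⟩
  refine ⟨gen C X k hX, ?_, ⟨U (Jn (At X) (k + 12)), fn_U (fn_at hX0), ?_⟩, hx, hX0⟩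
  · rintro _ ⟨e, rfl⟩
    exact (Sig.ex (P := fun x τ => U (Jn (At X) (k + 12)) e x τ) (Fn.sig ((fn_U (fn_at hX)).comp
      (g := fun q : M × M => (e, q.1, q.2)) (by fun_prop)))).mem_sets
  · rintro _ ⟨e, rfl⟩
    exact ⟨e, fun x => Iff.rfl⟩

end Pool.Agent.MP75f14d
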