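import Pool.Agent.MP_75f14d_lc.Code

/-! Adjoining a regular set to a class. -/

namespace Pool.Agent.MP75f14d

variable {M : Type} [Ar M] [Good M]

/-- Strong collection for Sigma1 relations in `H`. -/
def SC (C : Cls M) (H : Set M) : Prop :=
  ∀ R : M → M → M → Prop, Fn C (fun p : M × M × M => R p.1 p.2.1 p.2.2) →
    ∀ a, ∃ b, ∀ u < a, (∃ s, R u s (cut H s)) → ∃ s < b, R u s (cut H s)

/-- Collection for Pi1 relations in `H`. -/
def PC (C : Cls M) (H : Set M) : Prop :=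
  ∀ R : M → M → M → Prop, Fn C (fun p : M × M × M => R p.1 p.2.1 p.2.2) →
    ∀ a, (∀ x < a, ∃ y, ¬ ∃ s, R (pair x y) s (cut H s)) →
      ∃ b, ∀ x < a, ∃ y < b, ¬ ∃ s, R (pair x y) s (cut H s)

namespace ExtX

/-- The sets that are r.e. in `H` over the class `C`. -/
def Rel (C : Cls M) (H : Set M) : Set (Set M) :=
  {W | ∃ R : M → M → M → Prop, Fn C (fun p : M × M × M => R p.1 p.2.1 p.2.2) ∧
    ∀ u, u ∈ W ↔ ∃ s, R u s (cut H s)}

variable {C : Cls M} {H : Set M}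

theorem mono [XpIn C] (hH : Reg H) {W : Set M} (h : W ∈ Rel C H) :
    ∃ R : M → M → M → Prop, Fn C (fun p : M × M × M => R p.1 p.2.1 p.2.2) ∧
      (∀ u, u ∈ W ↔ ∃ s, R u s (cut H s)) ∧
      ∀ u s t, s ≤ t → R u s (cut H s) → R u t (cut H t) := by
  obtain ⟨R, hR, e⟩ := h
  refine ⟨fun u t τ => BEx t fun s => R u s (res τ s), by fun_prop, fun u => ?_, ?_⟩
  · rw [e]
    constructor
    · rintro ⟨s, hs⟩
      exact ⟨s + 1, s, lt_add_one s, by simpa only [hH.res_cut le_self_add] using hs⟩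
    · rintro ⟨t, s, hs, h⟩
      exact ⟨s, by rwa [hH.res_cut hs.le] at h⟩
  · rintro u s t hst ⟨r, hr, h⟩
    refine ⟨r, lt_of_lt_of_le hr hst, ?_⟩
    rw [hH.res_cut hr.le] at h
    simpa only [hH.res_cut (hr.le.trans hst)] using h

theorem base (hU : Univ C) {W : Set M} (h : W ∈ C.sets) : W ∈ Rel C H := by
  obtain ⟨R, hR, e⟩ := hU.nf W h
  exact ⟨fun u s _ => R u s, by fun_prop, e⟩

theorem pre {W V : Set M} (h : W ∈ Rel C H) {D : M → Prop} {f : M → M} (hD : Fn C D)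
    (hf : Fn C f) (e : ∀ p, p ∈ V ↔ D p ∧ f p ∈ W) : V ∈ Rel C H := by
  obtain ⟨R, hR, e'⟩ := h
  refine ⟨fun u s τ => D u ∧ R (f u) s τ, by fun_prop, fun u => ?_⟩
  rw [e, e', exists_and_left]

/-- The class of sets that are r.e. in `H` over `C`. -/
def cls (C : Cls M) [XpIn C] (hU : Univ C) {H : Set M} (hH : Reg H) (h1 : SC C H) : Cls M where
  sets := Rel C H
  inter := by
    intro W V hW hV
    obtain ⟨R, hR, e, m⟩ := mono hH hW
    obtain ⟨R', hR', e', m'⟩ := mono hH hV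
    refine ⟨fun u s τ => R u s τ ∧ R' u s τ, by fun_prop, fun u => ?_⟩
    rw [Set.mem_inter_iff, e, e']
    constructor
    · rintro ⟨⟨s, hs⟩, t, ht⟩
      exact ⟨s + t, m _ _ _ le_self_add hs, m' _ _ _ le_add_self ht⟩
    · rintro ⟨s, hs, hs'⟩
      exact ⟨⟨s, hs⟩, s, hs'⟩
  union := by
    rintro W V ⟨R, hR, e⟩ ⟨R', hR', e'⟩
    refine ⟨fun u s τ => R u s τ ∨ R' u s τ, by fun_prop, fun u => ?_⟩
    rw [Set.mem_union, e, e', exists_or]
  ex := by
    intro W hW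
    obtain ⟨R, hR, e, m⟩ := mono hH hW
    refine ⟨fun u s τ => BEx s fun y => R (pair u y) s τ, by fun_prop, fun u => ?_⟩
    simp only [Set.mem_setOf_eq, e]
    constructor
    · rintro ⟨y, s, hs⟩
      exact ⟨y + 1 + s, y, lt_of_lt_of_le (lt_add_one y) le_self_add, m _ _ _ le_add_self hs⟩
    · rintro ⟨s, y, -, hs⟩
      exact ⟨y, s, hs⟩
  ball := by
    intro W hW
    obtain ⟨R, hR, e, m⟩ := mono hH hW
    refine ⟨fun u s τ => u = pair (fstM u) (sndM u) ∧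
      BAll (sndM u) fun y => R (pair (fstM u) y) s τ, by fun_prop, fun u => ?_⟩
    simp only [Set.mem_setOf_eq, e]
    constructor
    · rintro ⟨x, b, rfl, h⟩
      obtain ⟨t, ht⟩ := h1 (fun y s τ => R (pair x y) s τ) (by fun_prop) b
      refine ⟨t, by simp, fun y hy => ?_⟩
      rw [sndM_pair] at hy
      obtain ⟨s, hs, h'⟩ := ht y hy (h y hy)
      rw [fstM_pair]
      exact m _ _ _ hs.le h'
    · rintro ⟨s, hu, h⟩
      exact ⟨_, _, hu, fun y hy => ⟨s, h y hy⟩⟩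
  cyl := fun hW => pre hW (D := fun u => u = pair (fstM u) (sndM u)) (f := fun u => fstM u)
    (by fun_prop) (by fun_prop) fun p =>
      ⟨by rintro ⟨x, y, rfl, h⟩; simpa using h, fun h => ⟨_, _, h.1, h.2⟩⟩
  swap := fun hW => pre hW (D := fun u => u = pair (fstM u) (sndM u))
    (f := fun u => pair (sndM u) (fstM u)) (by fun_prop) (by fun_prop) fun p =>
      ⟨by rintro ⟨x, y, rfl, h⟩; simpa using h, fun h => ⟨_, _, h.1, h.2⟩⟩
  swap23 := fun hW => pre hW
    (D := fun u => u = pair (pair (fstM (fstM u)) (sndM (fstM u))) (sndM u))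
    (f := fun u => pair (pair (fstM (fstM u)) (sndM u)) (sndM (fstM u))) (by fun_prop)
    (by fun_prop) fun p =>
      ⟨by rintro ⟨x, y, z, rfl, h⟩; simpa using h, fun h => ⟨_, _, _, h.1, h.2⟩⟩
  assoc := fun hW => pre hW
    (D := fun u => u = pair (pair (fstM (fstM u)) (sndM (fstM u))) (sndM u))
    (f := fun u => pair (fstM (fstM u)) (pair (sndM (fstM u)) (sndM u))) (by fun_prop)
    (by fun_prop) fun p =>
      ⟨by rintro ⟨x, y, z, rfl, h⟩; simpa using h, fun h => ⟨_, _, _, h.1, h.2⟩⟩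
  univ := base hU C.univ
  diag := base hU C.diag
  sing := fun c => base hU (C.sing c)
  add := base hU C.add
  mul := base hU C.mul
  lt := base hU C.lt

end ExtX

theorem exists_ext (C : Cls M) [SInd C] [XpIn C] (hU : Univ C) {H : Set M} (hH : Reg H)
    (h1 : SC C H) (h2 : PC C H) :
    ∃ E : Cls M, C.sets ⊆ E.sets ∧ SInd E ∧ Coll2 E ∧ Univ E ∧ Fn E fun x : M => x ∈ H := by
  have sub : C.sets ⊆ (ExtX.cls C hU hH h1).sets := fun W hW => ExtX.base hU hW
  have hHE : Fn (ExtX.cls C hU hH h1) fun x : M => x ∈ H := by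
    refine fn_mem_iff.2 ⟨⟨fun u s τ => u < s ∧ Mem u τ, by fun_prop, fun u => ?_⟩,
      ⟨fun u s τ => u < s ∧ ¬ Mem u τ, by fun_prop, fun u => ?_⟩⟩
    · simp only [hH.mem_cut]
      exact ⟨fun h => ⟨u + 1, lt_add_one u, lt_add_one u, h⟩, fun ⟨s, _, _, h⟩ => h⟩
    · simp only [hH.mem_cut, Set.mem_compl_iff]
      exact ⟨fun h => ⟨u + 1, lt_add_one u, fun h' => h h'.2⟩,
        fun ⟨s, hs, h⟩ h' => h ⟨hs, h'⟩⟩
  refine ⟨ExtX.cls C hU hH h1, sub, ⟨?_⟩, ⟨?_⟩, ?_, hHE⟩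
  · rintro W ⟨R, hR, e⟩ h0 hs x
    obtain ⟨b, hb⟩ := h1 R hR (x + 1)
    have key : ∀ u ≤ x, (BEx b fun s => R u s (res (cut H b) s)) ↔ u ∈ W := by
      intro u hu
      rw [e]
      constructor
      · rintro ⟨s, hs, h⟩
        exact ⟨s, by rwa [hH.res_cut hs.le] at h⟩
      · intro h
        obtain ⟨s, hs, h'⟩ := hb u (lt_succ_iff.2 hu) h
        exact ⟨s, hs, by simpa only [hH.res_cut hs.le] using h'⟩
    refine (key x le_rfl).1 (Fn.ind_le (C := C)
      (P := fun u => BEx b fun s => R u s (res (cut H b) s)) (by fun_prop) x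
      ((key 0 zero_le).2 h0) (fun u hu h => ?_) x le_rfl)
    exact (key _ (lt_iff_succ_le.1 hu)).2 (hs u ((key u hu.le).1 h))
  · rintro W ⟨R, hR, e⟩ a ha
    simp only [e] at ha ⊢
    exact h2 R hR a ha
  · obtain ⟨U, hU', h⟩ := id hU
    have : XpIn (ExtX.cls C hU hH h1) := XpIn.of_subset sub
    have hc : Fn (ExtX.cls C hU hH h1) fun s : M => cut H s :=
      Fn.sep (P := fun (_ : M) i => i ∈ H) Fn.id' (hHE.comp Fn.snd0)
    have hUE := hU'.mono sub
    refine ⟨fun e x y => U e (pair x (pair (fstM y) (cut H (fstM y)))) (sndM y), by fun_prop, ?_⟩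
    rintro W ⟨R, hR, e⟩
    obtain ⟨k, hk⟩ := h _ hR.sig
    have key : ∀ x s τ : M, R x s τ ↔ ∃ z, U k (pair x (pair s τ)) z := by
      intro x s τ
      rw [← hk]
      simp
    refine ⟨k, fun x => ?_⟩
    rw [e]
    constructor
    · rintro ⟨s, hs⟩
      obtain ⟨z, hz⟩ := (key _ _ _).1 hs
      exact ⟨pair s z, by simpa using hz⟩
    · rintro ⟨y, hy⟩
      exact ⟨fstM y, (key _ _ _).2 ⟨_, hy⟩⟩

end Pool.Agent.MP75f14d
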