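import Pool.Agent.MP_75f14d_lc.Ind

/-! A generic path through an infinite recursive tree preserves collection. -/

namespace Pool.Agent.MP75f14d

variable {M : Type} [Ar M]

namespace GenericX

/-- A forcing condition: an infinite recursive subtree. -/
structure Cond (J : Cls M) (T : M → M → Prop) (rs : M → M → M) (S : M → M → Prop) : Prop where
  fn : Fn J fun p : M × M => S p.1 p.2
  sub : ∀ n t, S n t → T n t
  down : ∀ n t m, S n t → m ≤ n → S m (rs t m)
  inf : ∀ n, ∃ t, S n t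

variable {J : Cls M} {T : M → M → Prop} {rs : M → M → M} {B : M → M}

/-- If finitely many subtrees together have nodes on all levels then one of them does. -/
theorem pigeon [Coll J] (hB : Fn J B) (bd : ∀ n t, T n t → t < B n) {F : M → M → M → Prop}
    (hF : Fn J fun p : M × M × M => F p.1 p.2.1 p.2.2) (sub : ∀ x n t, F x n t → T n t)
    (down : ∀ x n t m, F x n t → m ≤ n → F x m (rs t m)) {a : M}
    (h : ∀ L, ∃ x < a, ∃ u, F x L u) : ∃ x < a, Cond J T rs (F x) := by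
  by_contra hn
  have h1 : ∀ x < a, ∃ m, BAll (B m) fun u => ¬ F x m u := fun x hx => by
    by_contra h2
    refine hn ⟨x, hx, ?_, sub x, down x, fun n => ?_⟩
    · exact hF.comp (g := fun p : M × M => (x, p.1, p.2)) (by fun_prop)
    · by_contra h3
      exact h2 ⟨n, fun u _ hu => h3 ⟨u, hu⟩⟩
  have h2 : Fn J fun p : M × M => BAll (B p.2) fun u => ¬ F p.1 p.2 u :=
    Fn.ball (by fun_prop) (Fn.not
      (hF.comp (g := fun p : (M × M) × M => (p.1.1, p.1.2, p.2)) (by fun_prop)))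
  obtain ⟨b, hb⟩ := Sig.coll (C := J) (P := fun x m => BAll (B m) fun u => ¬ F x m u) h2.sig h1
  obtain ⟨x, hx, u, hu⟩ := h b
  obtain ⟨m, hm, hm'⟩ := hb x hx
  have := down x b u m hu hm.le
  exact hm' _ (bd _ _ (sub _ _ _ this)) this

/-- A level can be decided. -/
theorem dense_level [Coll J] (hrs : Fn J fun p : M × M => rs p.1 p.2) (hB : Fn J B)
    (bd : ∀ n t, T n t → t < B n) (trans : ∀ t n m, m ≤ n → rs (rs t n) m = rs t m)
    {S : M → M → Prop} (hS : Cond J T rs S) (n : M) :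
    ∃ S', Cond J T rs S' ∧ (∀ m u, S' m u → S m u) ∧ ∃ t, ∀ u, S' n u → u = t := by
  have hf := hS.fn
  obtain ⟨t, -, ht⟩ := pigeon (J := J) (T := T) (rs := rs) hB bd
    (F := fun t m u => S m u ∧ Imp (n ≤ m) (rs u n = t) ∧ Imp (m ≤ n) (u = rs t m))
    (by fun_prop) (fun _ _ _ h => hS.sub _ _ h.1) (a := B n)
    (by
      rintro t m u k ⟨h1, h2, h3⟩ hk
      refine ⟨hS.down _ _ _ h1 hk, fun h => ?_, fun h => ?_⟩
      · rw [trans _ _ _ h]; exact h2 (h.trans hk)
      · rcases le_total n m with h' | h'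
        · rw [← h2 h', trans _ _ _ h]
        · rw [h3 h', trans _ _ _ hk])
    (fun L => by
      obtain ⟨v, hv⟩ := hS.inf (n + L)
      exact ⟨rs v n, bd _ _ (hS.sub _ _ (hS.down _ _ _ hv le_self_add)), rs v L,
        hS.down _ _ _ hv le_add_self, fun h => trans _ _ _ h, fun h => (trans _ _ _ h).symm⟩)
  exact ⟨_, ht, fun _ _ h => h.1, rs t n, fun u hu => hu.2.2 le_rfl⟩

/-- An instance of collection can be decided. -/
theorem dense_coll [Coll J] (hrs : Fn J fun p : M × M => rs p.1 p.2) (hB : Fn J B)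
    (bd : ∀ n t, T n t → t < B n) (trans : ∀ t n m, m ≤ n → rs (rs t n) m = rs t m)
    {S : M → M → Prop} (hS : Cond J T rs S) {R : M → M → M → Prop}
    (hR : Fn J fun p : M × M × M => R p.1 p.2.1 p.2.2) (a : M) :
    ∃ S', Cond J T rs S' ∧ (∀ m u, S' m u → S m u) ∧
      ((∃ x < a, ∀ n t, S' n t → ∀ s < n + 1, ¬ R x s (rs t s)) ∨
        ∃ b, ∀ t, S' b t → ∀ x < a, ∃ s < b + 1, R x s (rs t s)) := by
  have hf := hS.fn
  by_cases h : ∀ L, ∃ x < a, ∃ u, S L u ∧ BAll (L + 1) fun s => ¬ R x s (rs u s)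
  · have h2 : Fn J fun p : M × M × M => BAll (p.2.1 + 1) fun s => ¬ R p.1 s (rs p.2.2 s) :=
      Fn.ball (by fun_prop) (Fn.not (hR.comp
        (g := fun p : (M × M × M) × M => (p.1.1, p.2, rs p.1.2.2 p.2)) (by fun_prop)))
    obtain ⟨x, hx, ht⟩ := pigeon (J := J) (T := T) (rs := rs) hB bd
      (F := fun x n t => S n t ∧ BAll (n + 1) fun s => ¬ R x s (rs t s))
      (Fn.and (by fun_prop) h2) (fun _ _ _ h => hS.sub _ _ h.1)
      (by
        rintro x n t m ⟨h1, h2⟩ hm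
        refine ⟨hS.down _ _ _ h1 hm, fun s hs => ?_⟩
        have hs' := lt_succ_iff.1 hs
        show ¬ R x s (rs (rs t m) s)
        rw [trans _ _ _ hs']
        exact h2 s (lt_succ_iff.2 (hs'.trans hm))) h
    exact ⟨_, ht, fun _ _ h => h.1, Or.inl ⟨x, hx, fun n t h => h.2⟩⟩
  · refine ⟨S, hS, fun _ _ h => h, Or.inr ?_⟩
    rw [not_forall] at h
    obtain ⟨L, hL⟩ := h
    refine ⟨L, fun t ht x hx => ?_⟩
    by_contra hn
    exact hL ⟨x, hx, t, ht, fun s hs hr => hn ⟨s, hs, hr⟩⟩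

/-- Countably many dense sets are met by a decreasing sequence. -/
theorem exists_seq {α ι : Type} [Countable ι] [Nonempty ι] (r : α → α → Prop)
    (rrefl : ∀ a, r a a) (rtrans : ∀ a b c, r a b → r b c → r a c) (a₀ : α) (D : ι → α → Prop)
    (h : ∀ i a, ∃ b, r b a ∧ D i b) :
    ∃ s : ℕ → α, (∀ k l, k ≤ l → r (s l) (s k)) ∧ ∀ i, ∃ k, D i (s k) := by
  obtain ⟨e, he⟩ := exists_surjective_nat ι
  choose g hg using h
  refine ⟨fun k => Nat.rec a₀ (fun k a => g (e k) a) k, fun k l hkl => ?_, fun i => ?_⟩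
  · induction l, hkl using Nat.le_induction with
    | base => exact rrefl _
    | succ l _ ih => exact rtrans _ _ _ (hg _ _).1 ih
  · obtain ⟨k, rfl⟩ := he i
    exact ⟨k + 1, (hg _ _).2⟩

theorem countable_rel (hJ : J.sets.Countable) :
    Countable {R : M → M → M → Prop // Fn J fun p : M × M × M => R p.1 p.2.1 p.2.2} := by
  have := hJ.to_subtype
  refine Function.Injective.countable
    (f := fun R : {R : M → M → M → Prop // Fn J fun p : M × M × M => R p.1 p.2.1 p.2.2} =>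
      (⟨_, R.2.sig⟩ : J.sets)) fun R R' e => ?_
  have e' := Set.ext_iff.1 (congrArg Subtype.val e)
  refine Subtype.ext (funext fun x => funext fun y => funext fun z => propext ?_)
  simpa [and_assoc] using e' (pair x (pair y z))

end GenericX

open GenericX in
/-- `T n t`: `t` is a node of level `n`; `rs t m` is its predecessor at level `m`; nodes of level
`n` are below `B n`. -/
theorem exists_generic [Countable M] (J : Cls M) [Ind J] [Coll J] (hJ : J.sets.Countable)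
    {T : M → M → Prop} {rs : M → M → M} {B : M → M}
    (hT : Fn J fun p : M × M => T p.1 p.2) (hrs : Fn J fun p : M × M => rs p.1 p.2) (hB : Fn J B)
    (bd : ∀ n t, T n t → t < B n) (down : ∀ n t m, T n t → m ≤ n → T m (rs t m))
    (self : ∀ n t, T n t → rs t n = t)
    (trans : ∀ t n m, m ≤ n → rs (rs t n) m = rs t m) (inf : ∀ n, ∃ t, T n t) :
    ∃ P : M → M, (∀ n, T n (P n)) ∧ (∀ m n, m ≤ n → rs (P n) m = P m) ∧
      ∀ R : M → M → M → Prop, Fn J (fun p : M × M × M => R p.1 p.2.1 p.2.2) →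
        ∀ a, (∀ x < a, ∃ s, R x s (P s)) → ∃ b, ∀ x < a, ∃ s < b, R x s (P s) := by
  have := countable_rel hJ
  obtain ⟨s, hs, hD⟩ := exists_seq (α := {S // Cond J T rs S})
    (ι := M ⊕ {R : M → M → M → Prop // Fn J fun p : M × M × M => R p.1 p.2.1 p.2.2} × M)
    (fun S' S => ∀ m u, S'.1 m u → S.1 m u) (fun _ _ _ h => h)
    (fun _ _ _ h1 h2 _ _ h => h2 _ _ (h1 _ _ h)) ⟨T, hT, fun _ _ h => h, down, inf⟩
    (fun i S => Sum.elim (fun n => ∃ t, ∀ u, S.1 n u → u = t)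
      (fun q => (∃ x < q.2, ∀ n t, S.1 n t → ∀ s < n + 1, ¬ q.1.1 x s (rs t s)) ∨
        ∃ b, ∀ t, S.1 b t → ∀ x < q.2, ∃ s < b + 1, q.1.1 x s (rs t s)) i)
    (by
      rintro (n | ⟨R, a⟩) S
      · obtain ⟨S', h1, h2, h3⟩ := dense_level hrs hB bd trans S.2 n
        exact ⟨⟨S', h1⟩, h2, h3⟩
      · obtain ⟨S', h1, h2, h3⟩ := dense_coll hrs hB bd trans S.2 R.2 a
        exact ⟨⟨S', h1⟩, h2, h3⟩)
  have h1 : ∀ n, ∃ k t, ∀ u, (s k).1 n u → u = t := fun n => hD (Sum.inl n)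
  choose k P hP using h1
  have key : ∀ l n, (s l).1 n (P n) := fun l n => by
    obtain ⟨u, hu⟩ := (s (max l (k n))).2.inf n
    rw [← hP n u (hs _ _ (le_max_right _ _) _ _ hu)]
    exact hs _ _ (le_max_left _ _) _ _ hu
  have hc : ∀ m n, m ≤ n → rs (P n) m = P m := fun m n h =>
    hP m _ ((s (k m)).2.down _ _ _ (key _ n) h)
  refine ⟨P, fun n => (s 0).2.sub _ _ (key 0 n), hc, fun R hR a ha => ?_⟩
  obtain ⟨l, ⟨x, hx, h⟩ | ⟨b, h⟩⟩ := hD (Sum.inr (⟨R, hR⟩, a))
  · obtain ⟨t, ht⟩ := ha x hx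
    refine absurd ?_ (h t _ (key l t) t (lt_add_one t))
    rwa [hc t t le_rfl]
  · refine ⟨b + 1, fun x hx => ?_⟩
    obtain ⟨t, ht, ht'⟩ := h _ (key l b) x hx
    rw [hc t b (lt_succ_iff.1 ht)] at ht'
    exact ⟨t, ht, ht'⟩

end Pool.Agent.MP75f14d
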