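import Pool.Agent.MP_75f14d_lc.Cls

/-! Induction and collection principles for a class, bounded minimisation, unpairing. -/

namespace Pool.Agent.MP75f14d

open Classical

variable {M : Type} [Ar M]

/-- Induction for the recursive sets of the class. -/
class Ind (C : Cls M) : Prop where
  ind : ∀ W ∈ C.sets, Wᶜ ∈ C.sets → 0 ∈ W → (∀ x ∈ W, x + 1 ∈ W) → ∀ x, x ∈ W

/-- Induction for the r.e. sets of the class. -/
class SInd (C : Cls M) : Prop where
  ind : ∀ W ∈ C.sets, 0 ∈ W → (∀ x ∈ W, x + 1 ∈ W) → ∀ x, x ∈ W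

/-- Collection for the r.e. sets of the class. -/
class Coll (C : Cls M) : Prop where
  coll : ∀ W ∈ C.sets, ∀ a, (∀ x < a, ∃ y, pair x y ∈ W) → ∃ b, ∀ x < a, ∃ y < b, pair x y ∈ W

/-- Collection for the co-r.e. sets of the class. -/
class Coll2 (C : Cls M) : Prop where
  coll : ∀ W ∈ C.sets, ∀ a, (∀ x < a, ∃ y, pair x y ∉ W) → ∃ b, ∀ x < a, ∃ y < b, pair x y ∉ W

/-- Normal form: every r.e. set is the projection of a recursive relation. -/
def NF (C : Cls M) : Prop :=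
  ∀ W ∈ C.sets, ∃ R : M → M → Prop, Fn C (fun p : M × M => R p.1 p.2) ∧ ∀ x, x ∈ W ↔ ∃ y, R x y

/-- The class has a universal r.e. set. -/
def Univ (C : Cls M) : Prop :=
  ∃ U : M → M → M → Prop, Fn C (fun p : M × M × M => U p.1 p.2.1 p.2.2) ∧
    ∀ W ∈ C.sets, ∃ e, ∀ x, x ∈ W ↔ ∃ y, U e x y

variable {C : Cls M} {α β : Type} [Cd M α] [Cd M β]

theorem Univ.nf (h : Univ C) : NF C := by
  obtain ⟨U, hU, h⟩ := h
  intro W hW
  obtain ⟨e, he⟩ := h W hW
  exact ⟨U e, by fun_prop, he⟩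

theorem Univ.countable [Countable M] (h : Univ C) : C.sets.Countable := by
  obtain ⟨U, -, h⟩ := h
  refine (Set.countable_range fun e : M => {x | ∃ y, U e x y}).mono fun W hW => ?_
  obtain ⟨e, he⟩ := h W hW
  exact ⟨e, (Set.ext he).symm⟩

/-- Normal form for predicates on a coded type. -/
theorem NF.sig (h : NF C) {P : α → Prop} (hP : Sig C P) :
    ∃ R : α → M → Prop, Fn C (fun p : α × M => R p.1 p.2) ∧ ∀ a, P a ↔ ∃ y, R a y := by
  obtain ⟨R, hR, e⟩ := h _ hP
  refine ⟨fun a y => R (enc M a) y, by fun_prop, fun a => ?_⟩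
  rw [← e]; simp

theorem Sig.mono {C' : Cls M} (h : C.sets ⊆ C'.sets) {P : α → Prop} (hP : Sig C P) : Sig C' P :=
  h hP

theorem Fn.mono {C' : Cls M} (h : C.sets ⊆ C'.sets) {f : α → β} (hf : Fn C f) : Fn C' f :=
  h hf

theorem fn_mem_iff {W : Set M} : Fn C (fun x : M => x ∈ W) ↔ W ∈ C.sets ∧ Wᶜ ∈ C.sets :=
  ⟨fun h => ⟨sig_iff_mem.1 h.sig, sig_iff_mem.1 h.sig_not⟩,
    fun h => Fn.of_sig (sig_iff_mem.2 h.1) (sig_iff_mem.2 h.2)⟩

theorem SInd.of_subset {C' : Cls M} [SInd C'] (h : C.sets ⊆ C'.sets) : SInd C :=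
  ⟨fun W hW => SInd.ind (C := C') W (h hW)⟩

theorem Coll2.of_subset {C' : Cls M} [Coll2 C'] (h : C.sets ⊆ C'.sets) : Coll2 C :=
  ⟨fun W hW => Coll2.coll (C := C') W (h hW)⟩

instance [SInd C] : Ind C := ⟨fun W hW _ => SInd.ind W hW⟩

theorem Fn.ind [Ind C] {P : M → Prop} (hP : Fn C P) (h0 : P 0) (hs : ∀ x, P x → P (x + 1)) :
    ∀ x, P x :=
  Ind.ind (C := C) {x | P x} hP.sig.mem_sets hP.sig_not.mem_sets h0 hs

theorem Sig.ind [SInd C] {P : M → Prop} (hP : Sig C P) (h0 : P 0) (hs : ∀ x, P x → P (x + 1)) :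
    ∀ x, P x :=
  SInd.ind (C := C) {x | P x} hP.mem_sets h0 hs

/-- Induction up to a bound. -/
theorem Sig.ind_le [SInd C] {P : M → Prop} (hP : Sig C P) (a : M) (h0 : P 0)
    (hs : ∀ x < a, P x → P (x + 1)) : ∀ x ≤ a, P x := by
  refine Sig.ind (C := C) (P := fun x => x ≤ a → P x) (Sig.imp (by fun_prop) hP) (fun _ => h0) ?_
  intro x ih hx
  exact hs x (lt_iff_succ_le.2 hx) (ih (le_trans le_self_add hx))

theorem Fn.ind_le [Ind C] {P : M → Prop} (hP : Fn C P) (a : M) (h0 : P 0)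
    (hs : ∀ x < a, P x → P (x + 1)) : ∀ x ≤ a, P x := by
  refine Fn.ind (C := C) (P := fun x => Imp (x ≤ a) (P x)) (by fun_prop) (fun _ => h0) ?_
  intro x ih hx
  exact hs x (lt_iff_succ_le.2 hx) (ih (le_trans le_self_add hx))

/-- Strong induction. -/
theorem Fn.strong_ind [Ind C] {P : M → Prop} (hP : Fn C P) (hs : ∀ x, (∀ y < x, P y) → P x) :
    ∀ x, P x := by
  have : ∀ x, BAll x P := by
    refine Fn.ind (C := C) (by fun_prop) (fun y hy => absurd hy (not_lt_zero y)) ?_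
    intro x ih y hy
    rcases lt_succ_iff_lt_or_eq.1 hy with h | rfl
    · exact ih y h
    · exact hs y ih
  exact fun x => hs x (this x)

/-- Least number principle. -/
theorem Fn.lnp [Ind C] {P : M → Prop} (hP : Fn C P) {a : M} (ha : P a) :
    ∃ x, P x ∧ ∀ y < x, ¬ P y := by
  by_contra h
  push Not at h
  refine Fn.strong_ind (C := C) (P := fun x => ¬ P x) hP.not (fun x ih hx => ?_) a ha
  obtain ⟨y, hy, hy'⟩ := h x hx
  exact ih y hy hy'

/-- A bounded nonempty recursive set has a largest element. -/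
theorem Fn.exists_max [Ind C] {P : M → Prop} (hP : Fn C P) {a b : M} (ha : P a)
    (hb : ∀ x, P x → x < b) : ∃ x, P x ∧ ∀ y, P y → y ≤ x := by
  obtain ⟨c, hc, hmin⟩ := Fn.lnp (C := C) (P := fun c => BAll b fun x => Imp (P x) (x < c))
    (by fun_prop) (a := b) fun x hx _ => hx
  rcases eq_zero_or_succ c with rfl | ⟨d, rfl⟩
  · exact absurd (hc a (hb a ha) ha) (not_lt_zero a)
  · have := hmin d (lt_add_one d)
    simp only [BAll, Imp, not_forall, not_lt] at this
    obtain ⟨x, hxb, hx, hdx⟩ := this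
    have : x = d := le_antisymm (lt_succ_iff.1 (hc x hxb hx)) hdx
    subst this
    exact ⟨x, hx, fun y hy => lt_succ_iff.1 (hc y (hb y hy) hy)⟩

theorem sig_pair_set {P : M → M → Prop} (h : Sig C fun p : M × M => P p.1 p.2) :
    ∃ W ∈ C.sets, ∀ x y, pair x y ∈ W ↔ P x y :=
  ⟨_, h, fun x y => by simp⟩

theorem Sig.coll [Coll C] {P : M → M → Prop} (h : Sig C fun p : M × M => P p.1 p.2) {a : M}
    (ha : ∀ x < a, ∃ y, P x y) : ∃ b, ∀ x < a, ∃ y < b, P x y := by
  obtain ⟨W, hW, e⟩ := sig_pair_set h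
  simpa only [e] using Coll.coll W hW a (by simpa only [e] using ha)

theorem Sig.coll2 [Coll2 C] {P : M → M → Prop} (h : Sig C fun p : M × M => P p.1 p.2) {a : M}
    (ha : ∀ x < a, ∃ y, ¬ P x y) : ∃ b, ∀ x < a, ∃ y < b, ¬ P x y := by
  obtain ⟨W, hW, e⟩ := sig_pair_set h
  simpa only [e] using Coll2.coll W hW a (by simpa only [e] using ha)

instance [SInd C] : Coll C where
  coll W hW a ha := by
    have hW' : Sig C fun x : M => x ∈ W := sig_iff_mem.2 hW
    refine Sig.ind_le (C := C) (P := fun j => ∃ b, ∀ x < j, ∃ y < b, pair x y ∈ W) ?_ a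
      ⟨0, fun x hx => absurd hx (not_lt_zero x)⟩ ?_ a le_rfl
    · refine Sig.ex (Sig.ball (by fun_prop) (Sig.bex (by fun_prop) ?_))
      exact hW'.comp (by fun_prop)
    · rintro j hj ⟨b, hb⟩
      obtain ⟨y, hy⟩ := ha j hj
      refine ⟨b + y + 1, fun x hx => ?_⟩
      rcases lt_succ_iff_lt_or_eq.1 hx with h | rfl
      · obtain ⟨z, hz, hz'⟩ := hb x h
        exact ⟨z, by zify at *; linarith [nn y], hz'⟩
      · exact ⟨y, by zify; linarith [nn b], hy⟩

/-- A recursive function is bounded on bounded sets. -/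
theorem Fn.bdd [Coll C] {f : M → M} (hf : Fn C f) (a : M) : ∃ b, ∀ x < a, f x < b := by
  obtain ⟨b, hb⟩ := Sig.coll (C := C) (P := fun x y => f x = y) hf (a := a) fun x _ => ⟨_, rfl⟩
  exact ⟨b, fun x hx => by obtain ⟨y, hy, rfl⟩ := hb x hx; exact hy⟩

/-- Bounded minimisation: the least `y < t` with `P y`, and `t` if there is none. -/
noncomputable def mu (t : M) (P : M → Prop) : M :=
  if h : ∃ y, y < t ∧ P y ∧ ∀ z < y, ¬ P z then h.choose else t

theorem mu_eq_iff (t : M) (P : M → Prop) (y : M) :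
    mu t P = y ↔ (y < t ∧ P y ∧ BAll y fun z => ¬ P z) ∨
      (y = t ∧ ¬ BEx t fun y => P y ∧ BAll y fun z => ¬ P z) := by
  unfold mu
  split_ifs with h
  · have hs := h.choose_spec
    constructor
    · rintro rfl; exact Or.inl hs
    · rintro (⟨h1, h2, h3⟩ | ⟨-, h2⟩)
      · rcases lt_trichotomy h.choose y with h' | h' | h'
        · exact absurd hs.2.1 (h3 _ h')
        · exact h'
        · exact absurd h2 (hs.2.2 _ h')
      · exact absurd h h2
  · constructor
    · rintro rfl; exact Or.inr ⟨rfl, h⟩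
    · rintro (h' | ⟨h1, -⟩)
      · exact absurd ⟨y, h'⟩ h
      · exact h1.symm

@[fun_prop] theorem Fn.mu {P : α → M → Prop} {t : α → M} (ht : Fn C t)
    (h : Fn C fun p : α × M => P p.1 p.2) : Fn C fun a => mu (t a) (P a) :=
  Fn.of_graph (G := fun a y => (y < t a ∧ P a y ∧ BAll y fun z => ¬ P a z) ∨
      (y = t a ∧ ¬ BEx (t a) fun y => P a y ∧ BAll y fun z => ¬ P a z))
    (Fn.sig (by fun_prop)) fun a y => mu_eq_iff _ _ _

theorem mu_le (t : M) (P : M → Prop) : mu t P ≤ t := by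
  rcases (mu_eq_iff t P _).1 rfl with h | h
  · exact h.1.le
  · exact h.1.le

theorem mu_eq_of {t : M} {P : M → Prop} {y : M} (h1 : y < t) (h2 : P y) (h3 : ∀ z < y, ¬ P z) :
    mu t P = y := (mu_eq_iff t P y).2 (Or.inl ⟨h1, h2, h3⟩)

theorem mu_spec (C : Cls M) [Ind C] {t : M} {P : M → Prop} (hP : Fn C P) {y : M} (hy : y < t)
    (h : P y) : mu t P ≤ y ∧ P (mu t P) ∧ ∀ z < mu t P, ¬ P z := by
  obtain ⟨x, hx, hmin⟩ := hP.lnp h
  have hxy : x ≤ y := not_lt.1 fun h' => hmin y h' h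
  rw [mu_eq_of (lt_of_le_of_lt hxy hy) hx hmin]
  exact ⟨hxy, hx, hmin⟩

/-- Unbounded minimisation of a recursive relation with full domain. -/
theorem exists_fn_least [Ind C] {P : α → M → Prop} (h : Fn C fun p : α × M => P p.1 p.2)
    (hex : ∀ a, ∃ y, P a y) : ∃ f : α → M, Fn C f ∧ ∀ a, P a (f a) ∧ ∀ z < f a, ¬ P a z := by
  have : ∀ a, ∃ y, P a y ∧ ∀ z < y, ¬ P a z := fun a =>
    (hex a).elim fun y hy => Fn.lnp (C := C) (P := P a) (by fun_prop) hy
  choose f hf using this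
  refine ⟨f, Fn.of_graph (G := fun a y => P a y ∧ BAll y fun z => ¬ P a z)
    (Fn.sig (by fun_prop)) fun a y => ⟨?_, ?_⟩, hf⟩
  · rintro rfl; exact hf a
  · rintro ⟨h1, h2⟩
    rcases lt_trichotomy (f a) y with h' | h' | h'
    · exact absurd (hf a).1 (h2 _ h')
    · exact h'
    · exact absurd h1 ((hf a).2 _ h')

/-- First projection of a pair code. -/
noncomputable def fstM (p : M) : M := mu (p + 1) fun x => BEx (p + 1) fun y => pair x y = p
/-- Second projection of a pair code. -/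
noncomputable def sndM (p : M) : M := mu (p + 1) fun y => BEx (p + 1) fun x => pair x y = p

@[fun_prop] theorem Fn.fstM {f : α → M} (hf : Fn C f) : Fn C fun a => fstM (f a) := by
  unfold MP75f14d.fstM; fun_prop

@[fun_prop] theorem Fn.sndM {f : α → M} (hf : Fn C f) : Fn C fun a => sndM (f a) := by
  unfold MP75f14d.sndM; fun_prop

@[simp] theorem fstM_pair (a b : M) : fstM (pair a b) = a :=
  mu_eq_of (lt_succ_iff.2 (le_pair_left a b)) ⟨b, lt_succ_iff.2 (le_pair_right a b), rfl⟩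
    fun _ hz ⟨_, _, h⟩ => hz.ne (pair_inj h).1

@[simp] theorem sndM_pair (a b : M) : sndM (pair a b) = b :=
  mu_eq_of (lt_succ_iff.2 (le_pair_right a b)) ⟨a, lt_succ_iff.2 (le_pair_left a b), rfl⟩
    fun _ hz ⟨_, _, h⟩ => hz.ne (pair_inj h).2

/-- Division with remainder. -/
theorem exists_div_mod (C : Cls M) [Ind C] (a : M) {b : M} (hb : 0 < b) :
    ∃ q r, r < b ∧ a = q * b + r := by
  have : ∀ a : M, BEx (a + 1) fun q => BEx b fun r => a = q * b + r := by
    refine Fn.ind (C := C) (by fun_prop) ⟨0, by simp, 0, hb, by simp⟩ ?_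
    rintro x ⟨q, hq, r, hr, e⟩
    rcases (lt_iff_succ_le.1 hr).lt_or_eq with h | h
    · exact ⟨q, lt_trans hq (lt_add_one _), r + 1, h, by rw [e, add_assoc]⟩
    · exact ⟨q + 1, add_lt_add_left hq 1, 0, hb, by rw [e, add_assoc, h]; ring⟩
  obtain ⟨q, -, r, hr, e⟩ := this a
  exact ⟨q, r, hr, e⟩

theorem div_mod_unique {q r q' r' b : M} (hr : r < b) (hr' : r' < b)
    (e : q * b + r = q' * b + r') : q = q' ∧ r = r' := by
  have : q = q' := by
    rcases lt_trichotomy q q' with h | h | h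
    · exfalso; zify at *; nlinarith [nn r, nn r', nn b]
    · exact h
    · exfalso; zify at *; nlinarith [nn r, nn r', nn b]
  subst this
  exact ⟨rfl, add_left_cancel e⟩

theorem even_or_odd (C : Cls M) [Ind C] (a : M) : ∃ q, a = 2 * q ∨ a = 2 * q + 1 := by
  obtain ⟨q, r, hr, e⟩ := exists_div_mod C a (b := 2) (by positivity)
  refine ⟨q, ?_⟩
  rcases eq_zero_or_succ r with rfl | ⟨s, rfl⟩
  · left; rw [e]; ring
  · have : s = 0 := by
      apply le_antisymm _ zero_le
      zify at *; linarith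
    right; rw [e, this]; ring

/-- A model with an exponential function that is recursive in some class with induction. -/
class Good (M : Type) [Ar M] where
  exp : M → M
  exp_zero : exp 0 = 1
  exp_succ : ∀ x, exp (x + 1) = 2 * exp x
  base : ∃ C : Cls M, SInd C ∧ Fn C exp

export Good (exp exp_zero exp_succ)

/-- The exponential function is recursive in the class. -/
class XpIn [Good M] (C : Cls M) : Prop where
  fn : Fn C (exp : M → M)

@[fun_prop] theorem Fn.exp [Good M] [XpIn C] {f : α → M} (hf : Fn C f) :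
    Fn C fun a => exp (f a) := XpIn.fn.comp hf

theorem exists_base (M : Type) [Ar M] [Good M] : ∃ C : Cls M, SInd C ∧ XpIn C :=
  let ⟨C, h1, h2⟩ := Good.base (M := M); ⟨C, h1, ⟨h2⟩⟩

theorem XpIn.of_subset [Good M] {C' : Cls M} [XpIn C] (h : C.sets ⊆ C'.sets) : XpIn C' :=
  ⟨XpIn.fn.mono h⟩

end Pool.Agent.MP75f14d
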