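import Pool.Agent.MP_75f14d_lc.Ind

/-! The class of Sigma2 sets over a class. -/

namespace Pool.Agent.MP75f14d

variable {M : Type} [Ar M]

namespace JumpX

/-- `W` is the projection of a co-r.e. relation. -/
def S2 (C : Cls M) (W : Set M) : Prop :=
  ∃ P : M → M → Prop, Sig C (fun p : M × M => P p.1 p.2) ∧ ∀ x, x ∈ W ↔ ∃ y, ¬ P x y

variable {C : Cls M}

theorem S2.of2 {W : Set M} {P : M → M → M → Prop}
    (h : Sig C fun p : M × M × M => P p.1 p.2.1 p.2.2) (e : ∀ x, x ∈ W ↔ ∃ y z, ¬ P x y z) :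
    S2 C W := by
  refine ⟨fun x u => P x (fstM u) (sndM u), ?_, fun x => (e x).trans ⟨?_, ?_⟩⟩
  · exact h.comp (f := fun p : M × M => (p.1, fstM p.2, sndM p.2)) (by fun_prop)
  · rintro ⟨y, z, hyz⟩
    exact ⟨pair y z, by simpa using hyz⟩
  · rintro ⟨u, hu⟩
    exact ⟨_, _, hu⟩

theorem S2.pre {W V : Set M} (h : S2 C W) {D : M → Prop} (hD : Fn C D) {f : M → M} (hf : Fn C f)
    (e : ∀ x, x ∈ V ↔ D x ∧ f x ∈ W) : S2 C V := by
  obtain ⟨P, hP, eP⟩ := h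
  refine ⟨fun x y => D x → P (f x) y, ?_, fun x => ?_⟩
  · exact Sig.imp (by fun_prop) (hP.comp (f := fun p : M × M => (f p.1, p.2)) (by fun_prop))
  · rw [e, eP]
    constructor
    · rintro ⟨h1, y, hy⟩
      exact ⟨y, fun h2 => hy (h2 h1)⟩
    · rintro ⟨y, hy⟩
      rw [Classical.not_imp] at hy
      exact ⟨hy.1, y, hy.2⟩

theorem S2.of_mem (h : NF C) {W : Set M} (hW : W ∈ C.sets) : S2 C W := by
  obtain ⟨R, hR, e⟩ := h W hW
  exact ⟨fun x y => ¬ R x y, hR.sig_not, fun x => by simp [e]⟩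

theorem S2.compl {W : Set M} (hW : W ∈ C.sets) : S2 C Wᶜ :=
  ⟨fun x _ => x ∈ W, (sig_iff_mem.2 hW).cyl, fun x => by simp⟩

theorem S2.inter {W V : Set M} (h1 : S2 C W) (h2 : S2 C V) : S2 C (W ∩ V) := by
  obtain ⟨P, hP, eP⟩ := h1
  obtain ⟨Q, hQ, eQ⟩ := h2
  refine S2.of2 (P := fun x y z => P x y ∨ Q x z) (Sig.or ?_ ?_) fun x => ?_
  · exact hP.comp (f := fun p : M × M × M => (p.1, p.2.1)) (by fun_prop)
  · exact hQ.comp (f := fun p : M × M × M => (p.1, p.2.2)) (by fun_prop)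
  · simp only [Set.mem_inter_iff, eP, eQ, not_or, exists_and_left, exists_and_right]

theorem S2.union {W V : Set M} (h1 : S2 C W) (h2 : S2 C V) : S2 C (W ∪ V) := by
  obtain ⟨P, hP, eP⟩ := h1
  obtain ⟨Q, hQ, eQ⟩ := h2
  refine ⟨fun x y => P x y ∧ Q x y, hP.and hQ, fun x => ?_⟩
  simp only [Set.mem_union, eP, eQ, not_and_or, exists_or]

theorem S2.ex {W : Set M} (h : S2 C W) : S2 C {x | ∃ y, pair x y ∈ W} := by
  obtain ⟨P, hP, eP⟩ := h
  refine S2.of2 (P := fun x y z => P (pair x y) z) ?_ fun x => ?_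
  · exact hP.comp (f := fun p : M × M × M => (pair p.1 p.2.1, p.2.2)) (by fun_prop)
  · simp only [Set.mem_setOf_eq, eP]

theorem S2.ball [Coll2 C] {W : Set M} (h : S2 C W) :
    S2 C {p | ∃ x b, p = pair x b ∧ ∀ y < b, pair x y ∈ W} := by
  obtain ⟨P, hP, eP⟩ := h
  refine ⟨fun p c => p = pair (fstM p) (sndM p) → ∃ y < sndM p, ∀ z < c, P (pair (fstM p) y) z,
    ?_, fun p => ⟨?_, ?_⟩⟩
  · refine Sig.imp (by fun_prop) (Sig.bex (by fun_prop) (Sig.ball (by fun_prop) ?_))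
    exact hP.comp (f := fun p : ((M × M) × M) × M => (pair (fstM p.1.1.1) p.1.2, p.2))
      (by fun_prop)
  · rintro ⟨x, b, rfl, hb⟩
    obtain ⟨c, hc⟩ := Sig.coll2 (C := C) (P := fun y z => P (pair x y) z)
      (hP.comp (f := fun p : M × M => (pair x p.1, p.2)) (by fun_prop)) (a := b)
      fun y hy => (eP _).1 (hb y hy)
    refine ⟨c, fun hh => ?_⟩
    simp only [fstM_pair, sndM_pair, forall_const] at hh
    obtain ⟨y, hy, hz⟩ := hh
    obtain ⟨z, hzc, hz'⟩ := hc y hy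
    exact hz' (hz z hzc)
  · rintro ⟨c, hc⟩
    rw [Classical.not_imp] at hc
    refine ⟨_, _, hc.1, fun y hy => (eP _).2 ?_⟩
    by_contra hn
    exact hc.2 ⟨y, hy, fun z _ => by_contra fun hz => hn ⟨z, hz⟩⟩

theorem S2.cyl {W : Set M} (h : S2 C W) : S2 C {p | ∃ x y, p = pair x y ∧ x ∈ W} :=
  h.pre (D := fun p => p = pair (fstM p) (sndM p)) (f := fun p => fstM p) (by fun_prop)
    (by fun_prop) fun p =>
      ⟨by rintro ⟨x, y, rfl, hx⟩; simpa using hx, fun ⟨h1, h2⟩ => ⟨_, _, h1, h2⟩⟩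

theorem S2.swap {W : Set M} (h : S2 C W) : S2 C {p | ∃ x y, p = pair y x ∧ pair x y ∈ W} :=
  h.pre (D := fun p => p = pair (fstM p) (sndM p)) (f := fun p => pair (sndM p) (fstM p))
    (by fun_prop) (by fun_prop) fun p =>
      ⟨by rintro ⟨x, y, rfl, hx⟩; simpa using hx, fun ⟨h1, h2⟩ => ⟨_, _, h1, h2⟩⟩

theorem S2.swap23 {W : Set M} (h : S2 C W) :
    S2 C {p | ∃ x y z, p = pair (pair x z) y ∧ pair (pair x y) z ∈ W} :=
  h.pre (D := fun p => p = pair (pair (fstM (fstM p)) (sndM (fstM p))) (sndM p))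
    (f := fun p => pair (pair (fstM (fstM p)) (sndM p)) (sndM (fstM p)))
    (by fun_prop) (by fun_prop) fun p =>
      ⟨by rintro ⟨x, y, z, rfl, hx⟩; simpa using hx, fun ⟨h1, h2⟩ => ⟨_, _, _, h1, h2⟩⟩

theorem S2.assoc {W : Set M} (h : S2 C W) :
    S2 C {p | ∃ x y z, p = pair (pair x y) z ∧ pair x (pair y z) ∈ W} :=
  h.pre (D := fun p => p = pair (pair (fstM (fstM p)) (sndM (fstM p))) (sndM p))
    (f := fun p => pair (fstM (fstM p)) (pair (sndM (fstM p)) (sndM p)))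
    (by fun_prop) (by fun_prop) fun p =>
      ⟨by rintro ⟨x, y, z, rfl, hx⟩; simpa using hx, fun ⟨h1, h2⟩ => ⟨_, _, _, h1, h2⟩⟩

/-- The class of Sigma2 sets. -/
def cls (C : Cls M) [Coll2 C] (h : NF C) : Cls M where
  sets := {W | S2 C W}
  inter := S2.inter
  union := S2.union
  ex := S2.ex
  ball := S2.ball
  cyl := S2.cyl
  swap := S2.swap
  swap23 := S2.swap23
  assoc := S2.assoc
  univ := S2.of_mem h C.univ
  diag := S2.of_mem h C.diag
  sing c := S2.of_mem h (C.sing c)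
  add := S2.of_mem h C.add
  mul := S2.of_mem h C.mul
  lt := S2.of_mem h C.lt

theorem ind [SInd C] [Coll2 C] {W : Set M} (h1 : S2 C W) (h2 : S2 C Wᶜ) (h0 : 0 ∈ W)
    (hs : ∀ x ∈ W, x + 1 ∈ W) (a : M) : a ∈ W := by
  obtain ⟨P, hP, eP⟩ := h1
  obtain ⟨Q, hQ, eQ⟩ := h2
  obtain ⟨c, hc⟩ := Sig.coll2 (C := C) (P := fun x y => P x y ∧ Q x y) (hP.and hQ) (a := a + 1)
    fun x _ => by
      by_cases hx : x ∈ W
      · obtain ⟨y, hy⟩ := (eP x).1 hx
        exact ⟨y, fun h => hy h.1⟩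
      · obtain ⟨y, hy⟩ := (eQ x).1 hx
        exact ⟨y, fun h => hy h.2⟩
  have key : ∀ x ≤ a, (x ∈ W ↔ ∀ y < c, Q x y) := fun x hx => by
    constructor
    · intro hW y _
      by_contra hy
      exact (eQ x).2 ⟨y, hy⟩ hW
    · intro hq
      obtain ⟨y, hy, hy'⟩ := hc x (lt_succ_iff.2 hx)
      exact (eP x).2 ⟨y, fun hp => hy' ⟨hp, hq y hy⟩⟩
  refine (key a le_rfl).2 (Sig.ind_le (C := C) (P := fun x => ∀ y < c, Q x y)
    (Sig.ball (by fun_prop) hQ) a ((key 0 zero_le).1 h0) (fun x hx ih => ?_) a le_rfl)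
  exact (key _ (lt_iff_succ_le.1 hx)).1 (hs x ((key x hx.le).2 ih))

theorem coll [Coll2 C] {W : Set M} (h : S2 C W) (a : M) (ha : ∀ x < a, ∃ y, pair x y ∈ W) :
    ∃ b, ∀ x < a, ∃ y < b, pair x y ∈ W := by
  obtain ⟨P, hP, eP⟩ := h
  obtain ⟨b, hb⟩ := Sig.coll2 (C := C) (P := fun x u => P (pair x (fstM u)) (sndM u))
    (hP.comp (f := fun p : M × M => (pair p.1 (fstM p.2), sndM p.2)) (by fun_prop)) (a := a)
    fun x hx => by
      obtain ⟨y, hy⟩ := ha x hx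
      obtain ⟨z, hz⟩ := (eP _).1 hy
      exact ⟨pair y z, by simpa using hz⟩
  refine ⟨b + 1, fun x hx => ?_⟩
  obtain ⟨u, hu, hu'⟩ := hb x hx
  exact ⟨fstM u, lt_succ_iff.2 ((mu_le _ _).trans (lt_iff_succ_le.1 hu)), (eP _).2 ⟨_, hu'⟩⟩

theorem countable (h : C.sets.Countable) : {W | S2 C W}.Countable := by
  refine (h.image fun V => {x | ∃ y, pair x y ∉ V}).mono ?_
  rintro W ⟨P, hP, eP⟩
  obtain ⟨V, hV, e⟩ := sig_pair_set hP
  exact ⟨V, hV, Set.ext fun x => by simp only [Set.mem_setOf_eq, e, eP]⟩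

end JumpX

/-- Over a class `C` with Sigma1 induction, Sigma2 collection and normal forms, the Sigma2 sets
form a class `J` with recursive induction and collection in which all r.e. sets of `C` are
recursive. -/
theorem exists_jump (C : Cls M) [SInd C] [Coll2 C] (h : NF C) :
    ∃ J : Cls M, Ind J ∧ Coll J ∧ C.sets ⊆ J.sets ∧ (∀ W ∈ C.sets, Wᶜ ∈ J.sets) ∧
      (C.sets.Countable → J.sets.Countable) :=
  ⟨JumpX.cls C h, ⟨fun _ h1 h2 => JumpX.ind (C := C) h1 h2⟩, ⟨fun _ h1 => JumpX.coll (C := C) h1⟩,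
    fun _ hW => JumpX.S2.of_mem h hW, fun _ hW => JumpX.S2.compl hW, JumpX.countable⟩

end Pool.Agent.MP75f14d
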