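import Pool.Agent.MP_75f14d_lc.MkStr

/-! Iterating one-step extensions. -/

namespace Pool.Agent.MP75f14d

variable {M : Type} [Ar M]

namespace LimitX

/-- A sequence whose next term depends on the last term and on one earlier term. -/
theorem exists_seq {X : Type} (c0 : X) (f : ℕ → X → X → X) :
    ∃ c : ℕ → X, c 0 = c0 ∧ ∀ n, c (n + 1) = f n (c n) (c (Nat.unpair n).1) := by
  let hist : ℕ → ℕ → X := fun n => Nat.rec (fun _ => c0)
    (fun n h m => if m ≤ n then h m else f n (h n) (h (Nat.unpair n).1)) n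
  have hs : ∀ n m, hist (n + 1) m =
      if m ≤ n then hist n m else f n (hist n n) (hist n (Nat.unpair n).1) := fun _ _ => rfl
  have key : ∀ n m, m ≤ n → hist n m = hist m m := by
    intro n
    induction n with
    | zero => intro m hm; rw [Nat.le_zero.1 hm]
    | succ n ih =>
      intro m hm
      rcases Nat.lt_or_eq_of_le hm with h | rfl
      · rw [hs, if_pos (Nat.lt_succ_iff.1 h), ih m (Nat.lt_succ_iff.1 h)]
      · rfl
  refine ⟨fun n => hist n n, rfl, fun n => ?_⟩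
  simp only
  rw [hs, if_neg (Nat.not_succ_le_self n), key n _ (Nat.unpair_left_le n)]

/-- The union of a chain of classes. -/
def chain (c : ℕ → Cls M) (h : Monotone fun n => (c n).sets) : Cls M where
  sets := {W | ∃ n, W ∈ (c n).sets}
  inter := fun ⟨n, h1⟩ ⟨m, h2⟩ =>
    ⟨max n m, (c _).inter (h (le_max_left n m) h1) (h (le_max_right n m) h2)⟩
  union := fun ⟨n, h1⟩ ⟨m, h2⟩ =>
    ⟨max n m, (c _).union (h (le_max_left n m) h1) (h (le_max_right n m) h2)⟩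
  ex := fun ⟨n, h1⟩ => ⟨n, (c n).ex h1⟩
  ball := fun ⟨n, h1⟩ => ⟨n, (c n).ball h1⟩
  cyl := fun ⟨n, h1⟩ => ⟨n, (c n).cyl h1⟩
  swap := fun ⟨n, h1⟩ => ⟨n, (c n).swap h1⟩
  swap23 := fun ⟨n, h1⟩ => ⟨n, (c n).swap23 h1⟩
  assoc := fun ⟨n, h1⟩ => ⟨n, (c n).assoc h1⟩
  univ := ⟨0, (c 0).univ⟩
  diag := ⟨0, (c 0).diag⟩
  sing := fun a => ⟨0, (c 0).sing a⟩
  add := ⟨0, (c 0).add⟩
  mul := ⟨0, (c 0).mul⟩
  lt := ⟨0, (c 0).lt⟩

end LimitX

/-- If every class with property `Q` (which implies countability, Sigma1 induction and Sigma2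
collection) can be extended, keeping `Q`, by a homogeneous set for any given colouring, then it
can be extended to a class satisfying Ramsey's theorem for pairs. -/
theorem exists_limit (Q : Cls M → Prop)
    (hQ : ∀ C, Q C → C.sets.Countable ∧ SInd C ∧ Coll2 C)
    (step : ∀ C, Q C → ∀ Y : Set M, Fn C (fun x : M => x ∈ Y) →
      ∃ E : Cls M, Q E ∧ C.sets ⊆ E.sets ∧ ∃ H : Set M, Fn E (fun x : M => x ∈ H) ∧
        (∀ x, ∃ y, x < y ∧ y ∈ H) ∧ ∃ j : Prop, ∀ x ∈ H, ∀ y ∈ H, x < y → (pair x y ∈ Y ↔ j))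
    (C : Cls M) (hC : Q C) :
    ∃ L : Cls M, C.sets ⊆ L.sets ∧ SInd L ∧ Coll2 L ∧ RTC L := by
  have h1 : ∀ D : {D // Q D}, ∃ en : ℕ → Set M, D.1.sets = Set.range en := fun D =>
    (hQ D.1 D.2).1.exists_eq_range ⟨_, D.1.univ⟩
  choose en hen using h1
  have h2 : ∀ (D : {D // Q D}) (Y : Set M), ∃ E : {D // Q D}, D.1.sets ⊆ E.1.sets ∧
      (Fn D.1 (fun x : M => x ∈ Y) → ∃ H : Set M, Fn E.1 (fun x : M => x ∈ H) ∧
        (∀ x, ∃ y, x < y ∧ y ∈ H) ∧
          ∃ j : Prop, ∀ x ∈ H, ∀ y ∈ H, x < y → (pair x y ∈ Y ↔ j)) := by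
    intro D Y
    by_cases hY : Fn D.1 fun x : M => x ∈ Y
    · obtain ⟨E, hE, hs, hH⟩ := step D.1 D.2 Y hY
      exact ⟨⟨E, hE⟩, hs, fun _ => hH⟩
    · exact ⟨D, subset_rfl, fun h => absurd h hY⟩
  choose nx hsub hhom using h2
  obtain ⟨c, hc0, hc⟩ := LimitX.exists_seq (⟨C, hC⟩ : {D // Q D})
    fun n D D' => nx D (en D' (Nat.unpair n).2)
  have mono : Monotone fun n => (c n).1.sets := monotone_nat_of_le_succ fun n => by
    rw [hc]; exact hsub _ _
  have sub : ∀ n, (c n).1.sets ⊆ (LimitX.chain (fun n => (c n).1) mono).sets :=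
    fun n W hW => ⟨n, hW⟩
  refine ⟨LimitX.chain (fun n => (c n).1) mono, ?_, ⟨?_⟩, ⟨?_⟩, ?_⟩
  · have := sub 0
    rwa [hc0] at this
  · rintro W ⟨n, hW⟩
    exact (hQ _ (c n).2).2.1.ind W hW
  · rintro W ⟨n, hW⟩
    exact (hQ _ (c n).2).2.2.coll W hW
  · intro Y hY
    obtain ⟨⟨a, ha⟩, ⟨b, hb⟩⟩ := fn_mem_iff.1 hY
    have ha' : Y ∈ (c (max a b)).1.sets := mono (le_max_left a b) ha
    have hb' : Yᶜ ∈ (c (max a b)).1.sets := mono (le_max_right a b) hb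
    obtain ⟨k, hk⟩ : Y ∈ Set.range (en (c (max a b))) := hen _ ▸ ha'
    have hle := Nat.left_le_pair (max a b) k
    obtain ⟨H, hH, h3⟩ := hhom (c (Nat.pair (max a b) k)) Y
      (fn_mem_iff.2 ⟨mono hle ha', mono hle hb'⟩)
    refine ⟨H, hH.mono ?_, h3⟩
    have := sub (Nat.pair (max a b) k + 1)
    rwa [hc, Nat.unpair_pair, hk] at this

end Pool.Agent.MP75f14d
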