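import Pool.Agent.MP_75f14d_lc.Path
import Pool.Agent.MP_75f14d_lc.Ext
import Pool.Agent.MP_75f14d_lc.Limit
import Pool.Agent.MP_75f14d_lc.Eval
import Pool.Agent.MP_75f14d_lc.Back
import Pool.Agent.MP_75f14d_lc.ClsOf
import Pool.Agent.MP_75f14d_lc.ArOf
import Pool.Agent.MP_75f14d_lc.Complete

/-! Assembly of the conservation theorem. -/

namespace Pool.Agent.MP75f14d

variable {M : Type} [Ar M]

/-- The property kept along the iteration. -/
def Nice [Good M] (C : Cls M) : Prop := Univ C ∧ SInd C ∧ Coll2 C ∧ XpIn C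

theorem one_step [Good M] [Countable M] (C : Cls M) (hC : Nice C) (Y : Set M)
    (hY : Fn C fun x : M => x ∈ Y) :
    ∃ E : Cls M, Nice E ∧ C.sets ⊆ E.sets ∧ ∃ H : Set M, Fn E (fun x : M => x ∈ H) ∧
      (∀ x, ∃ y, x < y ∧ y ∈ H) ∧ ∃ j : Prop, ∀ x ∈ H, ∀ y ∈ H, x < y → (pair x y ∈ Y ↔ j) := by
  obtain ⟨hU, _, _, _⟩ := hC
  obtain ⟨U, hUf, hU'⟩ := id hU
  obtain ⟨hit, hhit, eh⟩ : ∃ hit : M → M → M → Prop,
      Fn C (fun p : M × M × M => hit p.1 p.2.1 p.2.2) ∧ ∀ e s F, hit e s F ↔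
        ∃ t < s, ∃ y < s, U (fstM e) (pair (sndM e) (pair t (res F t))) y :=
    ⟨fun e s F => BEx s fun t => BEx s fun y => U (fstM e) (pair (sndM e) (pair t (res F t))) y,
      by fun_prop, fun _ _ _ => Iff.rfl⟩
  have ok : HitOK hit := by
    constructor
    · intro e s t F hst h
      obtain ⟨a, ha, y, hy, h⟩ := (eh _ _ _).1 h
      exact (eh _ _ _).2 ⟨a, lt_of_lt_of_le ha hst, y, lt_of_lt_of_le hy hst, h⟩
    · intro e s F G hFG h
      obtain ⟨a, ha, y, hy, h⟩ := (eh _ _ _).1 h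
      refine (eh _ _ _).2 ⟨a, ha, y, hy, ?_⟩
      rwa [show res G a = res F a from code_ext fun i => by
        simp only [mem_res]
        exact and_congr_right fun hi => (hFG i (lt_trans hi ha)).symm]
  have hcol : Fn C fun p : M × M => pair p.1 p.2 ∈ Y := hY.comp (by fun_prop)
  obtain ⟨H, hH, hinf, hhom, h1, h2⟩ := exists_path (col := fun u v => pair u v ∈ Y) C hU.nf
    hU.countable hcol hhit ok
  have idx : ∀ R : M → M → M → Prop, Fn C (fun p : M × M × M => R p.1 p.2.1 p.2.2) →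
      ∃ e, ∀ u, (∀ b, hit (pair e u) b (cut H b) → ∃ s < b, R u s (cut H s)) ∧
        ((∃ s, R u s (cut H s)) → ∃ s, hit (pair e u) s (cut H s)) := by
    intro R hR
    obtain ⟨e, he⟩ := hU' _ hR.sig
    have he' : ∀ u s F, R u s F ↔ ∃ y, U e (pair u (pair s F)) y := fun u s F => by
      rw [← he]
      constructor
      · intro h; exact ⟨(u, s, F), rfl, h⟩
      · rintro ⟨⟨u', s', F'⟩, e', h⟩
        simp only [enc_prod, enc_M, pair_eq_iff] at e'
        obtain ⟨rfl, rfl, rfl⟩ := e'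
        exact h
    refine ⟨e, fun u => ⟨fun b h => ?_, ?_⟩⟩
    · obtain ⟨t, ht, y, -, h⟩ := (eh _ _ _).1 h
      rw [fstM_pair, sndM_pair, hH.res_cut ht.le] at h
      exact ⟨t, ht, (he' _ _ _).2 ⟨y, h⟩⟩
    · rintro ⟨s, h⟩
      obtain ⟨y, hy⟩ := (he' _ _ _).1 h
      have hs : s < s + y + 1 := by zify; linarith [nn y]
      refine ⟨s + y + 1, (eh _ _ _).2 ⟨s, hs, y, by zify; linarith [nn s], ?_⟩⟩
      rwa [fstM_pair, sndM_pair, hH.res_cut hs.le]
  have sc : SC C H := by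
    intro R hR a
    obtain ⟨e, he⟩ := idx R hR
    obtain ⟨b, hb⟩ := h1 (pair e a)
    exact ⟨b, fun u hu h => (he u).1 b (hb _ (pair_lt_pair' le_rfl hu) ((he u).2 h))⟩
  have pc : PC C H := by
    intro R hR a ha
    obtain ⟨e, he⟩ := idx R hR
    obtain ⟨b, hb⟩ := h2 (fun x y => pair e (pair x y)) (by fun_prop) a fun x hx => by
      obtain ⟨y, hy⟩ := ha x hx
      exact ⟨y, fun ⟨s, hs⟩ => let ⟨t, _, ht⟩ := (he _).1 s hs; hy ⟨t, ht⟩⟩
    refine ⟨b, fun x hx => ?_⟩
    obtain ⟨y, hy, h⟩ := hb x hx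
    exact ⟨y, hy, fun h' => h ((he _).2 h')⟩
  obtain ⟨E, hCE, i1, i2, hUE, hHE⟩ := exists_ext C hU hH sc pc
  exact ⟨E, ⟨hUE, i1, i2, XpIn.of_subset hCE⟩, hCE, H, hHE, hinf, hhom⟩

/-- A bound for the free set variables of an arithmetical formula. -/
def Fm.bs : Fm → ℕ
  | .eq _ _ => 0
  | .lt _ _ => 0
  | .mem _ k => k + 1
  | .bot => 0
  | .imp f g => max f.bs g.bs
  | .allN f => f.bs
  | .allS f => f.bs

theorem val_mkStr {S S' : Type} (mem : M → S → Prop) (mem' : M → S' → Prop) (v : ℕ → M) (t : Tm) :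
    (mkStr M S mem).val v t = (mkStr M S' mem').val v t := by
  induction t with
  | var n => rfl
  | zero => rfl
  | one => rfl
  | add t u iht ihu => simp only [Str.val, iht, ihu]
  | mul t u iht ihu => simp only [Str.val, iht, ihu]

theorem sat_transfer {S S' : Type} (mem : M → S → Prop) (mem' : M → S' → Prop) {f : Fm}
    (hf : Arith f) (w : ℕ → S) (w' : ℕ → S')
    (h : ∀ k < f.bs, ∀ x, mem x (w k) ↔ mem' x (w' k)) (v : ℕ → M) :
    (mkStr M S mem).Sat f v w ↔ (mkStr M S' mem').Sat f v w' := by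
  induction hf generalizing v with
  | eq t u => simp only [Str.Sat, val_mkStr mem mem']
  | lt t u => simp only [Str.Sat, val_mkStr mem mem']
  | mem t k => simp only [Str.Sat, val_mkStr mem mem']; exact h k (Nat.lt_succ_self k) _
  | bot => rfl
  | imp _ _ ih1 ih2 =>
    exact imp_congr (ih1 (fun k hk => h k (lt_of_lt_of_le hk (le_max_left _ _))) v)
      (ih2 (fun k hk => h k (lt_of_lt_of_le hk (le_max_right _ _))) v)
  | allN _ ih => exact forall_congr' fun a => ih h _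

theorem conservative :
    Pi11Conservative (RCA0 ∪ BSigma02 ∪ {RT22, SRT22}) (RCA0 ∪ BSigma02) := by
  intro f hf h
  by_contra hn
  obtain ⟨A, hc, hA, v, w, hw⟩ := complete hn
  obtain ⟨X, hX⟩ : ∃ X, ¬ A.Sat f v (cons X w) := not_forall.1 hw
  obtain ⟨inst, e⟩ := exists_ar A (fun g hg => hA g (Or.inl hg)) w
  obtain ⟨N, S, a0, a1, a2, a3, a4, mem⟩ := A
  dsimp only at inst hc v w X e
  have hA' : (mkStr N S mem).Models (RCA0 ∪ BSigma02) := e ▸ hA
  have hX' : ¬ (mkStr N S mem).Sat f v (cons X w) := by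
    cases e; exact hX
  obtain ⟨C, i1, i2, hS⟩ := exists_cls hA' w
  obtain ⟨_, i3⟩ := exists_good C
  obtain ⟨C0, h0, hU, i4, hX0⟩ := exists_univ C (fun i => {x | mem x (cons X w i)}) f.bs
    fun i _ => hS _
  obtain ⟨L, hL, j1, j2, hRT⟩ := exists_limit (M := N) Nice
    (fun C hC => ⟨hC.1.countable, hC.2.1, hC.2.2.1⟩) one_step C0
    ⟨hU, SInd.of_subset h0, Coll2.of_subset h0, i4⟩
  have hM : (strOf L).Models (RCA0 ∪ BSigma02 ∪ {RT22, SRT22}) := by
    rintro g (hg | rfl | rfl) v' w'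
    · exact strOf_models L g hg v' w'
    · exact fun Y => strOf_homFm L hRT v' _
    · exact fun Y _ => strOf_homFm L hRT v' _
  classical
  let w' : ℕ → DSet L := fun i => if hi : i < f.bs then
    ⟨{x | mem x (cons X w i)}, Fn.mono hL (hX0 i hi)⟩ else ⟨Set.univ, Fn.const True⟩
  have := (strOf L).sound hM h v (fun i => w' (i + 1)) (w' 0)
  refine hX' ((sat_transfer mem _ hf _ _ (fun k hk x => ?_) v).2 this)
  have : cons (w' 0) (fun i => w' (i + 1)) k = w' k := by cases k <;> rfl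
  rw [this]
  simp only [w', dif_pos hk, Set.mem_setOf_eq]

theorem Prov.mono {T T' : Set Fm} (h : T ⊆ T') {f : Fm} (hf : Prov T f) : Prov T' f := by
  induction hf with
  | ax hf => exact .ax (h hf)
  | k f g => exact .k f g
  | s f g h => exact .s f g h
  | dne f => exact .dne f
  | mp _ _ ih1 ih2 => exact .mp ih1 ih2
  | elimN f t => exact .elimN f t
  | elimS f k => exact .elimS f k
  | genN _ ih => exact .genN ih
  | genS _ ih => exact .genS ih
  | refl t => exact .refl t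
  | repl f t u => exact .repl f t u
  | subst r p _ ih => exact .subst r p ih

end Pool.Agent.MP75f14d
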