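import Pool.Agent.MP_75f14d_lc.Sem
import Pool.Agent.MP_75f14d_lc.Ind

/-! The structure with first-order part `M` and a given second-order part. -/

namespace Pool.Agent.MP75f14d

/-- The structure with number part `M`, sets `S` and membership `mem`. -/
@[reducible] def mkStr (M : Type) [Ar M] (S : Type) (mem : M → S → Prop) : Str where
  N := M
  S := S
  zero := 0
  one := 1
  add a b := a + b
  mul a b := a * b
  lt a b := a < b
  mem := mem

variable {M : Type} [Ar M]

/-- The recursive sets of a class. -/
def DSet (C : Cls M) : Type := {Y : Set M // Fn C fun x : M => x ∈ Y}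

/-- The structure whose sets are the recursive sets of the class `C`. -/
@[reducible] def strOf (C : Cls M) : Str := mkStr M (DSet C) fun x Y => x ∈ Y.1

/-- Ramsey's theorem for pairs holds for the recursive sets of the class. -/
def RTC (C : Cls M) : Prop :=
  ∀ Y : Set M, Fn C (fun x : M => x ∈ Y) → ∃ H : Set M, Fn C (fun x : M => x ∈ H) ∧
    (∀ x, ∃ y, x < y ∧ y ∈ H) ∧ ∃ j : Prop, ∀ x ∈ H, ∀ y ∈ H, x < y → (pair x y ∈ Y ↔ j)

theorem val_pairTm {S : Type} {mem : M → S → Prop} (v : ℕ → M) (t u : Tm) :
    (mkStr M S mem).val v (pairTm t u) =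
      pair ((mkStr M S mem).val v t) ((mkStr M S mem).val v u) := rfl

end Pool.Agent.MP75f14d
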