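import Pool.Agent.MP_75f14d_lc.Step
import Pool.Agent.MP_75f14d_lc.Jump
import Pool.Agent.MP_75f14d_lc.Generic

/-! An infinite homogeneous set with controlled jump. -/

namespace Pool.Agent.MP75f14d

variable {M : Type} [Ar M] [Good M] {col : M → M → Prop} {hit : M → M → M → Prop}

namespace PathX

omit [Good M] in
/-- An r.e. predicate of `C` is decidable in a class containing the co-r.e. sets of `C`. -/
theorem fn_of_sig {C J : Cls M} (h1 : C.sets ⊆ J.sets) (h2 : ∀ W ∈ C.sets, Wᶜ ∈ J.sets)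
    {α : Type} [Cd M α] {P : α → Prop} (h : Sig C P) : Fn J P := by
  refine Fn.of_sig (h.mono h1) ?_
  refine J.congr (J.inter (h2 _ h) (rng_mem J α)) fun x => ⟨?_, ?_⟩
  · rintro ⟨a, rfl, ha⟩
    refine ⟨?_, a, rfl⟩
    rintro ⟨b, e, hb⟩
    obtain rfl := enc_inj e
    exact ha hb
  · rintro ⟨hx, a, rfl⟩
    exact ⟨a, rfl, fun ha => hx ⟨a, rfl, ha⟩⟩

/-- The set of scales. -/
theorem exists_scales (C J : Cls M) [SInd C] [XpIn C] [Ind J] (h1 : C.sets ⊆ J.sets)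
    (h2 : ∀ W ∈ C.sets, Wᶜ ∈ J.sets) (hcol : Fn C fun p : M × M => col p.1 p.2)
    (hhit : Fn C fun p : M × M × M => hit p.1 p.2.1 p.2.2) (ok : HitOK hit) :
    ∃ (D : M → Prop) (cD : M → M), Fn J D ∧ Fn J cD ∧ (∀ s i, Mem i (cD s) ↔ i < s ∧ D i) ∧
      (∀ n, ∃ z, n ≤ z ∧ D z) ∧ ∀ z, D z → Cov col hit (cD (z + 1)) z := by
  have : XpIn J := XpIn.of_subset h1
  have hcov : Fn J fun p : M × M => Cov col hit p.1 p.2 := by
    have h3 : Sig C fun p : M × M => ∃ n, ¬ CovAt col hit p.1 p.2 (exp (2 * p.2)) n :=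
      Sig.ex (P := fun (p : M × M) n => ¬ CovAt col hit p.1 p.2 (exp (2 * p.2)) n)
        (Fn.covAt hcol hhit (by fun_prop) (by fun_prop) (by fun_prop) (by fun_prop)).sig_not
    exact (fn_of_sig h1 h2 h3).not.congr_iff fun p => by simp [Cov]
  obtain ⟨D, hD, hrec⟩ := exists_setrec J (R := fun v t => Cov col hit (cup t (exp v)) v)
    (hcov.comp (g := fun p : M × M => (cup p.2 (exp p.1), p.1)) (by fun_prop))
  have hreg : Reg D := reg_of_fn J hD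
  have hcut : Fn J fun s => cut D s :=
    Fn.sep (P := fun _ i => i ∈ D) Fn.id' (hD.comp Fn.snd0)
  have hstep : ∀ z, z ∈ D → Cov col hit (cut D (z + 1)) z := by
    intro z hz
    have e : cut D (z + 1) = cup (cut D z) (exp z) := code_ext fun i => by
      rw [mem_cup, hreg.mem_cut, hreg.mem_cut, mem_exp, lt_succ_iff_lt_or_eq]
      constructor
      · rintro ⟨h | h, h'⟩
        · exact Or.inl ⟨h, h'⟩
        · exact Or.inr h
      · rintro (⟨h, h'⟩ | h)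
        · exact ⟨Or.inl h, h'⟩
        · exact ⟨Or.inr h, h ▸ hz⟩
    rw [e]; exact (hrec z).1 hz
  refine ⟨fun x => x ∈ D, fun s => cut D s, hD, hcut, fun s i => hreg.mem_cut, fun n => ?_, hstep⟩
  by_contra hn
  push Not at hn
  have h0 : (0 : M) ∈ D := by
    have e : cup (cut D 0) (exp 0) = exp (0 : M) := code_ext fun i => by
      rw [mem_cup, hreg.mem_cut]
      exact ⟨fun h => h.elim (fun h => absurd h.1 (not_lt_zero i)) id, Or.inr⟩
    rw [hrec, e]; exact cov_zero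
  obtain ⟨z, hz, hmax⟩ := Fn.exists_max (C := J) hD (a := 0) (b := n) h0
    fun x hx => not_le.1 fun h => hn x h hx
  obtain ⟨y, hy, hc⟩ := cov_step C hcol hhit ok (d := cut D (z + 1)) (x := z)
    (hreg.mem_cut.2 ⟨lt_add_one z, hz⟩) (fun w hw => hmax w (hreg.mem_cut.1 hw).2) (hstep z hz)
  have e : cut D y = cut D (z + 1) := code_ext fun i => by
    rw [hreg.mem_cut, hreg.mem_cut]
    exact ⟨fun h => ⟨lt_succ_iff.2 (hmax i h.2), h.2⟩,
      fun h => ⟨lt_of_le_of_lt (hmax i h.2) hy, h.2⟩⟩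
  have hyD : y ∈ D := by rw [hrec, e]; exact hc
  exact absurd (hmax y hyD) (not_le.2 hy)

theorem tame_down (ok : HitOK hit) {j : Prop} {F L d n m d' : M} (h : Tame col hit j F L d n)
    (hm : m ≤ n) (hd : ∀ w, Mem w d' ↔ w < m + 1 ∧ Mem w d) :
    Tame col hit j (res F m) (res L m) d' m := by
  rw [tame_iff] at h ⊢
  refine ⟨hom_iff.2 fun u v hu hv => hom_iff.1 h.1 u v (mem_res.1 hu).2 (mem_res.1 hv).2, ?_⟩
  intro z y hc hl
  obtain ⟨hz, hy, hzy, hw⟩ := consec_iff.1 hc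
  have hym : y ≤ m := lt_succ_iff.1 ((hd y).1 hy).1
  have hc' : Consec d z y := consec_iff.2 ⟨((hd z).1 hz).2, ((hd y).1 hy).2, hzy,
    fun w h1 h2 h3 => hw w h1 h2 ((hd w).2 ⟨lt_succ_iff.2 (h2.le.trans hym), h3⟩)⟩
  have hl' : Mem z L ↔ j := by
    rw [← hl, mem_res]; exact ⟨fun h => ⟨lt_of_lt_of_le hzy hym, h⟩, fun h => h.2⟩
  obtain ⟨⟨v, hv, hzv, hvy⟩, hh⟩ := h.2 z y hc' hl'
  refine ⟨⟨v, mem_res.2 ⟨lt_of_lt_of_le hvy hym, hv⟩, hzv, hvy⟩, fun e he h1 => ?_⟩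
  have h2 : hit e m F := ok.loc (fun i hi => by rw [mem_res]; exact ⟨fun h => h.2, fun h => ⟨hi, h⟩⟩) h1
  refine ok.loc (fun i hi => ?_) (hh e he (ok.mono hm h2))
  rw [mem_res]; exact ⟨fun h => ⟨lt_of_lt_of_le hi hym, h⟩, fun h => h.2⟩

/-- The three components of a node. -/
noncomputable def c0 (t : M) : M := fstM t
noncomputable def c1 (t : M) : M := fstM (sndM t)
noncomputable def c2 (t : M) : M := sndM (sndM t)
def nd (a b c : M) : M := pair a (pair b c)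

omit [Good M] in
@[simp] theorem c0_nd (a b c : M) : c0 (nd a b c) = a := by simp [c0, nd]
omit [Good M] in
@[simp] theorem c1_nd (a b c : M) : c1 (nd a b c) = b := by simp [c1, nd]
omit [Good M] in
@[simp] theorem c2_nd (a b c : M) : c2 (nd a b c) = c := by simp [c2, nd]

/-- Restriction of a node. -/
noncomputable def rs (t m : M) : M := nd (res (c0 t) m) (res (c1 t) m) (res (c2 t) m)

/-- Nodes of level `n`. -/
def Node (col : M → M → Prop) (hit : M → M → M → Prop) (cD : M → M) (n t : M) : Prop :=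
  t = nd (c0 t) (c1 t) (c2 t) ∧ c0 t < exp n ∧ c1 t < exp n ∧ c2 t < exp n ∧
    Tame col hit False (c0 t) (c2 t) (cD (n + 1)) n ∧
    Tame col hit True (c1 t) (c2 t) (cD (n + 1)) n

theorem exists_node (ok : HitOK hit) {D : M → Prop} {cD : M → M}
    (hcD : ∀ s i, Mem i (cD s) ↔ i < s ∧ D i) (hunb : ∀ n, ∃ z, n ≤ z ∧ D z)
    (hcov : ∀ z, D z → Cov col hit (cD (z + 1)) z) (n : M) : ∃ t, Node col hit cD n t := by
  obtain ⟨z, hnz, hz⟩ := hunb n
  obtain ⟨f, -, hf⟩ := hcov z hz (z + 1)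
  obtain ⟨t, -, -, F0, -, F1, -, L, -, h0, h1⟩ := hf z (lt_add_one z) le_rfl
  have key : ∀ {j : Prop} {F : M}, SideOK col hit j F L (cD (z + 1)) (z + 1) (cls f t z (z + 1)) →
      Tame col hit j (res F n) (res L n) (cD (n + 1)) n := by
    intro j F h
    have h2 := (sideOK_iff fun v hv => (mem_cls.1 hv).1).1 h 0
      (fun v hv => absurd hv (not_mem_zero v)) (hom_iff.2 fun u v hu => absurd hu (not_mem_zero u))
    have e : cup F 0 = F := code_ext fun i => by simp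
    rw [e] at h2
    refine tame_down ok h2 (hnz.trans le_self_add) fun w => ?_
    rw [hcD, hcD]
    exact ⟨fun h => ⟨h.1, lt_succ_iff.2 ((lt_succ_iff.1 h.1).trans hnz), h.2⟩,
      fun h => ⟨h.1, h.2.2⟩⟩
  refine ⟨nd (res F0 n) (res F1 n) (res L n), ?_⟩
  simp only [Node, c0_nd, c1_nd, c2_nd, res_lt, true_and]
  exact ⟨key h0, key h1⟩

/-- A coherent sequence of codes defines a regular set. -/
theorem exists_set {q : M → M} (h1 : ∀ s, q s < exp s) (h2 : ∀ m n, m ≤ n → res (q n) m = q m) :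
    ∃ H : Set M, ∀ s i, Mem i (q s) ↔ i < s ∧ i ∈ H := by
  refine ⟨{i | Mem i (q (i + 1))}, fun s i => ?_⟩
  have key : i < s → (Mem i (q (i + 1)) ↔ Mem i (q s)) := fun hi => by
    rw [← h2 (i + 1) s (lt_iff_succ_le.1 hi), mem_res]
    exact ⟨fun h => h.2, fun h => ⟨lt_add_one i, h⟩⟩
  constructor
  · intro h
    have hi := lt_exp_iff.1 (h1 s) i h
    exact ⟨hi, (key hi).2 h⟩
  · rintro ⟨hi, h⟩
    exact (key hi).1 h

/-- The final argument, for the side `j` read off by `c` from the generic path `P`. -/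
theorem final (J : Cls M) [Ind J] [XpIn J] (ok : HitOK hit)
    (hhit : Fn J fun p : M × M × M => hit p.1 p.2.1 p.2.2) {D : M → Prop} {cD c l P : M → M}
    (hD : Fn J D) (hcD' : Fn J cD) (hcD : ∀ s i, Mem i (cD s) ↔ i < s ∧ D i)
    (hc : Fn J c) (hl : Fn J l) {H L : Set M} {j : Prop}
    (hH : ∀ s i, Mem i (c (P s)) ↔ i < s ∧ i ∈ H) (hL : ∀ s i, Mem i (l (P s)) ↔ i < s ∧ i ∈ L)
    (hunb : ∀ n, ∃ z, n ≤ z ∧ D z ∧ (z ∈ L ↔ j))
    (ht : ∀ s, Tame col hit j (c (P s)) (l (P s)) (cD (s + 1)) s)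
    (hP : ∀ R : M → M → M → Prop, Fn J (fun p : M × M × M => R p.1 p.2.1 p.2.2) →
        ∀ a, (∀ x < a, ∃ s, R x s (P s)) → ∃ b, ∀ x < a, ∃ s < b, R x s (P s)) :
    Reg H ∧ (∀ x, ∃ y, x < y ∧ y ∈ H) ∧
      (∃ j : Prop, ∀ x ∈ H, ∀ y ∈ H, x < y → (col x y ↔ j)) ∧
      (∀ a, ∃ b, ∀ e < a, (∃ s, hit e s (cut H s)) → hit e b (cut H b)) ∧
      ∀ g : M → M → M, Fn J (fun p : M × M => g p.1 p.2) →
        ∀ a, (∀ x < a, ∃ y, ¬ ∃ s, hit (g x y) s (cut H s)) →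
          ∃ b, ∀ x < a, ∃ y < b, ¬ ∃ s, hit (g x y) s (cut H s) := by
  have hreg : Reg H := fun s => ⟨c (P s), hH s⟩
  have hcut : ∀ s, cut H s = c (P s) := fun s => code_ext fun i => by rw [hreg.mem_cut, hH]
  -- transfer of consecutiveness between levels
  have hcons : ∀ {z y s s'}, Consec (cD (s + 1)) z y → y ≤ s' → Consec (cD (s' + 1)) z y := by
    intro z y s s' h hy
    obtain ⟨h1, h2, h3, h4⟩ := consec_iff.1 h
    refine consec_iff.2 ⟨(hcD _ _).2 ⟨lt_succ_iff.2 (h3.le.trans hy), ((hcD _ _).1 h1).2⟩,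
      (hcD _ _).2 ⟨lt_succ_iff.2 hy, ((hcD _ _).1 h2).2⟩, h3, fun w h5 h6 h7 => h4 w h5 h6 ?_⟩
    exact (hcD _ _).2 ⟨h6.trans ((hcD _ _).1 h2).1, ((hcD _ _).1 h7).2⟩
  have hloc : ∀ {e y s s'}, y ≤ s → y ≤ s' → hit e y (c (P s)) → hit e y (c (P s')) := by
    intro e y s s' h1 h2 h
    refine ok.loc (fun i hi => ?_) h
    rw [hH, hH]
    exact ⟨fun h => ⟨lt_of_lt_of_le hi h2, h.2⟩, fun h => ⟨lt_of_lt_of_le hi h1, h.2⟩⟩
  have hkey : ∀ {z y s}, Consec (cD (s + 1)) z y → (z ∈ L ↔ j) →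
      (∃ v, v ∈ H ∧ z ≤ v) ∧ ∀ e < z, (∃ s, hit e s (cut H s)) → hit e y (c (P y)) := by
    intro z y s h hz
    have hzy : z < y := (consec_iff.1 h).2.2.1
    have h1 : ∀ s', y ≤ s' → (∃ v, Mem v (c (P s')) ∧ z ≤ v ∧ v < y) ∧
        ∀ e < z, hit e s' (c (P s')) → hit e y (c (P s')) := fun s' hs' =>
      (tame_iff.1 (ht s')).2 z y (hcons h hs') (by
        rw [hL, ← hz]; exact ⟨fun h => h.2, fun h => ⟨lt_of_lt_of_le hzy hs', h⟩⟩)
    refine ⟨?_, ?_⟩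
    · obtain ⟨v, hv, hzv, -⟩ := (h1 y le_rfl).1
      exact ⟨v, ((hH _ _).1 hv).2, hzv⟩
    · rintro e he ⟨s', hs'⟩
      rw [hcut] at hs'
      rcases le_total y s' with h2 | h2
      · exact hloc h2 le_rfl ((h1 s' h2).2 e he hs')
      · exact ok.mono h2 (hloc le_rfl h2 hs')
  have hnext : ∀ n, ∃ z y, n ≤ z ∧ Consec (cD (y + 1)) z y ∧ (z ∈ L ↔ j) := by
    intro n
    obtain ⟨z, hnz, hz, hzL⟩ := hunb n
    obtain ⟨y0, hy0, hy0D, -⟩ := hunb (z + 1)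
    obtain ⟨y, ⟨hzy, hy⟩, hmin⟩ := Fn.lnp (C := J) (P := fun y => z < y ∧ D y) (by fun_prop)
      (a := y0) ⟨lt_iff_succ_le.2 hy0, hy0D⟩
    refine ⟨z, y, hnz, consec_iff.2 ⟨(hcD _ _).2 ⟨hzy.trans (lt_add_one y), hz⟩,
      (hcD _ _).2 ⟨lt_add_one y, hy⟩, hzy, fun w h1 h2 h3 => ?_⟩, hzL⟩
    exact hmin w h2 ⟨h1, ((hcD _ _).1 h3).2⟩
  refine ⟨hreg, fun x => ?_, ⟨j, fun x hx y hy hxy => ?_⟩, fun a => ?_, fun g hg a ha => ?_⟩
  · obtain ⟨z, y, h1, h2, h3⟩ := hnext (x + 1)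
    obtain ⟨v, hv, hzv⟩ := (hkey h2 h3).1
    exact ⟨v, lt_iff_succ_le.2 (h1.trans hzv), hv⟩
  · exact hom_iff.1 (tame_iff.1 (ht (y + 1))).1 x y
      ((hH _ _).2 ⟨hxy.trans (lt_add_one y), hx⟩) ((hH _ _).2 ⟨lt_add_one y, hy⟩) hxy
  · obtain ⟨z, y, h1, h2, h3⟩ := hnext a
    refine ⟨y, fun e he hs => ?_⟩
    rw [hcut]
    exact (hkey h2 h3).2 e (lt_of_lt_of_le he h1) hs
  · obtain ⟨b, hb⟩ := hP (fun x s t => BEx s fun y => BEx s fun z => BEx s fun z' =>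
      Consec (cD (s + 1)) z z' ∧ (Mem z (l t) ↔ j) ∧ g x y < z ∧ ¬ hit (g x y) z' (c t))
      (by fun_prop) a (by
        intro x hx
        obtain ⟨y, hy⟩ := ha x hx
        obtain ⟨z, z', h1, h2, h3⟩ := hnext (g x y + 1)
        have hzz : z < z' := (consec_iff.1 h2).2.2.1
        have hz' : z' < y + z' + 1 := lt_succ_iff.2 le_add_self
        refine ⟨y + z' + 1, y, lt_succ_iff.2 le_self_add, z, hzz.trans hz', z', hz',
          hcons h2 hz'.le, ?_, lt_iff_succ_le.2 h1, fun h => hy ⟨y + z' + 1, ?_⟩⟩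
        · rw [hL, ← h3]; exact ⟨fun h => h.2, fun h => ⟨hzz.trans hz', h⟩⟩
        · rw [hcut]; exact ok.mono hz'.le h)
    refine ⟨b, fun x hx => ?_⟩
    obtain ⟨s, hs, y, hy, z, hz, z', hz', h1, h2, h3, h4⟩ := hb x hx
    refine ⟨y, hy.trans hs, fun h => h4 (hloc le_rfl hz'.le ((hkey h1 ?_).2 _ h3 h))⟩
    rw [← h2, hL]; exact ⟨fun h => ⟨hz, h⟩, fun h => h.2⟩

end PathX

open PathX in
theorem exists_path [Countable M] (C : Cls M) [SInd C] [Coll2 C] [XpIn C] (hnf : NF C)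
    (hC : C.sets.Countable) (hcol : Fn C fun p : M × M => col p.1 p.2)
    (hhit : Fn C fun p : M × M × M => hit p.1 p.2.1 p.2.2) (ok : HitOK hit) :
    ∃ H : Set M, Reg H ∧ (∀ x, ∃ y, x < y ∧ y ∈ H) ∧
      (∃ j : Prop, ∀ x ∈ H, ∀ y ∈ H, x < y → (col x y ↔ j)) ∧
      (∀ a, ∃ b, ∀ e < a, (∃ s, hit e s (cut H s)) → hit e b (cut H b)) ∧
      ∀ g : M → M → M, Fn C (fun p : M × M => g p.1 p.2) →
        ∀ a, (∀ x < a, ∃ y, ¬ ∃ s, hit (g x y) s (cut H s)) →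
          ∃ b, ∀ x < a, ∃ y < b, ¬ ∃ s, hit (g x y) s (cut H s) := by
  obtain ⟨J, hI, hCo, h1, h2, h3⟩ := exists_jump C hnf
  have : XpIn J := XpIn.of_subset h1
  obtain ⟨D, cD, hD, hcD', hcD, hunb, hcov⟩ := exists_scales C J h1 h2 hcol hhit ok
  have hcolJ := hcol.mono h1
  have hhitJ := hhit.mono h1
  have f0 : Fn J (c0 : M → M) := by unfold c0; fun_prop
  have f1 : Fn J (c1 : M → M) := by unfold c1; fun_prop
  have f2 : Fn J (c2 : M → M) := by unfold c2; fun_prop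
  have hT : Fn J fun p : M × M => Node col hit cD p.1 p.2 := by
    unfold Node nd
    refine Fn.and (by fun_prop) (Fn.and (by fun_prop) (Fn.and (by fun_prop) (Fn.and (by fun_prop)
      (Fn.and ?_ ?_))))
    · exact Fn.tame hcolJ hhitJ False (by fun_prop) (by fun_prop) (by fun_prop) (by fun_prop)
    · exact Fn.tame hcolJ hhitJ True (by fun_prop) (by fun_prop) (by fun_prop) (by fun_prop)
  have hrs : Fn J fun p : M × M => rs p.1 p.2 := by unfold rs nd; fun_prop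
  have hB : Fn J fun n : M => nd (exp n) (exp n) (exp n) := by unfold nd; fun_prop
  have hdown : ∀ {n m : M}, m ≤ n → ∀ w, Mem w (cD (m + 1)) ↔ w < m + 1 ∧ Mem w (cD (n + 1)) := by
    intro n m hm w
    rw [hcD, hcD]
    exact ⟨fun h => ⟨h.1, lt_succ_iff.2 ((lt_succ_iff.1 h.1).trans hm), h.2⟩,
      fun h => ⟨h.1, h.2.2⟩⟩
  obtain ⟨P, hP1, hP2, hP3⟩ := exists_generic J (h3 hC) hT hrs hB
    (fun n t h => by
      rw [h.1]; exact pair_lt_pair h.2.1 (pair_mono h.2.2.1.le h.2.2.2.1.le))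
    (fun n t m h hm => by
      simp only [Node, rs, c0_nd, c1_nd, c2_nd, res_lt, true_and]
      exact ⟨tame_down ok h.2.2.2.2.1 hm (hdown hm), tame_down ok h.2.2.2.2.2 hm (hdown hm)⟩)
    (fun n t h => by
      rw [rs, res_of_lt h.2.1, res_of_lt h.2.2.1, res_of_lt h.2.2.2.1]; exact h.1.symm)
    (fun t n m hm => by simp only [rs, c0_nd, c1_nd, c2_nd, res_res hm])
    (exists_node ok hcD hunb hcov)
  obtain ⟨H0, hH0⟩ := exists_set (q := fun s => c0 (P s)) (fun s => (hP1 s).2.1)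
    fun m n h => by rw [← hP2 m n h, rs, c0_nd]
  obtain ⟨H1, hH1⟩ := exists_set (q := fun s => c1 (P s)) (fun s => (hP1 s).2.2.1)
    fun m n h => by rw [← hP2 m n h, rs, c1_nd]
  obtain ⟨L, hL⟩ := exists_set (q := fun s => c2 (P s)) (fun s => (hP1 s).2.2.2.1)
    fun m n h => by rw [← hP2 m n h, rs, c2_nd]
  by_cases hj : ∀ n, ∃ z, n ≤ z ∧ D z ∧ (z ∈ L ↔ True)
  · obtain ⟨a1, a2, a3, a4, a5⟩ := final J ok hhitJ hD hcD' hcD f1 f2 hH1 hL hj
      (fun s => (hP1 s).2.2.2.2.2) hP3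
    exact ⟨H1, a1, a2, a3, a4, fun g hg => a5 g (hg.mono h1)⟩
  · have hj' : ∀ n, ∃ z, n ≤ z ∧ D z ∧ (z ∈ L ↔ False) := by
      push Not at hj
      obtain ⟨n0, hn0⟩ := hj
      intro n
      obtain ⟨z, hz, hzD⟩ := hunb (n + n0)
      refine ⟨z, le_trans le_self_add hz, hzD, ?_⟩
      have := hn0 z (le_trans le_add_self hz) hzD
      tauto
    obtain ⟨a1, a2, a3, a4, a5⟩ := final J ok hhitJ hD hcD' hcD f0 f2 hH0 hL hj'
      (fun s => (hP1 s).2.2.2.2.1) hP3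
    exact ⟨H0, a1, a2, a3, a4, fun g hg => a5 g (hg.mono h1)⟩

end Pool.Agent.MP75f14d
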