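import Pool.Agent.MP_75f14d_lc.Main

/-! Sanity checks (not used by the hand-ins): the theories are consistent, since the standard
structure is a model of the base theory. -/

namespace Pool.Agent.MP75f14d.Sanity

noncomputable instance arNat : Ar ℕ where
  sor := inferInstance
  can := inferInstance
  disc _ _ h := h
  R := ℤ
  ring := inferInstance
  ord := inferInstance
  rsor := inferInstance
  io := Nat.castRingHom ℤ
  io_le _ _ := by simp

/-- The class of all subsets. -/
def full : Cls ℕ where
  sets := Set.univ
  inter _ _ := trivial
  union _ _ := trivial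
  ex _ := trivial
  ball _ := trivial
  cyl _ := trivial
  swap _ := trivial
  swap23 _ := trivial
  assoc _ := trivial
  univ := trivial
  diag := trivial
  sing _ := trivial
  add := trivial
  mul := trivial
  lt := trivial

instance : SInd full := ⟨fun _ _ h0 hs x => Nat.rec h0 (fun n ih => hs n ih) x⟩

instance : Coll2 full := ⟨fun W _ a h => Coll.coll (C := full) Wᶜ trivial a h⟩

theorem base_consistent : ¬ Prov (RCA0 ∪ BSigma02) .bot := fun h =>
  (strOf full).sound (strOf_models full) h (fun _ => 0) fun _ => ⟨Set.univ, trivial⟩

theorem consistent : ¬ Prov (RCA0 ∪ BSigma02 ∪ {RT22, SRT22}) .bot := fun h =>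
  base_consistent (.mp (.elimS .bot 0) (conservative .bot .bot
    (.mp (.genS (f := .eq .zero .zero) (.mp (.k _ _) h)) (.refl _))))

end Pool.Agent.MP75f14d.Sanity
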