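import Pool.Agent.MP_75f14d_lc.Defs

/-! Henkin semantics for the two-sorted language. -/

namespace Pool.Agent.MP75f14d

/-- A structure: numbers `N`, sets `S`. -/
structure Str : Type 1 where
  N : Type
  S : Type
  zero : N
  one : N
  add : N → N → N
  mul : N → N → N
  lt : N → N → Prop
  mem : N → S → Prop

def Str.val (A : Str) (v : ℕ → A.N) : Tm → A.N
  | .var n => v n
  | .zero => A.zero
  | .one => A.one
  | .add t u => A.add (A.val v t) (A.val v u)
  | .mul t u => A.mul (A.val v t) (A.val v u)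

def Str.Sat (A : Str) : Fm → (ℕ → A.N) → (ℕ → A.S) → Prop
  | .eq t u, v, _ => A.val v t = A.val v u
  | .lt t u, v, _ => A.lt (A.val v t) (A.val v u)
  | .mem t k, v, w => A.mem (A.val v t) (w k)
  | .bot, _, _ => False
  | .imp f g, v, w => A.Sat f v w → A.Sat g v w
  | .allN f, v, w => ∀ a, A.Sat f (cons a v) w
  | .allS f, v, w => ∀ X, A.Sat f v (cons X w)

def Str.Models (A : Str) (T : Set Fm) : Prop := ∀ f ∈ T, ∀ v w, A.Sat f v w

@[simp] theorem cons_zero {α : Type} (a : α) (s : ℕ → α) : cons a s 0 = a := rfl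
@[simp] theorem cons_succ {α : Type} (a : α) (s : ℕ → α) (n : ℕ) : cons a s (n + 1) = s n := rfl
@[simp] theorem cons_one {α : Type} (a : α) (s : ℕ → α) : cons a s 1 = s 0 := rfl
@[simp] theorem cons_two {α : Type} (a : α) (s : ℕ → α) : cons a s 2 = s 1 := rfl
@[simp] theorem cons_three {α : Type} (a : α) (s : ℕ → α) : cons a s 3 = s 2 := rfl
@[simp] theorem cons_four {α : Type} (a : α) (s : ℕ → α) : cons a s 4 = s 3 := rfl
@[simp] theorem cons_five {α : Type} (a : α) (s : ℕ → α) : cons a s 5 = s 4 := rfl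
@[simp] theorem cons_six {α : Type} (a : α) (s : ℕ → α) : cons a s 6 = s 5 := rfl
@[simp] theorem cons_seven {α : Type} (a : α) (s : ℕ → α) : cons a s 7 = s 6 := rfl

namespace Str
variable (A : Str)

theorem val_sub (v : ℕ → A.N) (r : ℕ → Tm) (t : Tm) :
    A.val v (t.sub r) = A.val (fun n => A.val v (r n)) t := by
  induction t with
  | var n => rfl
  | zero => rfl
  | one => rfl
  | add t u iht ihu => simp [Tm.sub, val, iht, ihu]
  | mul t u iht ihu => simp [Tm.sub, val, iht, ihu]

@[simp] theorem val_up (v : ℕ → A.N) (a : A.N) (t : Tm) : A.val (cons a v) t.up = A.val v t := by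
  rw [Tm.up, val_sub]; rfl

theorem sat_sub (f : Fm) : ∀ (r : ℕ → Tm) (p : ℕ → ℕ) (v : ℕ → A.N) (w : ℕ → A.S),
    A.Sat (f.sub r p) v w ↔ A.Sat f (fun n => A.val v (r n)) (fun n => w (p n)) := by
  induction f with
  | eq t u => intro r p v w; simp [Fm.sub, Sat, val_sub]
  | lt t u => intro r p v w; simp [Fm.sub, Sat, val_sub]
  | mem t k => intro r p v w; simp [Fm.sub, Sat, val_sub]
  | bot => intro r p v w; simp [Fm.sub, Sat]
  | imp f g ihf ihg => intro r p v w; simp [Fm.sub, Sat, ihf, ihg]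
  | allN f ih =>
    intro r p v w
    simp only [Fm.sub, Sat, ih]
    refine forall_congr' fun a => ?_
    have : (fun n => A.val (cons a v) (liftN r n)) = cons a fun n => A.val v (r n) := by
      funext n; cases n with
      | zero => rfl
      | succ n => simp [liftN]
    rw [this]
  | allS f ih =>
    intro r p v w
    simp only [Fm.sub, Sat, ih]
    refine forall_congr' fun X => ?_
    have : (fun n => cons X w (liftS p n)) = cons X fun n => w (p n) := by
      funext n; cases n with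
      | zero => rfl
      | succ n => simp [liftS]
    rw [this]

@[simp] theorem sat_upN (f : Fm) (a : A.N) (v : ℕ → A.N) (w : ℕ → A.S) :
    A.Sat f.upN (cons a v) w ↔ A.Sat f v w := by
  rw [Fm.upN, sat_sub]; rfl

@[simp] theorem sat_upS (f : Fm) (X : A.S) (v : ℕ → A.N) (w : ℕ → A.S) :
    A.Sat f.upS v (cons X w) ↔ A.Sat f v w := by
  rw [Fm.upS, sat_sub]; rfl

@[simp] theorem sat_instN (f : Fm) (t : Tm) (v : ℕ → A.N) (w : ℕ → A.S) :
    A.Sat (f.instN t) v w ↔ A.Sat f (cons (A.val v t) v) w := by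
  rw [Fm.instN, sat_sub]
  have : (fun n => A.val v (cons t Tm.var n)) = cons (A.val v t) v := by
    funext n; cases n <;> rfl
  rw [this]; rfl

@[simp] theorem sat_instS (f : Fm) (k : ℕ) (v : ℕ → A.N) (w : ℕ → A.S) :
    A.Sat (f.instS k) v w ↔ A.Sat f v (cons (w k) w) := by
  rw [Fm.instS, sat_sub]
  have : (fun n => w (cons k id n)) = cons (w k) w := by
    funext n; cases n <;> rfl
  rw [this]; rfl

variable (f g : Fm) (v : ℕ → A.N) (w : ℕ → A.S)

@[simp] theorem sat_neg : A.Sat f.neg v w ↔ ¬ A.Sat f v w := Iff.rfl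
@[simp] theorem sat_and : A.Sat (f.and g) v w ↔ A.Sat f v w ∧ A.Sat g v w := by
  simp [Fm.and, Sat]
@[simp] theorem sat_or : A.Sat (f.or g) v w ↔ A.Sat f v w ∨ A.Sat g v w := by
  simp only [Fm.or, Sat, sat_neg]; tauto
@[simp] theorem sat_iff : A.Sat (f.iff g) v w ↔ (A.Sat f v w ↔ A.Sat g v w) := by
  simp only [Fm.iff, Sat, sat_and]; tauto
@[simp] theorem sat_exN : A.Sat f.exN v w ↔ ∃ a, A.Sat f (cons a v) w := by
  simp [Fm.exN, Sat]
@[simp] theorem sat_exS : A.Sat f.exS v w ↔ ∃ X, A.Sat f v (cons X w) := by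
  simp [Fm.exS, Sat]
@[simp] theorem sat_ball (t : Tm) :
    A.Sat (Fm.ball t f) v w ↔ ∀ a, A.lt a (A.val v t) → A.Sat f (cons a v) w := by
  simp [Fm.ball, Sat, val]
@[simp] theorem sat_bex (t : Tm) :
    A.Sat (Fm.bex t f) v w ↔ ∃ a, A.lt a (A.val v t) ∧ A.Sat f (cons a v) w := by
  simp [Fm.bex]

/-- Induction in variable 0, read in a structure. -/
theorem sat_indAx : A.Sat (indAx f) v w ↔
    (A.Sat f (cons A.zero v) w ∧ (∀ a, A.Sat f (cons a v) w → A.Sat f (cons (A.add a A.one) v) w) →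
      ∀ a, A.Sat f (cons a v) w) := by
  have : ∀ a, (fun n => A.val (cons a v) (cons (Tm.add (.var 0) .one) (fun n => Tm.var (n + 1)) n))
      = cons (A.add a A.one) v := by
    intro a; funext n; cases n <;> rfl
  simp only [indAx, Sat, sat_and, sat_instN, sat_sub, this, val, id]

theorem sat_compAx : A.Sat (compAx f g) v w ↔
    ((∀ a, A.Sat f (cons a v) w ↔ A.Sat g (cons a v) w) →
      ∃ X, ∀ a, A.mem a X ↔ A.Sat f (cons a v) w) := by
  simp [compAx, Sat, val]

theorem sat_bndAx : A.Sat (bndAx f) v w ↔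
    ((∀ x, A.lt x (v 0) → ∃ y, A.Sat f (cons y (cons x v)) w) →
      ∃ b, ∀ x, A.lt x (v 0) → ∃ y, A.lt y b ∧ A.Sat f (cons y (cons x v)) w) := by
  have : ∀ y x b, (fun n => A.val (cons y (cons x (cons b v)))
      (cons (Tm.var 0) (cons (Tm.var 1) fun n => Tm.var (n + 3)) n)) = cons y (cons x v) := by
    intro y x b; funext n
    rcases n with _ | _ | n <;> rfl
  simp only [bndAx, Sat, sat_ball, sat_exN, sat_bex, sat_sub, this, val, id, cons_one, cons_zero]

theorem sound {T : Set Fm} (hA : A.Models T) {f : Fm} (h : Prov T f) : ∀ v w, A.Sat f v w := by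
  induction h with
  | ax h => exact hA _ h
  | k f g => intro v w h _; exact h
  | s f g h => intro v w h1 h2 h3; exact h1 h3 (h2 h3)
  | dne f => intro v w h; exact not_not.1 h
  | mp _ _ ih1 ih2 => intro v w; exact ih1 v w (ih2 v w)
  | elimN f t => intro v w h; exact (sat_instN ..).2 (h _)
  | elimS f k => intro v w h; exact (sat_instS ..).2 (h _)
  | genN _ ih => intro v w h a; exact ih _ _ ((sat_upN ..).2 h)
  | genS _ ih => intro v w h X; exact ih _ _ ((sat_upS ..).2 h)
  | refl t => intro v w; rfl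
  | repl f t u =>
    intro v w h h1
    have h' : A.val v t = A.val v u := h
    rw [sat_instN] at h1 ⊢
    rwa [← h']
  | subst r p _ ih => intro v w; rw [sat_sub]; exact ih _ _

end Str

end Pool.Agent.MP75f14d
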