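import Pool.Agent.MP_75f14d_lc.StepB

/-! The step lemma. -/

namespace Pool.Agent.MP75f14d

variable {M : Type} [Ar M] [Good M] {col : M → M → Prop} {hit : M → M → M → Prop}

theorem cov_zero : Cov col hit (exp 0) 0 := by
  obtain ⟨C, _, _⟩ := exists_base M
  intro n
  obtain ⟨f, hf⟩ := exists_code C (P := fun _ => True) (by fun_prop) (pair n (exp (2 * 0)))
  refine ⟨f, lt_exp_iff.2 fun i hi => ((hf i).1 hi).1, fun y hy _ => ⟨0, exp_pos _,
    (hf _).2 ⟨pair_lt_pair hy zero_le, trivial⟩, 0, exp_pos _, 0, exp_pos _, 0, exp_pos _, ?_⟩⟩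
  have : ∀ j : Prop, SideOK col hit j 0 0 (exp 0) n (cls f 0 0 n) := by
    intro j
    rw [sideOK_iff fun v hv => (mem_cls.1 hv).1]
    intro G _ hG
    rw [tame_iff]
    refine ⟨?_, fun z y hc _ => ?_⟩
    · rw [hom_iff] at hG ⊢
      simpa using hG
    · obtain ⟨h1, h2, h3, -⟩ := consec_iff.1 hc
      rw [mem_exp] at h1 h2
      rw [h1, h2] at h3
      exact absurd h3 (lt_irrefl _)
  exact ⟨this _, this _⟩

theorem cov_step (C : Cls M) [SInd C] [XpIn C] (hcol : Fn C fun p : M × M => col p.1 p.2)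
    (hhit : Fn C fun p : M × M × M => hit p.1 p.2.1 p.2.2) (ok : HitOK hit) {d x : M}
    (hx : Mem x d) (hd : ∀ z, Mem z d → z ≤ x) (h : Cov col hit d x) :
    ∃ y, x < y ∧ Cov col hit (cup d (exp y)) y := by
  by_contra hcon
  obtain ⟨cnt, hc⟩ := exists_cnt C
  obtain ⟨r, hr⟩ : ∃ r, r = exp (2 * x) * exp (2 * x + 3) := ⟨_, rfl⟩
  have hcov : Fn C fun q : M × M => CovAt col hit (cup d (exp q.1)) q.1 (exp (2 * q.1)) q.2 :=
    Fn.covAt hcol hhit (by fun_prop) (by fun_prop) (by fun_prop) (by fun_prop)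
  obtain ⟨N, hN, hN'⟩ := exists_fn_least (C := C) (α := M) (P := fun y n => Imp (x < y)
      (¬ CovAt col hit (cup d (exp y)) y (exp (2 * y)) n))
    (Fn.imp (by fun_prop) hcov.not) (fun y => by
      by_cases hy : x < y
      · by_contra h'
        exact hcon ⟨y, hy, fun n => by_contra fun hn => h' ⟨n, fun _ => hn⟩⟩
      · exact ⟨0, fun h => absurd h hy⟩)
  have hNlt : ∀ y, x < y → y < N y := by
    intro y hy
    by_contra hle
    exact (hN' y).1 hy ⟨0, exp_pos _, fun v hv hyv =>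
      absurd (lt_of_lt_of_le hv (not_lt.1 hle)) (not_lt.2 hyv)⟩
  obtain ⟨X', hX', hX0, hXs⟩ := exists_prec C (α := M) (g := fun _ => 2 * x + r + 1)
    (h := fun _ _ y => N y) (by fun_prop) (by fun_prop)
  obtain ⟨X, hX, h0, hs⟩ : ∃ X : M → M, Fn C X ∧ X 0 = 2 * x + r + 1 ∧ ∀ l, X (l + 1) = N (X l) :=
    ⟨X' 0, by fun_prop, hX0 0, hXs 0⟩
  have hbig : ∀ l, 2 * x + r + 1 ≤ X l := by
    refine Fn.ind (C := C) (by fun_prop) h0.ge fun l ih => ?_
    rw [hs]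
    refine le_trans ih (hNlt _ ?_).le
    zify at ih ⊢; linarith [nn x, nn r]
  have hxX : ∀ l, x < X l := fun l => by
    have := hbig l
    zify at this ⊢; linarith [nn x, nn r]
  have hlt : ∀ l, X l < X (l + 1) := fun l => by rw [hs]; exact hNlt _ (hxX l)
  have hXm : ∀ l m, l ≤ m → X l ≤ X m := by
    intro l
    refine Fn.ind (C := C) (P := fun m => Imp (l ≤ m) (X l ≤ X m)) (by fun_prop) ?_ ?_
    · intro hl; rw [le_antisymm hl zero_le]
    · intro m ih hl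
      rcases hl.lt_or_eq with h' | h'
      · exact le_trans (ih (lt_succ_iff.1 h')) (hlt m).le
      · rw [h']
  obtain ⟨f, -, hf⟩ := h (X r)
  have hal : Fn C fun t => Allowed col hit d x (X r) (cls f t x (X r)) :=
    Fn.allowed hcol hhit (d := fun _ => d) (x := fun _ => x) (n := fun _ => X r)
      (by fun_prop) (by fun_prop) (by fun_prop) (by fun_prop)
  obtain ⟨p, hp, hpf⟩ : ∃ p : M → M, Fn C p ∧ ∀ y < X r, x ≤ y → p y < exp (2 * x) ∧
      Mem (pair y (p y)) f ∧ Allowed col hit d x (X r) (cls f (p y) x (X r)) := by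
    obtain ⟨A, hA, eA⟩ : ∃ A : M → Prop, Fn C A ∧
        ∀ t, A t ↔ Allowed col hit d x (X r) (cls f t x (X r)) := ⟨_, hal, fun _ => Iff.rfl⟩
    refine ⟨fun y => mu (exp (2 * x)) fun t => Mem (pair y t) f ∧ A t, by fun_prop,
      fun y hy hxy => ?_⟩
    obtain ⟨t, ht, h1, h2⟩ := hf y hy hxy
    have := mu_spec C (P := fun t => Mem (pair y t) f ∧ A t) (by fun_prop) ht ⟨h1, (eA t).2 h2⟩
    exact ⟨lt_of_le_of_lt this.1 ht, this.2.1.1, (eA _).1 this.2.1.2⟩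
  obtain ⟨W, hW, eW⟩ : ∃ W : M → M → M → Prop, Fn C (fun q : M × M × M => W q.1 q.2.1 q.2.2) ∧
      ∀ l y g, W l y g ↔
        Wit col hit d x (X r) f r (X l) (X (l + 1)) (p y) (view col y (X l)) g :=
    ⟨_, Fn.wit C hcol hhit d x (X r) f r (α := M × M × M) (a := fun q => X q.1)
      (b := fun q => X (q.1 + 1)) (t := fun q => p q.2.1) (V := fun q => view col q.2.1 (X q.1))
      (g := fun q => q.2.2) (by fun_prop) (by fun_prop) (by fun_prop)
      (Fn.view C hcol (by fun_prop) (by fun_prop)) (by fun_prop), fun _ _ _ => Iff.rfl⟩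
  obtain ⟨yf, hyf, hy⟩ : ∃ yf : M → M, Fn C yf ∧ ∀ l < r, yf l < X (l + 1) ∧ X l ≤ yf l ∧
      ¬ BEx (exp (pair (X (l + 1)) (exp r))) fun g => W l (yf l) g := by
    refine ⟨fun l => mu (X (l + 1)) fun y => X l ≤ y ∧
      ¬ BEx (exp (pair (X (l + 1)) (exp r))) fun g => W l y g, by fun_prop, fun l hl => ?_⟩
    have : ∃ y < X (l + 1), X l ≤ y ∧
        ¬ BEx (exp (pair (X (l + 1)) (exp r))) fun g => W l y g := by
      by_contra h'
      refine (hN' (X l)).1 (hxX l) ?_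
      rw [← hs]
      refine covAt_of_wit C hcol hhit ok (f := f) (r := r) (n := X r) hp hx hd (hxX l)
        (le_trans le_self_add (hbig l)) (hXm _ _ (lt_iff_succ_le.1 hl))
        (fun y h1 h2 => ⟨(hpf y h1 h2).1, (hpf y h1 h2).2.1⟩) fun y h1 h2 => ?_
      by_contra h''
      exact h' ⟨y, h1, h2, fun ⟨g, hg, hw⟩ => h'' ⟨g, hg, (eW _ _ _).1 hw⟩⟩
    obtain ⟨y, h1, h2⟩ := this
    have := mu_spec C (P := fun y => X l ≤ y ∧
      ¬ BEx (exp (pair (X (l + 1)) (exp r))) fun g => W l y g) (by fun_prop) h1 h2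
    exact ⟨lt_of_le_of_lt this.1 h1, this.2.1⟩
  have hyp : ∀ l < r, p (yf l) < exp (2 * x) ∧ Mem (pair (yf l) (p (yf l))) f ∧
      Allowed col hit d x (X r) (cls f (p (yf l)) x (X r)) := fun l hl =>
    hpf _ (lt_of_lt_of_le (hy l hl).1 (hXm _ _ (lt_iff_succ_le.1 hl)))
      (le_trans (hxX l).le (hy l hl).2.1)
  obtain ⟨t, -, ht⟩ := hc.pigeon (p := fun l => p (yf l)) (by fun_prop) (K := exp (2 * x))
    (s := exp (2 * x + 3)) (fun l hl => (hyp l (hr ▸ hl)).1) (exp_pos _)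
  rw [← hr] at ht
  have hQ : ∀ l, Mem l (sep r fun l => p (yf l) = t) ↔ l < r ∧ p (yf l) = t := fun l =>
    mem_sep C (by fun_prop)
  obtain ⟨l0, -, hl0⟩ := hc.exists_mem (lt_of_lt_of_le (exp_pos _) ht)
  obtain ⟨F0, hF0, F1, hF1, L, hL, s0, s1⟩ := (hyp l0 ((hQ l0).1 hl0).1).2.2
  rw [((hQ l0).1 hl0).2] at s0 s1
  refine no_rich C hcol hhit ok hc hX hyf (hxX 0).le hXm hF0 hF1 hL s0 s1 ht fun l hl g hg hw => ?_
  obtain ⟨h1, h2⟩ := (hQ l).1 hl
  exact (hy l h1).2.2 ⟨g, hg, (eW _ _ _).2 (h2 ▸ hw)⟩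

end Pool.Agent.MP75f14d
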