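import Pool.Agent.MP_75f14d_lc.Core

/-! The step lemma, part one: a block without rich points has a good cover. -/

namespace Pool.Agent.MP75f14d

variable {M : Type} [Ar M] [Good M] (col : M → M → Prop) (hit : M → M → M → Prop)

/-- No `j`-homogeneous subset of `Z` gives `F` its first element `≥ x` or puts a new index
below `x` into the jump between the stages `a` and `b`. -/
def Neutral (x : M) (j : Prop) (F a b Z : M) : Prop :=
  BAll (exp b) fun G => Imp (AllIn G fun v => Mem v Z) (Imp (Hom col j G)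
    (Imp (ExIn (cup F G) fun v => x ≤ v) (ExIn F fun v => x ≤ v) ∧
      BAll x fun e => Imp (hit e b (cup F G)) (hit e a F)))

/-- The colours of the pairs `(u, v)`, `u < a`. -/
noncomputable def view (v a : M) : M := sep a fun u => col u v

/-- The points of `[a, b)` in class `t` of `f`, with view `V`, in class `w` of `g`. -/
noncomputable def part (f t V g w a b : M) : M :=
  sep b fun v => a ≤ v ∧ Mem (pair v t) f ∧ view col v a = V ∧ Mem (pair v w) g

/-- `G` is a `j`-homogeneous subset of class `t` of `f` in `[x, a)` of colour `j` in the view. -/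
def GoodG (x f t V a : M) (j : Prop) (G : M) : Prop :=
  Hom col j G ∧ AllIn G fun u => x ≤ u ∧ u < a ∧ Mem (pair u t) f ∧ (Mem u V ↔ j)

/-- `g` is a cover of `[a, b)` by `2 ^ r` classes, each neutral for one side. -/
def Wit (d x n f r a b t V g : M) : Prop :=
  (BAll b fun v => Imp (a ≤ v) (BEx (exp r) fun w => Mem (pair v w) g)) ∧
  BEx (exp x) fun F0 => BEx (exp x) fun F1 => BEx (exp x) fun L =>
    SideOK col hit False F0 L d n (cls f t x n) ∧ SideOK col hit True F1 L d n (cls f t x n) ∧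
    BEx (exp a) fun G0 => BEx (exp a) fun G1 =>
      GoodG col x f t V a False G0 ∧ GoodG col x f t V a True G1 ∧
      BAll (exp r) fun w => Neutral col hit x False (cup F0 G0) a b (part col f t V g w a b) ∨
        Neutral col hit x True (cup F1 G1) a b (part col f t V g w a b)

variable {col hit}

theorem neutral_iff {x F a b Z : M} {j : Prop} (hZ : ∀ v, Mem v Z → v < b) :
    Neutral col hit x j F a b Z ↔ ∀ G, (∀ v, Mem v G → Mem v Z) → Hom col j G →
      ((∃ v, Mem v (cup F G) ∧ x ≤ v) → ∃ v, Mem v F ∧ x ≤ v) ∧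
        ∀ e < x, hit e b (cup F G) → hit e a F := by
  simp only [Neutral, allIn_iff, exIn_iff, Imp, BAll]
  exact ⟨fun h G hG => h G (lt_exp_iff.2 fun i hi => hZ i (hG i hi)) hG, fun h G _ => h G⟩

theorem goodG_iff {x f t V a G : M} {j : Prop} : GoodG col x f t V a j G ↔
    Hom col j G ∧ ∀ u, Mem u G → x ≤ u ∧ u < a ∧ Mem (pair u t) f ∧ (Mem u V ↔ j) := by
  simp only [GoodG, allIn_iff]

theorem cup_assoc' (a b c : M) : cup (cup a b) c = cup a (cup b c) :=
  code_ext fun i => by simp only [mem_cup, or_assoc]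

section Fn
variable (C : Cls M) [SInd C] [XpIn C] {α : Type} [Cd M α]
  (hcol : Fn C fun p : M × M => col p.1 p.2)
  (hhit : Fn C fun p : M × M × M => hit p.1 p.2.1 p.2.2)

include hcol

theorem Fn.view {v a : α → M} (hv : Fn C v) (ha : Fn C a) :
    Fn C fun p => view col (v p) (a p) := by
  unfold MP75f14d.view; fun_prop

theorem mem_view {v a u : M} : Mem u (view col v a) ↔ u < a ∧ col u v :=
  mem_sep C (by fun_prop)

theorem view_lt (v a : M) : view col v a < exp a := sep_lt C (by fun_prop) a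

theorem mem_part {f t V g w a b v : M} : Mem v (part col f t V g w a b) ↔
    v < b ∧ a ≤ v ∧ Mem (pair v t) f ∧ view col v a = V ∧ Mem (pair v w) g :=
  mem_sep C (by unfold view; fun_prop)

include hhit in
theorem Fn.wit (d x n f r : M) {a b t V g : α → M} (ha : Fn C a) (hb : Fn C b) (ht : Fn C t)
    (hV : Fn C V) (hg : Fn C g) :
    Fn C fun p => Wit col hit d x n f r (a p) (b p) (t p) (V p) (g p) := by
  unfold Wit GoodG Neutral SideOK Tame Hom part MP75f14d.view; fun_prop

/-- Adding a homogeneous set from a later block with the right view keeps homogeneity. -/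
theorem hom_cup {x f t V a G G' : M} {j : Prop} (hG : GoodG col x f t V a j G)
    (hG' : Hom col j G') (h : ∀ v, Mem v G' → a ≤ v ∧ view col v a = V) :
    Hom col j (cup G G') := by
  rw [goodG_iff] at hG
  rw [hom_iff] at hG' ⊢
  intro u v hu hv huv
  rw [mem_cup] at hu hv
  rcases hu with hu | hu <;> rcases hv with hv | hv
  · exact hom_iff.1 hG.1 u v hu hv huv
  · obtain ⟨-, hua, -, hV⟩ := hG.2 u hu
    rw [← hV, ← (h v hv).2, mem_view C hcol]
    exact ⟨fun h' => ⟨hua, h'⟩, fun h' => h'.2⟩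
  · exact absurd (lt_trans huv (hG.2 v hv).2.1) (not_lt.2 (h u hu).1)
  · exact hG' u v hu hv huv

theorem side_new (ok : HitOK hit) {d x n f t V a b F G L L' Z y : M} {j : Prop}
    (hx : Mem x d) (hd : ∀ z, Mem z d → z ≤ x) (hxa : x < a) (hbn : b ≤ n) (hF : F < exp x)
    (hs : SideOK col hit j F L d n (cls f t x n)) (hG : GoodG col x f t V a j G)
    (hZ : ∀ v, Mem v Z → v < b ∧ a ≤ v ∧ Mem (pair v t) f ∧ view col v a = V) (hy : Mem y Z)
    (hL : ∀ z < x, Mem z L' ↔ Mem z L)
    (hN : (Mem x L' ↔ j) → Neutral col hit x j (cup F G) a b Z) :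
    SideOK col hit j (cup F G) L' (cup d (exp a)) b Z := by
  have hZb : ∀ v, Mem v Z → v < b := fun v hv => (hZ v hv).1
  have hab : a < b := lt_of_le_of_lt (hZ y hy).2.1 (hZb y hy)
  rw [sideOK_iff hZb]
  intro G' hG'Z hG'
  rw [sideOK_iff fun v hv => (mem_cls.1 hv).1] at hs
  have hGG := goodG_iff.1 hG
  have h1 := hs (cup G G') ?_ (hom_cup C hcol hG hG' fun v hv => ⟨(hZ v (hG'Z v hv)).2.1,
    (hZ v (hG'Z v hv)).2.2.2⟩)
  swap
  · intro v hv
    rw [mem_cls]
    rcases mem_cup.1 hv with hv | hv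
    · obtain ⟨h1, h2, h3, -⟩ := hGG.2 v hv
      exact ⟨lt_of_lt_of_le (lt_trans h2 hab) hbn, h1, h3⟩
    · obtain ⟨h1, h2, h3, -⟩ := hZ v (hG'Z v hv)
      exact ⟨lt_of_lt_of_le h1 hbn, le_trans hxa.le h2, h3⟩
  rw [← cup_assoc', tame_iff] at h1
  rw [tame_iff]
  refine ⟨h1.1, fun z z' hc hl => ?_⟩
  obtain ⟨hz, hz', hzz, hbetween⟩ := consec_iff.1 hc
  rw [mem_cup, mem_exp] at hz hz'
  rcases hz' with hz' | rfl
  · have hz'x := hd z' hz'
    have hzx : z < x := lt_of_lt_of_le hzz hz'x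
    have hzd : Mem z d := hz.resolve_right fun e => absurd (lt_trans hzx hxa) (e ▸ lt_irrefl _)
    have hc' : Consec d z z' := consec_iff.2 ⟨hzd, hz', hzz, fun w h1 h2 hw =>
      hbetween w h1 h2 (mem_cup.2 (Or.inl hw))⟩
    obtain ⟨g1, g2⟩ := h1.2 z z' hc' ((hL z hzx).symm.trans hl)
    exact ⟨g1, fun e he h => g2 e he (ok.mono hbn h)⟩
  · have hzd : Mem z d := hz.resolve_right hzz.ne
    have hzx : z = x := by
      rcases (hd z hzd).lt_or_eq with h | h
      · exact absurd (mem_cup.2 (Or.inl hx)) (hbetween x h hxa)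
      · exact h
    subst hzx
    have hN' := (neutral_iff hZb).1 (hN hl)
    have hFG : ∀ v, Mem v (cup F G) → v < z' := by
      intro v hv
      rcases mem_cup.1 hv with hv | hv
      · exact lt_trans (lt_exp_iff.1 hF v hv) hxa
      · exact (hGG.2 v hv).2.1
    constructor
    · have hy1 : Hom col j (exp y) := hom_iff.2 fun u v hu hv huv => by
        rw [mem_exp] at hu hv
        exact absurd huv (by rw [hu, hv]; exact lt_irrefl _)
      obtain ⟨v, hv, hzv⟩ := (hN' (exp y) (fun v hv => by rw [mem_exp.1 hv]; exact hy) hy1).1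
        ⟨y, mem_cup.2 (Or.inr (mem_exp.2 rfl)), le_trans hxa.le (hZ y hy).2.1⟩
      exact ⟨v, mem_cup.2 (Or.inl hv), hzv, hFG v hv⟩
    · intro e he h
      refine ok.loc (fun i hi => ?_) ((hN' G' hG'Z hG').2 e he h)
      rw [mem_cup (a := cup F G)]
      exact ⟨Or.inl, fun h' => h'.resolve_right fun h'' =>
        absurd hi (not_lt.2 (hZ i (hG'Z i h'')).2.1)⟩

theorem allowed_new (ok : HitOK hit) {d x n f r t V a b g w Z y : M}
    (hx : Mem x d) (hd : ∀ z, Mem z d → z ≤ x) (hxa : x < a) (hbn : b ≤ n)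
    (hW : Wit col hit d x n f r a b t V g) (hw : w < exp r)
    (hZ : ∀ v, Mem v Z → Mem v (part col f t V g w a b)) (hy : Mem y Z) :
    Allowed col hit (cup d (exp a)) a b Z := by
  obtain ⟨-, F0, hF0, F1, hF1, L, hL, s0, s1, G0, hG0, G1, hG1, g0, g1, hN⟩ := hW
  have hZ' : ∀ v, Mem v Z → v < b ∧ a ≤ v ∧ Mem (pair v t) f ∧ view col v a = V := fun v hv =>
    let h := (mem_part C hcol).1 (hZ v hv); ⟨h.1, h.2.1, h.2.2.1, h.2.2.2.1⟩
  have hlt : ∀ {F G : M}, F < exp x → G < exp a → cup F G < exp a := fun hF hG =>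
    lt_exp_iff.2 fun i hi => (mem_cup.1 hi).elim
      (fun h => lt_trans (lt_exp_iff.1 hF i h) hxa) (lt_exp_iff.1 hG i)
  have hxL : ¬ Mem x L := fun h => lt_irrefl _ (lt_exp_iff.1 hL x h)
  have hsub : ∀ {j : Prop} {F : M}, Neutral col hit x j F a b (part col f t V g w a b) →
      Neutral col hit x j F a b Z := fun h => by
    rw [neutral_iff fun v hv => ((mem_part C hcol).1 hv).1] at h
    rw [neutral_iff fun v hv => (hZ' v hv).1]
    exact fun G hG => h G fun v hv => hZ v (hG v hv)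
  rcases hN w hw with h | h
  · refine ⟨_, hlt hF0 hG0, _, hlt hF1 hG1, L, lt_trans hL (exp_lt_exp.2 hxa),
      side_new C hcol ok hx hd hxa hbn hF0 s0 g0 hZ' hy (fun _ _ => Iff.rfl) fun _ => hsub h,
      side_new C hcol ok hx hd hxa hbn hF1 s1 g1 hZ' hy (fun _ _ => Iff.rfl) fun h' => ?_⟩
    exact absurd (h'.2 trivial) hxL
  · have hL' : ∀ z < x, Mem z (cup L (exp x)) ↔ Mem z L := fun z hz => by
      rw [mem_cup, mem_exp]; exact ⟨fun h => h.resolve_right hz.ne, Or.inl⟩
    refine ⟨_, hlt hF0 hG0, _, hlt hF1 hG1, cup L (exp x), hlt hL (exp_lt_exp.2 hxa),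
      side_new C hcol ok hx hd hxa hbn hF0 s0 g0 hZ' hy hL' fun h' => ?_,
      side_new C hcol ok hx hd hxa hbn hF1 s1 g1 hZ' hy hL' fun _ => hsub h⟩
    exact (h'.1 (mem_cup.2 (Or.inr (mem_exp.2 rfl)))).elim

include hhit in
/-- If no point of the block `[a, b)` is rich, the block has a good cover. -/
theorem covAt_of_wit (ok : HitOK hit) {d x n f r a b : M} {p : M → M} (hp : Fn C p)
    (hx : Mem x d) (hd : ∀ z, Mem z d → z ≤ x) (hxa : x < a) (hra : 2 * x + r ≤ a) (hbn : b ≤ n)
    (hpf : ∀ y < n, x ≤ y → p y < exp (2 * x) ∧ Mem (pair y (p y)) f)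
    (h : ∀ y < b, a ≤ y → ∃ g < exp (pair b (exp r)),
      Wit col hit d x n f r a b (p y) (view col y a) g) :
    CovAt col hit (cup d (exp a)) a (exp (2 * a)) b := by
  have hWit : Fn C fun q : (M × M) × M => Wit col hit d x n f r a b q.1.1 q.1.2 q.2 :=
    Fn.wit C hcol hhit d x n f r (a := fun _ => a) (b := fun _ => b) (by fun_prop) (by fun_prop)
      (by fun_prop) (by fun_prop) (by fun_prop)
  have hv : Fn C fun y => view col y a :=
    Fn.view C hcol (v := fun y => y) (a := fun _ => a) (by fun_prop) (by fun_prop)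
  obtain ⟨gf, hgf, hW⟩ : ∃ gf : M → M → M, Fn C (fun q : M × M => gf q.1 q.2) ∧
      ∀ y < b, a ≤ y → Wit col hit d x n f r a b (p y) (view col y a)
        (gf (p y) (view col y a)) := by
    refine ⟨fun t V => mu (exp (pair b (exp r))) (Wit col hit d x n f r a b t V),
      Fn.mu (P := fun (q : M × M) g => Wit col hit d x n f r a b q.1 q.2 g) (by fun_prop) hWit,
      fun y hy hay => ?_⟩
    obtain ⟨g, hg, hw⟩ := h y hy hay
    exact (mu_spec C (hWit.comp (g := fun g : M => ((p y, view col y a), g)) (by fun_prop))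
      hg hw).2.1
  obtain ⟨wf, hwf, hw⟩ : ∃ wf : M → M, Fn C wf ∧ ∀ y < b, a ≤ y →
      wf y < exp r ∧ Mem (pair y (wf y)) (gf (p y) (view col y a)) := by
    obtain ⟨g1, hg1, e⟩ : ∃ g1 : M → M, Fn C g1 ∧ ∀ y, g1 y = gf (p y) (view col y a) :=
      ⟨_, hgf.comp (hp.prodMk hv), fun _ => rfl⟩
    refine ⟨fun y => mu (exp r) fun w => Mem (pair y w) (g1 y), by fun_prop, fun y hy hay => ?_⟩
    obtain ⟨w, hw, hw'⟩ := (hW y hy hay).1 y hy hay
    rw [← e] at hw' ⊢
    have := mu_spec C (P := fun w => Mem (pair y w) (g1 y)) (by fun_prop) hw hw'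
    exact ⟨lt_of_le_of_lt this.1 hw, this.2.1⟩
  obtain ⟨c, hc, ec⟩ : ∃ c : M → M, Fn C c ∧
      ∀ y, c y = (p y * exp a + view col y a) * exp r + wf y :=
    ⟨_, (((hp.mul (Fn.const _)).add hv).mul (Fn.const _)).add hwf, fun _ => rfl⟩
  have hcl : ∀ y < b, a ≤ y → c y < exp (2 * a) := by
    intro y hy hay
    have h1 := (hpf y (lt_of_lt_of_le hy hbn) (le_trans hxa.le hay)).1
    have h2 := view_lt C hcol y a
    have h3 := (hw y hy hay).1
    have h4 : exp (2 * x) * exp r ≤ exp a := by rw [← exp_add]; exact exp_le_exp.2 hra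
    have h5 : p y * exp a + view col y a + 1 ≤ exp (2 * x) * exp a := by
      zify at h1 h2 ⊢; nlinarith [nn (exp a)]
    have h6 : c y + 1 ≤ (p y * exp a + view col y a + 1) * exp r := by
      rw [ec]; zify at h3 ⊢; nlinarith
    calc c y < c y + 1 := lt_add_one _
      _ ≤ _ := h6
      _ ≤ exp (2 * x) * exp a * exp r := by gcongr
      _ = exp (2 * x) * exp r * exp a := by ring
      _ ≤ exp a * exp a := by gcongr
      _ = exp (2 * a) := by rw [← exp_add, two_mul]
  obtain ⟨f', hf'⟩ := exists_code C (P := fun q => q = pair (fstM q) (c (fstM q))) (by fun_prop)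
    (pair b (exp (2 * a)))
  refine ⟨f', lt_exp_iff.2 fun i hi => ((hf' i).1 hi).1,
    fun y hy hay => ⟨c y, hcl y hy hay, ?_, ?_⟩⟩
  · rw [hf']; exact ⟨pair_lt_pair hy (hcl y hy hay).le, by simp⟩
  · have hyc : Mem y (cls f' (c y) a b) := by
      rw [mem_cls, hf']
      exact ⟨hy, hay, pair_lt_pair hy (hcl y hy hay).le, by simp⟩
    refine allowed_new C hcol ok hx hd hxa hbn (hW y hy hay) (hw y hy hay).1 (fun v hv => ?_) hyc
    rw [mem_cls, hf'] at hv
    obtain ⟨hvb, hav, -, e⟩ := hv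
    have e1 : c v = c y := by simpa using e.symm
    rw [ec, ec] at e1
    obtain ⟨e2, e3⟩ := div_mod_unique (hw v hvb hav).1 (hw y hy hay).1 e1
    obtain ⟨e4, e5⟩ := div_mod_unique (view_lt C hcol v a) (view_lt C hcol y a) e2
    rw [mem_part C hcol, ← e3, ← e4, ← e5]
    exact ⟨hvb, hav, (hpf v (lt_of_lt_of_le hvb hbn) (le_trans hxa.le hav)).2, rfl,
      (hw v hvb hav).2⟩

end Fn

end Pool.Agent.MP75f14d
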