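import Pool.Agent.MP_75f14d_lc.StepA
import Pool.Agent.MP_75f14d_lc.Cnt

/-! The step lemma, part two: many blocks with rich points are impossible. -/

namespace Pool.Agent.MP75f14d

variable {M : Type} [Ar M] [Good M] (col : M → M → Prop) (hit : M → M → M → Prop)

/-- The events below `x + 1` that have happened to `F` by stage `s`. -/
noncomputable def evs (x F s : M) : M :=
  sep (x + 1) fun e => (e < x ∧ hit e s F) ∨ (e = x ∧ ExIn F fun v => x ≤ v)

/-- Invariant for one side of the process. -/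
def SI (x f t : M) (yf : M → M) (j : Prop) (G Q s : M) : Prop :=
  Hom col j G ∧ (AllIn G fun u => x ≤ u ∧ u < s ∧ Mem (pair u t) f) ∧
    AllIn Q fun q => AllIn G fun u => (col u (yf q) ↔ j)

variable {col hit}

theorem si_iff {x f t G Q s : M} {yf : M → M} {j : Prop} : SI col x f t yf j G Q s ↔
    Hom col j G ∧ (∀ u, Mem u G → x ≤ u ∧ u < s ∧ Mem (pair u t) f) ∧
      ∀ q, Mem q Q → ∀ u, Mem u G → (col u (yf q) ↔ j) := by
  simp only [SI, allIn_iff]

variable (C : Cls M) [SInd C] [XpIn C]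
  (hcol : Fn C fun p : M × M => col p.1 p.2)
  (hhit : Fn C fun p : M × M × M => hit p.1 p.2.1 p.2.2)

include hhit in
theorem mem_evs {x F s e : M} : Mem e (evs hit x F s) ↔
    (e < x ∧ hit e s F) ∨ (e = x ∧ ∃ v, Mem v F ∧ x ≤ v) := by
  rw [evs, mem_sep C (by fun_prop), exIn_iff]
  refine ⟨fun h => h.2, fun h => ⟨?_, h⟩⟩
  rcases h with h | h
  · exact lt_trans h.1 (lt_add_one x)
  · rw [h.1]; exact lt_add_one x

include hhit in
theorem evs_mono (ok : HitOK hit) {x F F' s s' e : M} (hs : s ≤ s')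
    (h1 : ∀ i < s, Mem i F ↔ Mem i F') (h2 : ∀ i, Mem i F → Mem i F')
    (h : Mem e (evs hit x F s)) : Mem e (evs hit x F' s') := by
  rw [mem_evs C hhit] at h ⊢
  rcases h with h | ⟨h, v, hv, hxv⟩
  · exact Or.inl ⟨h.1, ok.mono hs (ok.loc h1 h.2)⟩
  · exact Or.inr ⟨h, v, h2 v hv, hxv⟩

theorem si_keep {x f t G Q Q' s s' : M} {yf : M → M} {j : Prop} (h : SI col x f t yf j G Q s)
    (hQ : ∀ q, Mem q Q' → Mem q Q) (hs : s ≤ s') : SI col x f t yf j G Q' s' := by
  rw [si_iff] at h ⊢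
  exact ⟨h.1, fun u hu => ⟨(h.2.1 u hu).1, lt_of_lt_of_le (h.2.1 u hu).2.1 hs, (h.2.1 u hu).2.2⟩,
    fun q hq => h.2.2 q (hQ q hq)⟩

include hcol in
theorem si_goodG {x f t G Q s a l : M} {yf : M → M} {j : Prop} (h : SI col x f t yf j G Q s)
    (hl : Mem l Q) (hs : s ≤ a) : GoodG col x f t (view col (yf l) a) a j G := by
  rw [si_iff] at h
  rw [goodG_iff]
  refine ⟨h.1, fun u hu => ?_⟩
  obtain ⟨h1, h2, h3⟩ := h.2.1 u hu
  have hua := lt_of_lt_of_le h2 hs
  refine ⟨h1, hua, h3, ?_⟩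
  rw [mem_view C hcol, ← h.2.2 l hl u hu]
  exact ⟨fun h => h.2, fun h => ⟨hua, h⟩⟩

include hcol hhit in
/-- Growing one side by a non-neutral part. -/
theorem si_grow (ok : HitOK hit) {cnt : M → M → M} (hc : IsCnt C cnt)
    {x f t F G Q Q' s a b l g w : M} {yf : M → M} {j : Prop} (h : SI col x f t yf j G Q s)
    (hl : Mem l Q) (hs : s ≤ a) (hxa : x ≤ a) (hab : a ≤ b) (hQ : ∀ q, Mem q Q' → Mem q Q)
    (hw : ∀ q, Mem q Q' → ∀ u, Mem (pair u w) g → (col u (yf q) ↔ j))
    (hN : ¬ Neutral col hit x j (cup F G) a b (part col f t (view col (yf l) a) g w a b)) :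
    ∃ G', SI col x f t yf j G' Q' b ∧
      cnt (evs hit x (cup F G) s) (x + 1) < cnt (evs hit x (cup F G') b) (x + 1) := by
  rw [neutral_iff fun v hv => ((mem_part C hcol).1 hv).1] at hN
  simp only [not_forall] at hN
  obtain ⟨G', hG'Z, hG', hN⟩ := hN
  have hZ := fun v hv => (mem_part C hcol).1 (hG'Z v hv)
  have hg := si_goodG C hcol h hl hs
  rw [si_iff] at h
  have hloc : ∀ i < a, Mem i (cup F G) ↔ Mem i (cup F (cup G G')) := by
    intro i hi
    simp only [mem_cup]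
    exact ⟨fun h => h.imp_right Or.inl, fun h => h.imp_right fun h' => h'.resolve_right
      fun h'' => absurd hi (not_lt.2 (hZ i h'').2.1)⟩
  have hsub : ∀ i, Mem i (cup F G) → Mem i (cup F (cup G G')) := by
    intro i
    simp only [mem_cup]
    exact fun h => h.imp_right Or.inl
  refine ⟨cup G G', si_iff.2 ⟨hom_cup C hcol hg hG' fun v hv => ⟨(hZ v hv).2.1, (hZ v hv).2.2.2.1⟩,
    fun u hu => ?_, fun q hq u hu => ?_⟩, ?_⟩
  · rcases mem_cup.1 hu with hu | hu
    · obtain ⟨h1, h2, h3⟩ := h.2.1 u hu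
      exact ⟨h1, lt_of_lt_of_le h2 (le_trans hs hab), h3⟩
    · obtain ⟨h1, h2, h3, -⟩ := hZ u hu
      exact ⟨le_trans hxa h2, h1, h3⟩
  · rcases mem_cup.1 hu with hu | hu
    · exact h.2.2 q (hQ q hq) u hu
    · exact hw q hq u (hZ u hu).2.2.2.2
  · have hmono : ∀ i < x + 1, Mem i (evs hit x (cup F G) s) →
        Mem i (evs hit x (cup F (cup G G')) b) := fun i _ hi =>
      evs_mono C hhit ok (le_trans hs hab) (fun i hi => hloc i (lt_of_lt_of_le hi hs)) hsub hi
    rw [← cup_assoc'] at hmono ⊢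
    rcases not_and_or.1 hN with hN | hN
    · rw [Classical.not_imp] at hN
      refine hc.lt hmono (lt_add_one x) ((mem_evs C hhit).2 (Or.inr ⟨rfl, hN.1⟩)) fun h' => ?_
      rcases (mem_evs C hhit).1 h' with h' | h'
      · exact lt_irrefl _ h'.1
      · exact hN.2 h'.2
    · simp only [not_forall] at hN
      obtain ⟨e, he, h1, h2⟩ := hN
      refine hc.lt hmono (lt_trans he (lt_add_one x)) ((mem_evs C hhit).2 (Or.inl ⟨he, h1⟩))
        fun h' => ?_
      rcases (mem_evs C hhit).1 h' with h' | h'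
      · exact h2 (ok.mono hs h'.2)
      · exact he.ne h'.1

include hcol hhit in
theorem no_rich (ok : HitOK hit) {cnt : M → M → M} (hc : IsCnt C cnt)
    {d x n f r t Q0 F0 F1 L : M} {X yf : M → M} (hX : Fn C X) (hyf : Fn C yf)
    (hx0 : x ≤ X 0) (hXm : ∀ l m, l ≤ m → X l ≤ X m)
    (hF0 : F0 < exp x) (hF1 : F1 < exp x) (hL : L < exp x)
    (s0 : SideOK col hit False F0 L d n (cls f t x n))
    (s1 : SideOK col hit True F1 L d n (cls f t x n))
    (hQ0 : exp (2 * x + 3) ≤ cnt Q0 r)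
    (rich : ∀ l, Mem l Q0 → ∀ g < exp (pair (X (l + 1)) (exp r)),
      ¬ Wit col hit d x n f r (X l) (X (l + 1)) t (view col (yf l) (X l)) g) : False := by
  have hcf := hc.fn
  obtain ⟨gv, hgv, egv⟩ : ∃ gv : M → M, Fn C gv ∧ ∀ v, gv v = sep r fun q => col v (yf q) :=
    ⟨fun v => sep r fun q => col v (yf q), by fun_prop, fun _ => rfl⟩
  have mgv : ∀ v q, Mem q (gv v) ↔ q < r ∧ col v (yf q) := fun v q => by
    rw [egv]; exact mem_sep C (by fun_prop)
  have key : ∀ k ≤ 2 * x + 3, ∃ z : M × M × M × M × M, k + z.2.2.2.2 = 2 * x + 3 ∧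
      exp z.2.2.2.2 ≤ cnt z.1 r + 1 ∧ (AllIn z.1 fun q => Mem q Q0 ∧ z.2.2.2.1 ≤ X q) ∧
      SI col x f t yf False z.2.1 z.1 z.2.2.2.1 ∧ SI col x f t yf True z.2.2.1 z.1 z.2.2.2.1 ∧
      k ≤ cnt (evs hit x (cup F0 z.2.1) z.2.2.2.1) (x + 1) +
        cnt (evs hit x (cup F1 z.2.2.1) z.2.2.2.1) (x + 1) := by
    refine Sig.ind_le (C := C) (Sig.ex (Fn.sig ?_)) _ ?_ ?_
    · unfold SI Hom evs; fun_prop
    · refine ⟨(Q0, 0, 0, 0, 2 * x + 3), by simp, le_trans hQ0 le_self_add, ?_, ?_, ?_, zero_le⟩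
      · simp
      · simp [si_iff, hom_iff]
      · simp [si_iff, hom_iff]
    · rintro k hk ⟨⟨Q, G0, G1, s, m⟩, hm, hcard, hQ, i0, i1, hpot⟩
      dsimp only at hm hcard hQ i0 i1 hpot
      rw [allIn_iff] at hQ
      obtain ⟨m', rfl⟩ : ∃ m', m = m' + 1 := by
        rcases eq_zero_or_succ m with rfl | h
        · rw [add_zero] at hm; exact absurd hm hk.ne
        · exact h
      rw [exp_succ] at hcard
      have hpos := exp_pos m'
      obtain ⟨q0, -, hq0⟩ := hc.exists_mem (d := Q) (m := r) (by zify at *; linarith)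
      obtain ⟨l, hl, hmin⟩ := Fn.lnp (C := C) (P := fun q => Mem q Q) (by fun_prop) hq0
      have hab : X l ≤ X (l + 1) := hXm _ _ le_self_add
      have hxa : x ≤ X l := le_trans hx0 (hXm _ _ zero_le)
      obtain ⟨g, hg⟩ := exists_code C (P := fun q => q = pair (fstM q) (gv (fstM q)))
        (by fun_prop) (pair (X (l + 1)) (exp r))
      have hgvlt : ∀ v, gv v < exp r := fun v => lt_exp_iff.2 fun i hi => ((mgv v i).1 hi).1
      have hR := rich l (hQ l hl).1 g (lt_exp_iff.2 fun i hi => ((hg i).1 hi).1)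
      have g0 := si_goodG C hcol i0 hl (hQ l hl).2
      have g1 := si_goodG C hcol i1 hl (hQ l hl).2
      have hlt : ∀ {j : Prop} {G : M}, GoodG col x f t (view col (yf l) (X l)) (X l) j G →
          G < exp (X l) := fun h => lt_exp_iff.2 fun i hi => ((goodG_iff.1 h).2 i hi).2.1
      obtain ⟨w, n0, n1⟩ : ∃ w,
          ¬ Neutral col hit x False (cup F0 G0) (X l) (X (l + 1))
            (part col f t (view col (yf l) (X l)) g w (X l) (X (l + 1))) ∧
          ¬ Neutral col hit x True (cup F1 G1) (X l) (X (l + 1))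
            (part col f t (view col (yf l) (X l)) g w (X l) (X (l + 1))) := by
        by_contra hcon
        refine hR ⟨fun v hv _ => ⟨gv v, hgvlt v, (hg _).2 ⟨pair_lt_pair hv (hgvlt v).le, by simp⟩⟩,
          F0, hF0, F1, hF1, L, hL, s0, s1, G0, hlt g0, G1, hlt g1, g0, g1, fun w _ => ?_⟩
        by_contra h'
        exact hcon ⟨w, fun h => h' (Or.inl h), fun h => h' (Or.inr h)⟩
      have hwg : ∀ u, Mem (pair u w) g → w = gv u := fun u hu => by
        simpa using ((hg _).1 hu).2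
      obtain ⟨Q1, hQ1⟩ := exists_code C (P := fun q => Mem q Q ∧ q ≠ l ∧ Mem q w) (by fun_prop) r
      obtain ⟨Q2, hQ2⟩ := exists_code C (P := fun q => Mem q Q ∧ q ≠ l ∧ ¬ Mem q w) (by fun_prop) r
      have c1 : cnt Q r ≤ cnt (exp l) r + cnt (cup Q1 Q2) r := hc.le_add fun i hi h => by
        rw [mem_exp, mem_cup, hQ1, hQ2]; tauto
      have c2 : cnt (cup Q1 Q2) r ≤ cnt Q1 r + cnt Q2 r := hc.le_add fun i _ h => mem_cup.1 h
      have c3 := hc.exp_le l r
      have hnext : ∀ q, Mem q Q → q ≠ l → Mem q Q0 ∧ X (l + 1) ≤ X q := fun q hq hql =>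
        ⟨(hQ q hq).1, hXm _ _ (lt_iff_succ_le.1 (lt_of_le_of_ne
          (not_lt.1 fun h => hmin q h hq) hql.symm))⟩
      have hsb : s ≤ X (l + 1) := le_trans (hQ l hl).2 hab
      have hkm : k + 1 + m' = 2 * x + 3 := by rw [← hm]; ring
      have keep : ∀ F : M, cnt (evs hit x F s) (x + 1) ≤ cnt (evs hit x F (X (l + 1))) (x + 1) :=
        fun F => hc.mono fun i _ hi => evs_mono C hhit ok hsb (fun _ _ => Iff.rfl) (fun _ h => h) hi
      by_cases hbig : exp m' ≤ cnt Q1 r + 1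
      · have hsub : ∀ q, Mem q Q1 → Mem q Q := fun q hq => ((hQ1 q).1 hq).2.1
        obtain ⟨G', i1', hlt'⟩ := si_grow C hcol hhit ok hc (Q' := Q1) i1 hl (hQ l hl).2 hxa hab hsub
          (fun q hq u hu => by
            have := ((hQ1 q).1 hq).2.2.2
            rw [hwg u hu, mgv] at this
            exact iff_true_intro this.2) n1
        refine ⟨(Q1, G0, G', X (l + 1), m'), hkm, hbig, allIn_iff.2 fun q hq =>
          hnext q (hsub q hq) ((hQ1 q).1 hq).2.2.1, si_keep i0 hsub hsb, i1', ?_⟩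
        have := keep (cup F0 G0)
        dsimp only
        zify at hpot hlt' this ⊢; linarith
      · have hbig2 : exp m' ≤ cnt Q2 r + 1 := by
          push Not at hbig
          zify at hbig hcard c1 c2 c3 ⊢; linarith
        have hsub : ∀ q, Mem q Q2 → Mem q Q := fun q hq => ((hQ2 q).1 hq).2.1
        obtain ⟨G', i0', hlt'⟩ := si_grow C hcol hhit ok hc (Q' := Q2) i0 hl (hQ l hl).2 hxa hab hsub
          (fun q hq u hu => by
            have := ((hQ2 q).1 hq).2.2.2
            rw [hwg u hu, mgv] at this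
            exact iff_false_intro fun h => this ⟨((hQ2 q).1 hq).1, h⟩) n0
        refine ⟨(Q2, G', G1, X (l + 1), m'), hkm, hbig2, allIn_iff.2 fun q hq =>
          hnext q (hsub q hq) ((hQ2 q).1 hq).2.2.1, i0', si_keep i1 hsub hsb, ?_⟩
        have := keep (cup F1 G1)
        dsimp only
        zify at hpot hlt' this ⊢; linarith
  obtain ⟨z, -, -, -, -, -, h⟩ := key _ le_rfl
  have a1 := hc.le (evs hit x (cup F0 z.2.1) z.2.2.2.1) (x + 1)
  have a2 := hc.le (evs hit x (cup F1 z.2.2.1) z.2.2.2.1) (x + 1)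
  zify at h a1 a2
  linarith

end Pool.Agent.MP75f14d
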